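import Mathlib
import Pool.Agent.Lib.MP_562b47_mp.Escape

/-!
QuantumPolya (MP_562b47_mp): definitions.  Digit flips of the potential, the noise operators and
their orthogonal decomposition, the dissipative Green function.
-/

open MeasureTheory Set Filter Topology Complex
open scoped Real ENNReal NNReal InnerProductSpace

namespace Pool.Agent.Lib.MP_562b47_mp.QP

/-! ### Digit flips -/

/-- the length of the dyadic cells of level `k` (there are `2 ^ (k + 1)` of them in `[-c, c)`) -/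
noncomputable def len (c : ℝ) (k : ℕ) : ℝ := c / 2 ^ k

/-- `1` if the `k`-th digit of `v` is `0`, `-1` if it is `1`, and `0` outside of `[-c, c)` -/
noncomputable def sgn (c : ℝ) (k : ℕ) (v : ℝ) : ℝ :=
  if v ∈ Ico (-c) c then (if Even ⌊(v + c) / len c k⌋ then 1 else -1) else 0

/-- the flip of the `k`-th digit: the two halves of every cell of length `2 * len c k` are
exchanged (nothing is changed outside of `[-c, c)`) -/
noncomputable def flp (c : ℝ) (k : ℕ) (v : ℝ) : ℝ := v + sgn c k v * len c k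

/-- the flip of the digit `a.2` of the coordinate `a.1` -/
noncomputable def sg {Λ : Type*} [DecidableEq Λ] (c : ℝ) (a : Λ × ℕ) (ω : Λ → ℝ) : Λ → ℝ :=
  Function.update ω a.1 (flp c a.2 (ω a.1))

/-- the sign of the digit `a.2` of the coordinate `a.1` -/
noncomputable def sn {Λ : Type*} (c : ℝ) (a : Λ × ℕ) (ω : Λ → ℝ) : ℝ := sgn c a.2 (ω a.1)

/-- the noise rates at scale `n` -/
noncomputable def rate {Λ : Type*} (ε : ℝ) (n : ℕ) (a : Λ × ℕ) : ℝ :=
  ε * min ((2:ℝ) ^ a.2 / 2 ^ n) 1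

/-! ### Noise operators for a family of commuting involutions -/

section noise

variable {Ω ι : Type*}

/-- the part of `u` which is even under `σ a` -/
noncomputable def ev (σ : ι → Ω → Ω) (a : ι) (u : Ω → ℂ) : Ω → ℂ := fun ω => (u ω + u (σ a ω)) / 2

/-- the part of `u` which is odd under `σ a` -/
noncomputable def od (σ : ι → Ω → Ω) (a : ι) (u : Ω → ℂ) : Ω → ℂ := fun ω => (u ω - u (σ a ω)) / 2

/-- the part of `u` which is odd under `σ a`, `a ∈ l ∩ U`, and even under `σ a`, `a ∈ l \ U` -/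
noncomputable def pr [DecidableEq ι] (σ : ι → Ω → Ω) : List ι → Finset ι → (Ω → ℂ) → (Ω → ℂ)
  | [], _, u => u
  | a :: l, U, u => pr σ l U (if a ∈ U then od σ a u else ev σ a u)

/-- the noise operator: `σ a`, `a ∈ l`, is applied with probability `s a / 2` -/
noncomputable def tt {V : Type*} [AddCommGroup V] [Module ℝ V] (σ : ι → Ω → Ω) (s : ι → ℝ) :
    List ι → (Ω → V) → (Ω → V)
  | [], h => h
  | a :: l, h => fun ω => (1 - s a / 2) • tt σ s l h ω + (s a / 2) • tt σ s l h (σ a ω)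

variable [MeasurableSpace Ω]

/-- the squared norm in `L²(P)` -/
noncomputable def nn (P : Measure Ω) (u : Ω → ℂ) : ℝ := ∫ ω, ‖u ω‖ ^ 2 ∂P

/-- bounded measurable functions -/
def BM (u : Ω → ℂ) : Prop := Measurable u ∧ ∃ C : ℝ, ∀ ω, ‖u ω‖ ≤ C

/-- a commuting family of measure preserving involutions -/
structure Flips (P : Measure Ω) (σ : ι → Ω → Ω) : Prop where
  mp : ∀ a, MeasurePreserving (σ a) P P
  inv : ∀ a ω, σ a (σ a ω) = ω
  comm : ∀ a b ω, σ a (σ b ω) = σ b (σ a ω)

/-- the increment `⟨u, (T_{s'} - T_s) u⟩` of the quadratic form of the noise operator -/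
noncomputable def RR [DecidableEq ι] (P : Measure Ω) (σ : ι → Ω → Ω) (l : List ι) (s' s : ι → ℝ)
    (u : Ω → ℂ) : ℝ :=
  ∑ U ∈ l.toFinset.powerset,
    ((∏ b ∈ U, (1 - s' b)) - ∏ b ∈ U, (1 - s b)) * nn P (pr σ l U u)

/-- the Laplace transform -/
noncomputable def lap (φ : ℝ → Ω → ℂ) (η E : ℝ) (ω : Ω) : ℂ :=
  ∫ s in Ioi (0:ℝ), cexp ((I * (E : ℂ) - (η : ℂ)) * (s : ℂ)) * φ s ω

end noise

/-! ### The dissipative Green function -/

section green

variable {Λ : Type*} {E : Type*} [NormedAddCommGroup E] [InnerProductSpace ℂ E] [CompleteSpace E]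

/-- the Green function of `H - i |δ_o⟩⟨δ_o|` -/
noncomputable def Gt (e : Λ → E) (H : (Λ → ℝ) → (E →L[ℂ] E)) (o : Λ) (ω : Λ → ℝ) (z : ℂ)
    (x y : Λ) : ℂ := Gr e H ω z x y + I * Gr e H ω z x o * gg e H ω z o y

end green

end Pool.Agent.Lib.MP_562b47_mp.QP
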