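import Mathlib
import Pool.Agent.Lib.MP_562b47_mp.QP.Line
import Pool.Agent.Lib.MP_562b47_mp.QP.Defs

/-!
QuantumPolya (MP_562b47_mp), module AC: what an absolutely continuous part gives.

μ_ω = sm (M.sa ω) (e o) (Rank.lean: the spectral measure, sm_spec), G = Gr e H ω ⟨E,η⟩ o o,
Im G = η ‖Rv e_o‖² = Pois μ_ω ⟨E,η⟩ (im_inner_Rv, IsSpec.pois).
a(η) := ∫_ω ∫_E min 1 (Im G) dkap dPP.
STEP 1: ∃ m > 0, η1 > 0, ∀ η ∈ (0, η1], m ≤ a(η).  Otherwise there are η_k → 0+, a(η_k) ≤ 2^{-k}; then ∑_k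
  ∫_E min 1 (Pois μ_ω ⟨E,η_k⟩) dkap < ∞ for a.e. ω (ae_summable_of_summable_integral, Subseq.lean), so it tends
  to 0; with pois_line_tendsto and min 1 (Dens) ≤ min 1 |Pois - Dens| + min 1 Pois (min_one_add_le'):
  ∫_E min 1 (Dens μ_ω) dkap = 0, Dens μ_ω = 0 kap-a.e., so (ac_kap, rnDeriv_lt_top; see the end of exists_mm_pos,
  EscProb.lean) rnDeriv = 0 volume-a.e., μ_ω ⟂ volume for a.e. ω; by IsSpec.unique the negation of hns.
STEP 2: for every E, η > 0, K > 0: PP{‖G‖ > K} ≤ 8 (c K)^{-1/2}: Markov for ‖G‖^{1/2}; integral_resample (Decay3.lean; ‖G‖ ≤ 1/η)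
  at the site o; for fixed ω Gr_affine gives G(update ω o v) = F/(a + F v) (v ∈ [-c,c]) with F = G ω, `frac_unif` (Unif.lean):
  ∫ ‖F/(a+Fv)‖^{1/2} dunif ≤ 8 (‖F‖/max ‖a+Fc‖ ‖a-Fc‖)^{1/2} ≤ 8 c^{-1/2} (norm_b_le; F ≠ 0).
  (cf. integral_Gr_diag_le in Decay3.lean, which does this on the curves Zt.)
STEP 3: if ‖G‖ ≤ K then ‖den‖ ≤ 1 + K, so Im G/‖den‖² ≥ min 1 (Im G)/(1+K)²; hence
  ∫_E ∫_ω Im G/‖den‖² ≥ (1+K)^{-2} (a(η) - 8 (cK)^{-1/2}) ≥ (1+K)^{-2} m/2 =: κ for K large.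
Joint measurability: (E, ω) ↦ G is continuous (Model.continuous_Gr with f = snd, g = ⟨fst, η⟩); Im G/‖den‖² ≤ 1.
-/

open MeasureTheory Set Filter Topology Complex
open scoped Real ENNReal NNReal InnerProductSpace

set_option linter.unusedSectionVars false

namespace Pool.Agent.Lib.MP_562b47_mp.QP

variable {Λ : Type*} [DecidableEq Λ] [Countable Λ] {E : Type*} [NormedAddCommGroup E]
  [InnerProductSpace ℂ E] [CompleteSpace E] {c : ℝ} {e : Λ → E} {H : (Λ → ℝ) → (E →L[ℂ] E)}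

theorem ac_cont_mk (η : ℝ) : Continuous fun p : (Λ → ℝ) × ℝ => (⟨p.2, η⟩ : ℂ) := by
  have : (fun p : (Λ → ℝ) × ℝ => (⟨p.2, η⟩ : ℂ)) = fun p => (p.2 : ℂ) + (η : ℂ) * I := by
    funext p
    apply Complex.ext <;> simp
  rw [this]
  fun_prop

theorem ac_cont_Gr (M : Model c e H) (o : Λ) {η : ℝ} (hη : 0 < η) :
    Continuous fun p : (Λ → ℝ) × ℝ => Gr e H p.1 (⟨p.2, η⟩ : ℂ) o o :=
  M.continuous_Gr continuous_fst (ac_cont_mk η) (fun _ => hη) o o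

theorem ac_cont_den (M : Model c e H) (o : Λ) {η : ℝ} (hη : 0 < η) :
    Continuous fun p : (Λ → ℝ) × ℝ => den e H p.1 (⟨p.2, η⟩ : ℂ) o :=
  M.continuous_den continuous_fst (ac_cont_mk η) (fun _ => hη) o

theorem ac_im_eq (M : Model c e H) (o : Λ) {η : ℝ} (hη : 0 < η) (ω : Λ → ℝ) (x : ℝ) :
    (Gr e H ω (⟨x, η⟩ : ℂ) o o).im = Pois (sm (M.sa ω) (e o)) (⟨x, η⟩ : ℂ) := by
  rw [(sm_spec (M.sa ω) (e o)).pois (M.sa ω) (z := (⟨x, η⟩ : ℂ)) hη]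
  unfold Gr
  exact im_inner_Rv (M.sa ω) (z := (⟨x, η⟩ : ℂ)) hη.ne' (e o)

theorem ac_int_min (M : Model c e H) (o : Λ) {η : ℝ} (hη : 0 < η) :
    Integrable (fun p : (Λ → ℝ) × ℝ => min 1 (Gr e H p.1 (⟨p.2, η⟩ : ℂ) o o).im)
      ((PP Λ c).prod kap) := by
  have := PP_prob Λ M.hc
  refine Integrable.of_bound (C := 1)
    ((continuous_const.min (Complex.continuous_im.comp (ac_cont_Gr M o hη))).aestronglyMeasurable)
    (ae_of_all _ fun p => ?_)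
  rw [Real.norm_of_nonneg (le_min zero_le_one (M.im_Gr_pos p.1 (z := (⟨p.2, η⟩ : ℂ)) hη o).le)]
  exact min_le_left _ _

/-- the singular case -/
theorem ac_sing (μ : Measure ℝ) [IsFiniteMeasure μ] {t : ℕ → ℝ} (ht : ∀ k, 0 < t k)
    (ht0 : Tendsto t atTop (𝓝 0))
    (h : Tendsto (fun k => ∫ x, min 1 (Pois μ (⟨x, t k⟩ : ℂ)) ∂kap) atTop (𝓝 0)) :
    μ ⟂ₘ volume := by
  have h1 := (pois_line_tendsto μ).comp (tendsto_within ht ht0)
  have h2 := h1.add h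
  rw [add_zero] at h2
  have hD : ∀ x, 0 ≤ min 1 (Dens μ x) := fun x => le_min zero_le_one (Dens_nonneg μ x)
  have hint : Integrable (fun x => min 1 (Dens μ x)) kap :=
    integrable_min_one (measurable_Dens μ) (Dens_nonneg μ)
  have h3 : ∫ x, min 1 (Dens μ x) ∂kap ≤ 0 := by
    refine ge_of_tendsto' h2 fun k => ?_
    have hPm : Measurable (fun x => Pois μ (⟨x, t k⟩ : ℂ)) := measurable_Pois_line μ (t k)
    have hP0 : ∀ x, 0 ≤ Pois μ (⟨x, t k⟩ : ℂ) := fun x => Pois_nonneg μ (z := (⟨x, t k⟩ : ℂ)) (ht k)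
    have i1 : Integrable (fun x => min 1 |Pois μ (⟨x, t k⟩ : ℂ) - Dens μ x|) kap :=
      integrable_min_one ((hPm.sub (measurable_Dens μ)).abs) (fun x => abs_nonneg _)
    have i2 : Integrable (fun x => min 1 (Pois μ (⟨x, t k⟩ : ℂ))) kap :=
      integrable_min_one hPm hP0
    have : ∫ x, min 1 (Dens μ x) ∂kap ≤ ∫ x, (min 1 |Pois μ (⟨x, t k⟩ : ℂ) - Dens μ x|
        + min 1 (Pois μ (⟨x, t k⟩ : ℂ))) ∂kap := by
      refine integral_mono hint (i1.add i2) fun x => ?_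
      have h4 : Dens μ x ≤ |Pois μ (⟨x, t k⟩ : ℂ) - Dens μ x| + Pois μ (⟨x, t k⟩ : ℂ) := by
        have := neg_abs_le (Pois μ (⟨x, t k⟩ : ℂ) - Dens μ x)
        linarith
      exact (min_le_min_left 1 h4).trans (min_one_add_le' (abs_nonneg _) (hP0 x))
    rw [integral_add i1 i2] at this
    exact this
  have h4 : ∫ x, min 1 (Dens μ x) ∂kap = 0 := le_antisymm h3 (integral_nonneg hD)
  rw [integral_eq_zero_iff_of_nonneg hD hint] at h4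
  rw [← Measure.rnDeriv_eq_zero]
  filter_upwards [ac_kap.ae_le h4, Measure.rnDeriv_lt_top μ volume] with s hs hs2
  have hs' : min 1 (Dens μ s) = 0 := hs
  have h5 : Dens μ s = 0 := by
    rcases min_choice (1:ℝ) (Dens μ s) with h6 | h6
    · rw [h6] at hs'; norm_num at hs'
    · rw [h6] at hs'; exact hs'
  unfold Dens at h5
  have h8 := (mul_eq_zero.mp h5).resolve_left Real.pi_ne_zero
  rcases (ENNReal.toReal_eq_zero_iff _).mp h8 with h | h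
  · exact h
  · exact absurd h hs2.ne

theorem ac_step1 (M : Model c e H) (o : Λ)
    (hns : ¬ ∀ᵐ ω ∂(PP Λ c), ∀ μ : Measure ℝ, IsFiniteMeasure μ → IsSpec (H ω) (e o) μ →
      μ ⟂ₘ volume) :
    ∃ m : ℝ, 0 < m ∧ ∃ η₁ : ℝ, 0 < η₁ ∧ ∀ η : ℝ, 0 < η → η ≤ η₁ →
      m ≤ ∫ ω, (∫ x, min 1 (Gr e H ω (⟨x, η⟩ : ℂ) o o).im ∂kap) ∂(PP Λ c) := by
  have := PP_prob Λ M.hc
  by_contra hcon
  push Not at hcon
  apply hns
  have hch : ∀ k : ℕ, ∃ η : ℝ, 0 < η ∧ η ≤ 1 / ((k:ℝ) + 1) ∧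
      ∫ ω, (∫ x, min 1 (Gr e H ω (⟨x, η⟩ : ℂ) o o).im ∂kap) ∂(PP Λ c) < (1/2 : ℝ) ^ k := fun k =>
    hcon ((1/2 : ℝ) ^ k) (by positivity) (1 / ((k:ℝ) + 1)) (by positivity)
  choose t ht ht1 hta using hch
  have ht0 : Tendsto t atTop (𝓝 0) :=
    tendsto_of_tendsto_of_tendsto_of_le_of_le tendsto_const_nhds
      tendsto_one_div_add_atTop_nhds_zero_nat (fun k => (ht k).le) ht1
  have hnn : ∀ k ω, 0 ≤ ∫ x, min 1 (Gr e H ω (⟨x, t k⟩ : ℂ) o o).im ∂kap := fun k ω =>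
    integral_nonneg fun x => le_min zero_le_one (M.im_Gr_pos ω (z := (⟨x, t k⟩ : ℂ)) (ht k) o).le
  have hsum := ae_summable_of_summable_integral (μ := PP Λ c)
    (h := fun k ω => ∫ x, min 1 (Gr e H ω (⟨x, t k⟩ : ℂ) o o).im ∂kap)
    (fun k => (ac_int_min M o (ht k)).integral_prod_left) hnn
    (Summable.of_nonneg_of_le (fun k => integral_nonneg (hnn k)) (fun k => (hta k).le)
      (summable_geometric_of_lt_one (by norm_num) (by norm_num)))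
  filter_upwards [hsum] with ω hω μ hμf hμ
  have h5 : μ = sm (M.sa ω) (e o) := hμ.unique (sm_spec _ _)
  rw [h5]
  refine ac_sing _ ht ht0 ?_
  refine hω.tendsto_atTop_zero.congr fun k => ?_
  refine integral_congr_ae (ae_of_all _ fun x => ?_)
  simp only
  rw [ac_im_eq M o (ht k)]

theorem ac_half (M : Model c e H) (o : Λ) {η : ℝ} (hη : 0 < η) :
    Integrable (fun p : (Λ → ℝ) × ℝ => ‖Gr e H p.1 (⟨p.2, η⟩ : ℂ) o o‖ ^ (1/2 : ℝ))
      ((PP Λ c).prod kap) ∧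
    ∫ p : (Λ → ℝ) × ℝ, ‖Gr e H p.1 (⟨p.2, η⟩ : ℂ) o o‖ ^ (1/2 : ℝ) ∂((PP Λ c).prod kap)
      ≤ 8 * (1 / c) ^ (1/2 : ℝ) := by
  have := PP_prob Λ M.hc
  have := unif_prob M.hc
  have hcont : Continuous fun p : (Λ → ℝ) × ℝ => ‖Gr e H p.1 (⟨p.2, η⟩ : ℂ) o o‖ ^ (1/2 : ℝ) :=
    (ac_cont_Gr M o hη).norm.rpow_const (fun _ => Or.inr (by norm_num))
  have hbd : ∀ ω x, ‖Gr e H ω (⟨x, η⟩ : ℂ) o o‖ ^ (1/2 : ℝ) ≤ (1 / η) ^ (1/2 : ℝ) := fun ω x =>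
    Real.rpow_le_rpow (norm_nonneg _) (M.norm_Gr_le ω (z := (⟨x, η⟩ : ℂ)) hη o o) (by norm_num)
  have hint : Integrable (fun p : (Λ → ℝ) × ℝ => ‖Gr e H p.1 (⟨p.2, η⟩ : ℂ) o o‖ ^ (1/2 : ℝ))
      ((PP Λ c).prod kap) := by
    refine Integrable.of_bound (C := (1 / η) ^ (1/2 : ℝ)) hcont.aestronglyMeasurable
      (ae_of_all _ fun q => ?_)
    rw [Real.norm_of_nonneg (by positivity)]
    exact hbd _ _
  refine ⟨hint, ?_⟩
  rw [integral_prod_symm _ hint]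
  have hs : ∀ s, ∫ ω, ‖Gr e H ω (⟨s, η⟩ : ℂ) o o‖ ^ (1/2 : ℝ) ∂(PP Λ c)
      ≤ 8 * (1 / c) ^ (1/2 : ℝ) := by
    intro s
    have hm : Measurable (fun ω : Λ → ℝ => ‖Gr e H ω (⟨s, η⟩ : ℂ) o o‖ ^ (1/2 : ℝ)) :=
      (hcont.comp (continuous_id.prodMk continuous_const)).measurable
    rw [← integral_resample M.hc o hm (C := (1 / η) ^ (1/2 : ℝ)) fun ω => by
      rw [abs_of_nonneg (by positivity)]
      exact hbd ω s]
    calc ∫ ω, (∫ v, ‖Gr e H (Function.update ω o v) (⟨s, η⟩ : ℂ) o o‖ ^ (1/2 : ℝ) ∂(unif c))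
            ∂(PP Λ c)
          ≤ ∫ _ω, 8 * (1 / c) ^ (1/2 : ℝ) ∂(PP Λ c) := by
            refine integral_mono_of_nonneg (ae_of_all _ fun ω => integral_nonneg fun v => by
              positivity) (integrable_const _) (ae_of_all _ fun ω => ?_)
            obtain ⟨a, hne, hG⟩ := M.Gr_affine ω (z := (⟨s, η⟩ : ℂ)) hη o
            simp only
            set β := Gr e H ω (⟨s, η⟩ : ℂ) o o with hβ
            have h3 : ∫ v, ‖Gr e H (Function.update ω o v) (⟨s, η⟩ : ℂ) o o‖ ^ (1/2 : ℝ) ∂(unif c)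
                = ∫ v, ‖β / (a + β * (v : ℂ))‖ ^ (1/2 : ℝ) ∂(unif c) := by
              refine integral_congr_ae ?_
              filter_upwards [ae_unif c] with v hv
              rw [hG v hv]
            rw [h3]
            refine (frac_unif M.hc β a β hne).trans ?_
            have h4 := norm_b_le M.hc a β
            have h5 := max_pos_of M.hc a β hne
            have h6 : ‖β‖ / max ‖a + β * c‖ ‖a - β * c‖ ≤ 1 / c := by
              rw [div_le_div_iff₀ h5 M.hc]; linarith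
            have h7 := Real.rpow_le_rpow (by positivity) h6 (by norm_num : (0:ℝ) ≤ 1/2)
            linarith
        _ = _ := by simp
  calc ∫ s, (∫ ω, ‖Gr e H ω (⟨s, η⟩ : ℂ) o o‖ ^ (1/2 : ℝ) ∂(PP Λ c)) ∂kap
      ≤ ∫ _s, 8 * (1 / c) ^ (1/2 : ℝ) ∂kap := by
        refine integral_mono_of_nonneg (ae_of_all _ fun s => integral_nonneg fun ω => by
          positivity) (integrable_const _) (ae_of_all _ hs)
    _ = _ := by simp

/-- the pointwise inequality -/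
theorem ac_point {G : ℂ} (hG : 0 < G.im) {K : ℝ} (hK : 0 < K) :
    min 1 G.im - (1 / K) ^ (1/2 : ℝ) * ‖G‖ ^ (1/2 : ℝ)
      ≤ (1 + K) ^ 2 * (G.im / ‖1 - I * G‖ ^ 2) := by
  have h0 : 0 ≤ (1 + K) ^ 2 * (G.im / ‖1 - I * G‖ ^ 2) := by positivity
  rw [← Real.mul_rpow (by positivity) (norm_nonneg _)]
  by_cases h : ‖G‖ ≤ K
  · have h1 : ‖1 - I * G‖ ≤ 1 + K := by
      calc ‖1 - I * G‖ ≤ ‖(1:ℂ)‖ + ‖I * G‖ := norm_sub_le _ _
        _ = 1 + ‖G‖ := by simp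
        _ ≤ 1 + K := by linarith
    have h2 : 0 < ‖1 - I * G‖ := by
      rw [norm_pos_iff]
      intro h3
      have := congrArg Complex.re h3
      simp at this
      linarith
    have h3 : ‖1 - I * G‖ ^ 2 ≤ (1 + K) ^ 2 := pow_le_pow_left₀ h2.le h1 2
    have h4 : G.im ≤ (1 + K) ^ 2 * (G.im / ‖1 - I * G‖ ^ 2) := by
      rw [← mul_div_assoc, le_div_iff₀ (by positivity)]
      nlinarith
    have h5 : 0 ≤ (1 / K * ‖G‖) ^ (1/2 : ℝ) := by positivity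
    have h6 := min_le_right 1 G.im
    linarith
  · push Not at h
    have h1 : 1 ≤ (1 / K * ‖G‖) ^ (1/2 : ℝ) := by
      refine Real.one_le_rpow ?_ (by norm_num)
      rw [one_div, inv_mul_eq_div, le_div_iff₀ hK]
      linarith
    have h2 := min_le_left 1 G.im
    linarith

theorem ac_input (M : Model c e H) (o : Λ)
    (hns : ¬ ∀ᵐ ω ∂(PP Λ c), ∀ μ : Measure ℝ, IsFiniteMeasure μ → IsSpec (H ω) (e o) μ →
      μ ⟂ₘ volume) :
    ∃ κ : ℝ, 0 < κ ∧ ∃ η₀ : ℝ, 0 < η₀ ∧ ∀ η : ℝ, 0 < η → η ≤ η₀ →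
      κ ≤ ∫ x, (∫ ω, (Gr e H ω (⟨x, η⟩ : ℂ) o o).im / ‖den e H ω (⟨x, η⟩ : ℂ) o‖ ^ 2 ∂(PP Λ c))
        ∂kap := by
  have := PP_prob Λ M.hc
  have hc := M.hc
  obtain ⟨m, hm, η₁, hη₁, hlow⟩ := ac_step1 M o hns
  set A : ℝ := (1 / c) ^ (1/2 : ℝ) with hA
  have hA0 : 0 < A := by positivity
  set K : ℝ := (16 * A / m) ^ 2 with hK
  have hK0 : 0 < K := by positivity
  have hKs : (1 / K) ^ (1/2 : ℝ) = m / (16 * A) := by
    have : 1 / K = (m / (16 * A)) ^ 2 := by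
      rw [hK]
      field_simp
    rw [this, ← Real.sqrt_eq_rpow, Real.sqrt_sq (by positivity)]
  refine ⟨m / 2 / (1 + K) ^ 2, by positivity, η₁, hη₁, fun η hη hη1 => ?_⟩
  have h1 := hlow η hη hη1
  have i1 := ac_int_min M o hη
  obtain ⟨i2, h2⟩ := ac_half M o hη
  have hcd : Continuous fun p : (Λ → ℝ) × ℝ =>
      (Gr e H p.1 (⟨p.2, η⟩ : ℂ) o o).im / ‖den e H p.1 (⟨p.2, η⟩ : ℂ) o‖ ^ 2 := by
    refine (Complex.continuous_im.comp (ac_cont_Gr M o hη)).div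
      ((ac_cont_den M o hη).norm.pow 2) fun p => ?_
    have := M.one_le_norm_den p.1 (z := (⟨p.2, η⟩ : ℂ)) hη o
    positivity
  have i3 : Integrable (fun p : (Λ → ℝ) × ℝ =>
      (Gr e H p.1 (⟨p.2, η⟩ : ℂ) o o).im / ‖den e H p.1 (⟨p.2, η⟩ : ℂ) o‖ ^ 2)
      ((PP Λ c).prod kap) := by
    refine Integrable.of_bound (C := 1 / η) hcd.aestronglyMeasurable (ae_of_all _ fun q => ?_)
    have h3 := M.im_Gr_pos q.1 (z := (⟨q.2, η⟩ : ℂ)) hη o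
    have h4 := M.one_le_norm_den q.1 (z := (⟨q.2, η⟩ : ℂ)) hη o
    have h5 := M.norm_Gr_le q.1 (z := (⟨q.2, η⟩ : ℂ)) hη o o
    have h6 := Complex.abs_im_le_norm (Gr e H q.1 (⟨q.2, η⟩ : ℂ) o o)
    rw [abs_of_pos h3] at h6
    rw [Real.norm_of_nonneg (by positivity)]
    refine (div_le_self h3.le ?_).trans (h6.trans h5)
    exact one_le_pow₀ h4
  have h3 : ∫ p : (Λ → ℝ) × ℝ, (min 1 (Gr e H p.1 (⟨p.2, η⟩ : ℂ) o o).im
        - (1 / K) ^ (1/2 : ℝ) * ‖Gr e H p.1 (⟨p.2, η⟩ : ℂ) o o‖ ^ (1/2 : ℝ)) ∂((PP Λ c).prod kap)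
      ≤ ∫ p : (Λ → ℝ) × ℝ, (1 + K) ^ 2 * ((Gr e H p.1 (⟨p.2, η⟩ : ℂ) o o).im
        / ‖den e H p.1 (⟨p.2, η⟩ : ℂ) o‖ ^ 2) ∂((PP Λ c).prod kap) := by
    refine integral_mono (i1.sub (i2.const_mul _)) (i3.const_mul _) fun p => ?_
    exact ac_point (M.im_Gr_pos p.1 (z := (⟨p.2, η⟩ : ℂ)) hη o) hK0
  rw [integral_sub i1 (i2.const_mul _), integral_const_mul, integral_const_mul, hKs,
    integral_prod _ i1, integral_prod_symm _ i3] at h3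
  have h4 : m / (16 * A) * ∫ p : (Λ → ℝ) × ℝ, ‖Gr e H p.1 (⟨p.2, η⟩ : ℂ) o o‖ ^ (1/2 : ℝ)
      ∂((PP Λ c).prod kap) ≤ m / 2 := by
    calc m / (16 * A) * ∫ p : (Λ → ℝ) × ℝ, ‖Gr e H p.1 (⟨p.2, η⟩ : ℂ) o o‖ ^ (1/2 : ℝ)
          ∂((PP Λ c).prod kap) ≤ m / (16 * A) * (8 * A) := by gcongr
      _ = m / 2 := by field_simp; norm_num
  rw [div_le_iff₀ (by positivity)]
  linarith

end Pool.Agent.Lib.MP_562b47_mp.QP
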