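import Mathlib
import Pool.Agent.Lib.MP_562b47_mp.QP.Defs

/-!
QuantumPolya (MP_562b47_mp), module Walsh: orthogonal decomposition for commuting measure preserving
involutions σ a.  `ev`, `od` = even, odd part; `pr σ l U u` = projection of `u` on the functions which
are odd under σ a for a ∈ U and even for a ∈ l \ U; `tt σ s l` = noise operator.

Facts (all for bounded measurable u; P a probability measure):
(a) pointwise ‖x‖² + ‖y‖² = 2 (‖(x+y)/2‖² + ‖(x-y)/2‖²), and ∫ ‖u ∘ σ a‖² = ∫ ‖u‖²; so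
    nn u = nn (ev a u) + nn (od a u).
(b) `sum_nn_pr`: induction on l, `Finset.sum_powerset_insert`: for a ∉ l,
    ∑_{U ⊆ insert a l} F U = ∑_{U ⊆ l} F U + ∑_{U ⊆ l} F (insert a U), and
    pr (a :: l) U u = pr l U (ev a u), pr (a :: l) (insert a U) u = pr l (insert a U) (od a u)
    = pr l U (od a u) (pr l U only depends on U ∩ l: lemma).
(c) commutation: ev/od for different (or equal) indices commute (σ a σ b = σ b σ a), hence
    pr l U (od b u) = od b (pr l U u), pr l U (ev b u) = ev b (pr l U u);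
    od b (od b u) = od b u, od b (ev b u) = 0, ev b (od b u) = 0, ev b (ev b u) = ev b u (σ b σ b = 1).
    So for b ∈ l: pr l U (od b u) = pr l U u if b ∈ U, and = 0 if b ∉ U (U ⊆ l).
    `sum_nn_pr_mem`: apply (b) to od b u.
(d) `nn_tt`: tt σ s (a :: l) u = (tt σ s l) (ev a u) + (1 - s a) (tt σ s l) (od a u), because tt σ s l is
    linear and commutes with composition with σ a: (1 - s/2) w + (s/2) w ∘ σ a for w = tt σ s l u,
    w = w₊ + w₋, w₊ = tt (ev a u) even, w₋ = tt (od a u) odd, gives w₊ + (1 - s) w₋.  Hence by (a)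
    nn (tt (a :: l) u) = nn (tt l (ev a u)) + (1 - s a)² nn (tt l (od a u)); induction with (b)'s sum formula
    (for all u).
(e) `nn_tt_od`: nn_tt for `Function.update s a 0` and `od a u`; by (c) only U ∋ a contribute and
    ∏_{b ∈ U} (1 - update s a 0 b)² = ∏_{b ∈ U.erase a} (1 - s b)².
(f) `integral_tt_sq`: ‖x - y‖² = ‖x‖² - 2 Re (conj x y) + ‖y‖², tt (in ω') is linear with tt 1 = 1, so
    tt (fun ω' => ‖u ω - u ω'‖²) ω = ‖u ω‖² - 2 Re (conj (u ω) * (tt u) ω) + (tt ‖u‖²) ω; ∫ tt h = ∫ h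
    (induction, σ a measure preserving); and Re ∫ conj u * tt u = ∑_U (∏_{b ∈ U} (1 - s b)) nn (pr l U u) by
    induction on l for all u: ∫ conj (u₊ + u₋) (w₊ + (1 - s) w₋) = ∫ conj u₊ w₊ + (1 - s) ∫ conj u₋ w₋
    (the integrals of odd functions conj u₊ w₋, conj u₋ w₊ vanish).  Finally nn u = ∑_U nn (pr l U u).
-/

open MeasureTheory Set Filter Topology Complex
open scoped Real ENNReal NNReal InnerProductSpace

namespace Pool.Agent.Lib.MP_562b47_mp.QP

variable {Ω ι : Type*} [MeasurableSpace Ω] {P : Measure Ω} [IsProbabilityMeasure P]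
  {σ : ι → Ω → Ω}

omit [IsProbabilityMeasure P] in
private theorem qp_bm_comp (hσ : Flips P σ) {u : Ω → ℂ} (hu : BM u) (a : ι) :
    BM (fun ω => u (σ a ω)) := by
  obtain ⟨h1, C, hC⟩ := hu
  exact ⟨h1.comp (hσ.mp a).measurable, C, fun ω => hC _⟩

private theorem qp_bm_add {u v : Ω → ℂ} (hu : BM u) (hv : BM v) : BM (fun ω => u ω + v ω) := by
  obtain ⟨h1, C, hC⟩ := hu
  obtain ⟨h2, C', hC'⟩ := hv
  exact ⟨h1.add h2, C + C', fun ω => (norm_add_le _ _).trans (add_le_add (hC ω) (hC' ω))⟩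

private theorem qp_bm_smul {u : Ω → ℂ} (hu : BM u) (c : ℝ) : BM (fun ω => c • u ω) := by
  obtain ⟨h1, C, hC⟩ := hu
  refine ⟨h1.const_smul c, |c| * C, fun ω => ?_⟩
  rw [norm_smul, Real.norm_eq_abs]
  exact mul_le_mul_of_nonneg_left (hC ω) (abs_nonneg c)

omit [MeasurableSpace Ω] in
private theorem qp_ev_eq (a : ι) (u : Ω → ℂ) :
    ev σ a u = fun ω => (1 / 2 : ℝ) • u ω + (1 / 2 : ℝ) • u (σ a ω) := by
  funext ω
  unfold ev
  simp only [Complex.real_smul]
  push_cast
  ring

omit [MeasurableSpace Ω] in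
private theorem qp_od_eq (a : ι) (u : Ω → ℂ) :
    od σ a u = fun ω => (1 / 2 : ℝ) • u ω + (-(1 / 2) : ℝ) • u (σ a ω) := by
  funext ω
  unfold od
  simp only [Complex.real_smul]
  push_cast
  ring

omit [IsProbabilityMeasure P] in
private theorem qp_bm_ev (hσ : Flips P σ) {u : Ω → ℂ} (hu : BM u) (a : ι) : BM (ev σ a u) := by
  rw [qp_ev_eq]
  exact qp_bm_add (qp_bm_smul hu _) (qp_bm_smul (qp_bm_comp hσ hu a) _)

omit [IsProbabilityMeasure P] in
private theorem qp_bm_od (hσ : Flips P σ) {u : Ω → ℂ} (hu : BM u) (a : ι) : BM (od σ a u) := by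
  rw [qp_od_eq]
  exact qp_bm_add (qp_bm_smul hu _) (qp_bm_smul (qp_bm_comp hσ hu a) _)

omit [IsProbabilityMeasure P] in
private theorem qp_bm_tt (hσ : Flips P σ) {u : Ω → ℂ} (hu : BM u) (s : ι → ℝ) (l : List ι) :
    BM (tt σ s l u) := by
  induction l with
  | nil => exact hu
  | cons a l ih =>
    exact qp_bm_add (qp_bm_smul ih _) (qp_bm_smul (qp_bm_comp hσ ih a) _)

theorem BM.ev (hσ : Flips P σ) {u : Ω → ℂ} (hu : BM u) (a : ι) : BM (ev σ a u) :=
  qp_bm_ev hσ hu a

theorem BM.od (hσ : Flips P σ) {u : Ω → ℂ} (hu : BM u) (a : ι) : BM (od σ a u) :=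
  qp_bm_od hσ hu a

theorem BM.tt (hσ : Flips P σ) {u : Ω → ℂ} (hu : BM u) (s : ι → ℝ) (l : List ι) :
    BM (tt σ s l u) := qp_bm_tt hσ hu s l

variable [DecidableEq ι]

omit [IsProbabilityMeasure P] in
private theorem qp_bm_pr (hσ : Flips P σ) (l : List ι) (U : Finset ι) :
    ∀ {u : Ω → ℂ}, BM u → BM (pr σ l U u) := by
  induction l with
  | nil => exact fun hu => hu
  | cons a l ih =>
    intro u hu
    show BM (pr σ l U (if a ∈ U then od σ a u else ev σ a u))
    split_ifs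
    · exact ih (qp_bm_od hσ hu a)
    · exact ih (qp_bm_ev hσ hu a)

theorem BM.pr (hσ : Flips P σ) {u : Ω → ℂ} (hu : BM u) (l : List ι) (U : Finset ι) :
    BM (pr σ l U u) := qp_bm_pr hσ l U hu

/-! integrals -/

private theorem qp_int {f : Ω → ℝ} (hf : Measurable f) {C : ℝ} (hC : ∀ ω, |f ω| ≤ C) :
    Integrable f P :=
  Integrable.of_bound hf.aestronglyMeasurable C (Eventually.of_forall fun ω => by
    rw [Real.norm_eq_abs]; exact hC ω)

private theorem qp_int_sq {u : Ω → ℂ} (hu : BM u) : Integrable (fun ω => ‖u ω‖ ^ 2) P := by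
  obtain ⟨h1, C, hC⟩ := hu
  refine qp_int (h1.norm.pow_const 2) (C := C ^ 2) fun ω => ?_
  rw [abs_of_nonneg (by positivity)]
  exact pow_le_pow_left₀ (norm_nonneg _) (hC ω) 2

omit [IsProbabilityMeasure P] [DecidableEq ι] in
private theorem qp_integral_comp (hσ : Flips P σ) (a : ι) {f : Ω → ℝ} (hf : Measurable f) :
    ∫ ω, f (σ a ω) ∂P = ∫ ω, f ω ∂P := by
  have h1 := integral_map (μ := P) (hσ.mp a).measurable.aemeasurable
    (hf.aestronglyMeasurable (μ := Measure.map (σ a) P))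
  rw [(hσ.mp a).map_eq] at h1
  exact h1.symm

omit [DecidableEq ι] in
private theorem qp_nn_split (hσ : Flips P σ) {u : Ω → ℂ} (hu : BM u) (a : ι) :
    nn P (ev σ a u) + nn P (od σ a u) = nn P u := by
  have h1 : nn P (ev σ a u) + nn P (od σ a u) =
      ∫ ω, (1 / 2 : ℝ) * (‖u ω‖ ^ 2 + ‖u (σ a ω)‖ ^ 2) ∂P := by
    unfold nn
    rw [← integral_add (qp_int_sq (qp_bm_ev hσ hu a)) (qp_int_sq (qp_bm_od hσ hu a))]
    refine integral_congr_ae (Eventually.of_forall fun ω => ?_)
    simp only [ev, od]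
    rw [norm_div, norm_div]
    have h2 := parallelogram_law_with_norm ℂ (u ω) (u (σ a ω))
    have h3 : ‖(2 : ℂ)‖ = 2 := by norm_num
    rw [h3]
    nlinarith
  rw [h1, integral_const_mul, integral_add (qp_int_sq hu) (qp_int_sq (qp_bm_comp hσ hu a)),
    qp_integral_comp hσ a (f := fun ω => ‖u ω‖ ^ 2) (hu.1.norm.pow_const 2)]
  unfold nn
  ring

omit [MeasurableSpace Ω] in
private theorem qp_pr_congr (l : List ι) {U U' : Finset ι} (h : ∀ b ∈ l, (b ∈ U ↔ b ∈ U')) :
    ∀ u : Ω → ℂ, pr σ l U u = pr σ l U' u := by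
  induction l with
  | nil => intro u; rfl
  | cons a l ih =>
    intro u
    show pr σ l U (if a ∈ U then od σ a u else ev σ a u) =
      pr σ l U' (if a ∈ U' then od σ a u else ev σ a u)
    have h1 := h a (List.mem_cons_self)
    rw [ih fun b hb => h b (List.mem_cons_of_mem _ hb)]
    simp only [h1]

omit [IsProbabilityMeasure P] in
/-- the recursion -/
private theorem qp_rec {a : ι} {l : List ι} (hl : (a :: l).Nodup) (F : Finset ι → ℝ)
    (u : Ω → ℂ) :
    ∑ U ∈ (a :: l).toFinset.powerset, F U * nn P (pr σ (a :: l) U u) =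
      ∑ U ∈ l.toFinset.powerset, F U * nn P (pr σ l U (ev σ a u)) +
      ∑ U ∈ l.toFinset.powerset, F (insert a U) * nn P (pr σ l U (od σ a u)) := by
  have ha : a ∉ l.toFinset := by
    rw [List.mem_toFinset]
    exact (List.nodup_cons.1 hl).1
  rw [List.toFinset_cons, Finset.sum_powerset_insert ha]
  congr 1
  · refine Finset.sum_congr rfl fun U hU => ?_
    have h1 : a ∉ U := fun h => ha (Finset.mem_powerset.1 hU h)
    have h2 : pr σ (a :: l) U u = pr σ l U (ev σ a u) := by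
      show pr σ l U (if a ∈ U then od σ a u else ev σ a u) = _
      rw [if_neg h1]
    rw [h2]
  · refine Finset.sum_congr rfl fun U hU => ?_
    have h2 : pr σ (a :: l) (insert a U) u = pr σ l U (od σ a u) := by
      show pr σ l (insert a U) (if a ∈ insert a U then od σ a u else ev σ a u) = _
      rw [if_pos (Finset.mem_insert_self a U)]
      refine qp_pr_congr l (fun b hb => ?_) _
      rw [Finset.mem_insert]
      constructor
      · rintro (h | h)
        · exact absurd (List.mem_toFinset.2 hb) (h ▸ ha)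
        · exact h
      · exact Or.inr
    rw [h2]

theorem sum_nn_pr (hσ : Flips P σ) {l : List ι} (hl : l.Nodup) {u : Ω → ℂ} (hu : BM u) :
    ∑ U ∈ l.toFinset.powerset, nn P (pr σ l U u) = nn P u := by
  induction l generalizing u with
  | nil =>
    simp [pr]
  | cons a l ih =>
    have h1 := qp_rec (P := P) (σ := σ) hl (fun _ => 1) u
    simp only [one_mul] at h1
    have hl' := (List.nodup_cons.1 hl).2
    rw [h1, ih hl' (qp_bm_ev hσ hu a), ih hl' (qp_bm_od hσ hu a), qp_nn_split hσ hu a]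

/-! commutation -/

omit [IsProbabilityMeasure P] [DecidableEq ι] in
private theorem qp_ev_od (hσ : Flips P σ) (a b : ι) (u : Ω → ℂ) :
    ev σ a (od σ b u) = od σ b (ev σ a u) := by
  funext ω
  simp only [ev, od]
  rw [hσ.comm a b]
  ring

omit [IsProbabilityMeasure P] [DecidableEq ι] in
private theorem qp_od_od (hσ : Flips P σ) (a b : ι) (u : Ω → ℂ) :
    od σ a (od σ b u) = od σ b (od σ a u) := by
  funext ω
  simp only [od]
  rw [hσ.comm a b]
  ring

omit [IsProbabilityMeasure P] [DecidableEq ι] in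
private theorem qp_ev_od_self (hσ : Flips P σ) (a : ι) (u : Ω → ℂ) :
    ev σ a (od σ a u) = fun _ => 0 := by
  funext ω
  simp only [ev, od]
  rw [hσ.inv a]
  ring

omit [IsProbabilityMeasure P] [DecidableEq ι] in
private theorem qp_od_od_self (hσ : Flips P σ) (a : ι) (u : Ω → ℂ) :
    od σ a (od σ a u) = od σ a u := by
  funext ω
  simp only [od]
  rw [hσ.inv a]
  ring

omit [MeasurableSpace Ω] in
private theorem qp_pr_zero (l : List ι) (U : Finset ι) :
    pr σ l U (fun _ : Ω => (0 : ℂ)) = fun _ => 0 := by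
  induction l with
  | nil => rfl
  | cons a l ih =>
    show pr σ l U (if a ∈ U then od σ a _ else ev σ a _) = _
    have h1 : (if a ∈ U then od σ a (fun _ : Ω => (0 : ℂ)) else ev σ a (fun _ : Ω => (0 : ℂ))) =
        fun _ => 0 := by
      split_ifs <;> (funext ω; simp [od, ev])
    rw [h1, ih]

omit [IsProbabilityMeasure P] in
/-- only the sets with `b` contribute to the odd part -/
private theorem qp_odd (hσ : Flips P σ) {l : List ι} (hl : l.Nodup) {b : ι} (hb : b ∈ l) :
    ∀ (F : Finset ι → ℝ) (u : Ω → ℂ),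
    ∑ U ∈ l.toFinset.powerset, F U * nn P (pr σ l U (od σ b u)) =
      ∑ U ∈ l.toFinset.powerset, (if b ∈ U then F U else 0) * nn P (pr σ l U u) := by
  induction l with
  | nil => exact absurd hb (List.not_mem_nil)
  | cons a l ih =>
    intro F u
    have hl' := (List.nodup_cons.1 hl).2
    have ha : a ∉ l.toFinset := by
      rw [List.mem_toFinset]
      exact (List.nodup_cons.1 hl).1
    rw [qp_rec hl, qp_rec hl]
    by_cases hab : b = a
    · subst hab
      congr 1
      · refine Finset.sum_congr rfl fun U hU => ?_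
        have h1 : b ∉ U := fun h => ha (Finset.mem_powerset.1 hU h)
        rw [if_neg h1, qp_ev_od_self hσ, qp_pr_zero]
        have h2 : nn P (fun _ : Ω => (0 : ℂ)) = 0 := by simp [nn]
        rw [h2, mul_zero, zero_mul]
      · refine Finset.sum_congr rfl fun U hU => ?_
        rw [if_pos (Finset.mem_insert_self b U), qp_od_od_self hσ]
    · have hb' : b ∈ l := by
        rcases List.mem_cons.1 hb with h | h
        · exact absurd h hab
        · exact h
      rw [qp_ev_od hσ, qp_od_od hσ, ih hl' hb', ih hl' hb']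
      congr 1
      refine Finset.sum_congr rfl fun U _ => ?_
      have h1 : (b ∈ insert a U) ↔ b ∈ U := by
        rw [Finset.mem_insert]
        exact ⟨fun h => h.resolve_left hab, Or.inr⟩
      simp only [h1]

theorem sum_nn_pr_mem (hσ : Flips P σ) {l : List ι} (hl : l.Nodup) {u : Ω → ℂ} (hu : BM u)
    {b : ι} (hb : b ∈ l) :
    ∑ U ∈ l.toFinset.powerset.filter (fun U => b ∈ U), nn P (pr σ l U u) = nn P (od σ b u) := by
  rw [← sum_nn_pr hσ hl (qp_bm_od hσ hu b)]
  have h1 := qp_odd (P := P) hσ hl hb (fun _ => 1) u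
  simp only [one_mul] at h1
  rw [h1, Finset.sum_filter]
  refine Finset.sum_congr rfl fun U _ => ?_
  split_ifs <;> simp

/-! the noise operator -/

omit [IsProbabilityMeasure P] [DecidableEq ι] in
private theorem qp_tt_ev (hσ : Flips P σ) (s : ι → ℝ) (a : ι) (u : Ω → ℂ) (l : List ι) :
    tt σ s l (ev σ a u) = ev σ a (tt σ s l u) := by
  induction l with
  | nil => rfl
  | cons b l ih =>
    funext ω
    show (1 - s b / 2) • tt σ s l (ev σ a u) ω + (s b / 2) • tt σ s l (ev σ a u) (σ b ω) = _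
    rw [ih]
    simp only [ev, tt, Complex.real_smul]
    rw [hσ.comm b a]
    ring

omit [IsProbabilityMeasure P] [DecidableEq ι] in
private theorem qp_tt_od (hσ : Flips P σ) (s : ι → ℝ) (a : ι) (u : Ω → ℂ) (l : List ι) :
    tt σ s l (od σ a u) = od σ a (tt σ s l u) := by
  induction l with
  | nil => rfl
  | cons b l ih =>
    funext ω
    show (1 - s b / 2) • tt σ s l (od σ a u) ω + (s b / 2) • tt σ s l (od σ a u) (σ b ω) = _
    rw [ih]
    simp only [od, tt, Complex.real_smul]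
    rw [hσ.comm b a]
    ring

omit [IsProbabilityMeasure P] [DecidableEq ι] in
private theorem qp_ev_tt_cons (hσ : Flips P σ) (s : ι → ℝ) (a : ι) (u : Ω → ℂ) (l : List ι) :
    ev σ a (tt σ s (a :: l) u) = tt σ s l (ev σ a u) := by
  rw [qp_tt_ev hσ]
  funext ω
  simp only [ev, tt, Complex.real_smul]
  rw [hσ.inv a]
  push_cast
  ring

omit [IsProbabilityMeasure P] [DecidableEq ι] in
private theorem qp_od_tt_cons (hσ : Flips P σ) (s : ι → ℝ) (a : ι) (u : Ω → ℂ) (l : List ι) :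
    od σ a (tt σ s (a :: l) u) = fun ω => (1 - s a) • tt σ s l (od σ a u) ω := by
  rw [qp_tt_od hσ]
  funext ω
  simp only [od, tt, Complex.real_smul]
  rw [hσ.inv a]
  push_cast
  ring

omit [IsProbabilityMeasure P] in
private theorem qp_nn_smul (c : ℝ) (u : Ω → ℂ) : nn P (fun ω => c • u ω) = c ^ 2 * nn P u := by
  unfold nn
  rw [← integral_const_mul]
  refine integral_congr_ae (Eventually.of_forall fun ω => ?_)
  show ‖c • u ω‖ ^ 2 = c ^ 2 * ‖u ω‖ ^ 2
  rw [norm_smul, mul_pow, Real.norm_eq_abs, sq_abs]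

theorem nn_tt (hσ : Flips P σ) {l : List ι} (hl : l.Nodup) {u : Ω → ℂ} (hu : BM u) (s : ι → ℝ) :
    nn P (tt σ s l u)
      = ∑ U ∈ l.toFinset.powerset, (∏ b ∈ U, (1 - s b) ^ 2) * nn P (pr σ l U u) := by
  induction l generalizing u with
  | nil =>
    simp [pr, tt]
  | cons a l ih =>
    have hl' := (List.nodup_cons.1 hl).2
    have ha : a ∉ l.toFinset := by
      rw [List.mem_toFinset]
      exact (List.nodup_cons.1 hl).1
    rw [qp_rec hl, ← qp_nn_split hσ (qp_bm_tt hσ hu s (a :: l)) a, qp_ev_tt_cons hσ,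
      qp_od_tt_cons hσ, qp_nn_smul, ih hl' (qp_bm_ev hσ hu a), ih hl' (qp_bm_od hσ hu a),
      Finset.mul_sum]
    congr 1
    refine Finset.sum_congr rfl fun U hU => ?_
    have h1 : a ∉ U := fun h => ha (Finset.mem_powerset.1 hU h)
    rw [Finset.prod_insert h1, mul_assoc]

theorem nn_tt_od (hσ : Flips P σ) {l : List ι} (hl : l.Nodup) {u : Ω → ℂ} (hu : BM u)
    (s : ι → ℝ) {a : ι} (ha : a ∈ l) :
    nn P (tt σ (Function.update s a 0) l (od σ a u))
      = ∑ U ∈ l.toFinset.powerset.filter (fun U => a ∈ U),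
          (∏ b ∈ U.erase a, (1 - s b) ^ 2) * nn P (pr σ l U u) := by
  rw [nn_tt hσ hl (qp_bm_od hσ hu a), qp_odd hσ hl ha, Finset.sum_filter]
  refine Finset.sum_congr rfl fun U _ => ?_
  split_ifs with h
  · congr 1
    rw [← Finset.mul_prod_erase U _ h, Function.update_self, sub_zero, one_pow, one_mul]
    refine Finset.prod_congr rfl fun b hb => ?_
    rw [Function.update_of_ne (Finset.ne_of_mem_erase hb)]
  · rw [zero_mul]

omit [MeasurableSpace Ω] [DecidableEq ι] in
private theorem qp_tt_expand (s : ι → ℝ) (x : ℂ) (u : Ω → ℂ) (l : List ι) :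
    ∀ ω, tt σ s l (fun ω' => ‖x - u ω'‖ ^ 2) ω =
      ‖x‖ ^ 2 - 2 * ((starRingEnd ℂ) x * tt σ s l u ω).re + tt σ s l (fun ω' => ‖u ω'‖ ^ 2) ω := by
  induction l with
  | nil =>
    intro ω
    show ‖x - u ω‖ ^ 2 = ‖x‖ ^ 2 - 2 * ((starRingEnd ℂ) x * u ω).re + ‖u ω‖ ^ 2
    rw [← Complex.normSq_eq_norm_sq, ← Complex.normSq_eq_norm_sq, ← Complex.normSq_eq_norm_sq]
    simp only [Complex.normSq_apply, Complex.sub_re, Complex.sub_im, Complex.mul_re,
      Complex.conj_re, Complex.conj_im]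
    ring
  | cons a l ih =>
    intro ω
    have h1 : tt σ s (a :: l) (fun ω' => ‖x - u ω'‖ ^ 2) ω =
        (1 - s a / 2) * tt σ s l (fun ω' => ‖x - u ω'‖ ^ 2) ω +
          (s a / 2) * tt σ s l (fun ω' => ‖x - u ω'‖ ^ 2) (σ a ω) := rfl
    have h2 : tt σ s (a :: l) (fun ω' => ‖u ω'‖ ^ 2) ω =
        (1 - s a / 2) * tt σ s l (fun ω' => ‖u ω'‖ ^ 2) ω +
          (s a / 2) * tt σ s l (fun ω' => ‖u ω'‖ ^ 2) (σ a ω) := rfl
    have h3 : ((starRingEnd ℂ) x * tt σ s (a :: l) u ω).re =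
        (1 - s a / 2) * ((starRingEnd ℂ) x * tt σ s l u ω).re +
          (s a / 2) * ((starRingEnd ℂ) x * tt σ s l u (σ a ω)).re := by
      have h4 : tt σ s (a :: l) u ω = ((1 - s a / 2 : ℝ) : ℂ) * tt σ s l u ω +
          ((s a / 2 : ℝ) : ℂ) * tt σ s l u (σ a ω) := by
        show (1 - s a / 2) • tt σ s l u ω + (s a / 2) • tt σ s l u (σ a ω) = _
        rw [Complex.real_smul, Complex.real_smul]
      rw [h4, mul_add, Complex.add_re, mul_left_comm, Complex.re_ofReal_mul, mul_left_comm,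
        Complex.re_ofReal_mul]
    rw [h1, h2, h3, ih, ih]
    ring

/-- bounded measurable real functions -/
private def qp_RM (f : Ω → ℝ) : Prop := Measurable f ∧ ∃ C : ℝ, ∀ ω, |f ω| ≤ C

omit [IsProbabilityMeasure P] [DecidableEq ι] in
private theorem qp_rm_tt (hσ : Flips P σ) {f : Ω → ℝ} (hf : qp_RM f) (s : ι → ℝ) (l : List ι) :
    qp_RM (tt σ s l f) := by
  induction l with
  | nil => exact hf
  | cons a l ih =>
    obtain ⟨h1, C, hC⟩ := ih
    refine ⟨(h1.const_smul (1 - s a / 2)).add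
      ((h1.comp (hσ.mp a).measurable).const_smul (s a / 2)),
      |1 - s a / 2| * C + |s a / 2| * C, fun ω => ?_⟩
    show |(1 - s a / 2) * tt σ s l f ω + (s a / 2) * tt σ s l f (σ a ω)| ≤ _
    refine (abs_add_le _ _).trans (add_le_add ?_ ?_)
    · rw [abs_mul]
      exact mul_le_mul_of_nonneg_left (hC _) (abs_nonneg _)
    · rw [abs_mul]
      exact mul_le_mul_of_nonneg_left (hC _) (abs_nonneg _)

omit [DecidableEq ι] in
private theorem qp_integral_tt (hσ : Flips P σ) {f : Ω → ℝ} (hf : qp_RM f) (s : ι → ℝ)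
    (l : List ι) : ∫ ω, tt σ s l f ω ∂P = ∫ ω, f ω ∂P := by
  induction l with
  | nil => rfl
  | cons a l ih =>
    obtain ⟨h1, C, hC⟩ := qp_rm_tt hσ hf s l
    have h2 : ∫ ω, tt σ s (a :: l) f ω ∂P = ∫ ω, ((1 - s a / 2) * tt σ s l f ω +
        (s a / 2) * tt σ s l f (σ a ω)) ∂P := rfl
    have i1 : Integrable (fun ω => (1 - s a / 2) * tt σ s l f ω) P := (qp_int h1 hC).const_mul _
    have i2 : Integrable (fun ω => (s a / 2) * tt σ s l f (σ a ω)) P :=
      (qp_int (h1.comp (hσ.mp a).measurable) (fun ω => hC _)).const_mul _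
    rw [h2, integral_add i1 i2, integral_const_mul, integral_const_mul,
      qp_integral_comp hσ a h1, ih]
    ring

/-- the real part of the inner product -/
private noncomputable def qp_B (P : Measure Ω) (u w : Ω → ℂ) : ℝ :=
  ∫ ω, ((starRingEnd ℂ) (u ω) * w ω).re ∂P

private theorem qp_int_re {u w : Ω → ℂ} (hu : BM u) (hw : BM w) :
    Integrable (fun ω => ((starRingEnd ℂ) (u ω) * w ω).re) P := by
  obtain ⟨h1, C, hC⟩ := hu
  obtain ⟨h2, C', hC'⟩ := hw
  refine qp_int (C := C * C') ?_ fun ω => ?_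
  · exact Complex.measurable_re.comp ((Complex.continuous_conj.measurable.comp h1).mul h2)
  · refine (Complex.abs_re_le_norm _).trans ?_
    rw [norm_mul, Complex.norm_conj]
    exact mul_le_mul (hC ω) (hC' ω) (norm_nonneg _) ((norm_nonneg _).trans (hC ω))

private theorem qp_B_polar {u w : Ω → ℂ} (hu : BM u) (hw : BM w) :
    qp_B P u w = nn P (fun ω => (1 / 2 : ℝ) • (u ω + w ω)) -
      nn P (fun ω => (1 / 2 : ℝ) • (u ω + (-1 : ℝ) • w ω)) := by
  unfold nn
  rw [← integral_sub (qp_int_sq (qp_bm_smul (qp_bm_add hu hw) _))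
    (qp_int_sq (qp_bm_smul (qp_bm_add hu (qp_bm_smul hw _)) _))]
  unfold qp_B
  refine integral_congr_ae (Eventually.of_forall fun ω => ?_)
  simp only [← Complex.normSq_eq_norm_sq, Complex.normSq_apply, Complex.real_smul,
    Complex.mul_re, Complex.mul_im, Complex.add_re, Complex.add_im, Complex.ofReal_re,
    Complex.ofReal_im, Complex.conj_re, Complex.conj_im]
  ring

omit [DecidableEq ι] in
private theorem qp_B_split (hσ : Flips P σ) {u w : Ω → ℂ} (hu : BM u) (hw : BM w) (a : ι) :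
    qp_B P u w = qp_B P (ev σ a u) (ev σ a w) + qp_B P (od σ a u) (od σ a w) := by
  rw [qp_B_polar hu hw, qp_B_polar (qp_bm_ev hσ hu a) (qp_bm_ev hσ hw a),
    qp_B_polar (qp_bm_od hσ hu a) (qp_bm_od hσ hw a),
    ← qp_nn_split hσ (qp_bm_smul (qp_bm_add hu hw) (1 / 2)) a,
    ← qp_nn_split hσ (qp_bm_smul (qp_bm_add hu (qp_bm_smul hw (-1))) (1 / 2)) a]
  have e1 : ∀ c : ℝ, ev σ a (fun ω => (1 / 2 : ℝ) • (u ω + c • w ω)) =
      fun ω => (1 / 2 : ℝ) • (ev σ a u ω + c • ev σ a w ω) := by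
    intro c
    funext ω
    simp only [ev, Complex.real_smul]
    ring
  have e2 : ∀ c : ℝ, od σ a (fun ω => (1 / 2 : ℝ) • (u ω + c • w ω)) =
      fun ω => (1 / 2 : ℝ) • (od σ a u ω + c • od σ a w ω) := by
    intro c
    funext ω
    simp only [od, Complex.real_smul]
    ring
  have e3 := e1 1
  have e4 := e2 1
  simp only [one_smul] at e3 e4
  rw [e1, e2, e3, e4]
  ring

private theorem qp_B_tt (hσ : Flips P σ) {l : List ι} (hl : l.Nodup) (s : ι → ℝ) :
    ∀ {u : Ω → ℂ}, BM u → qp_B P u (tt σ s l u) =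
      ∑ U ∈ l.toFinset.powerset, (∏ b ∈ U, (1 - s b)) * nn P (pr σ l U u) := by
  induction l with
  | nil =>
    intro u hu
    simp only [List.toFinset_nil, Finset.powerset_empty, Finset.sum_singleton, Finset.prod_empty,
      one_mul, pr, tt, qp_B, nn]
    refine integral_congr_ae (Eventually.of_forall fun ω => ?_)
    simp only [← Complex.normSq_eq_norm_sq, Complex.normSq_apply, Complex.mul_re,
      Complex.conj_re, Complex.conj_im]
    ring
  | cons a l ih =>
    intro u hu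
    have hl' := (List.nodup_cons.1 hl).2
    have ha : a ∉ l.toFinset := by
      rw [List.mem_toFinset]
      exact (List.nodup_cons.1 hl).1
    rw [qp_rec hl, qp_B_split hσ hu (qp_bm_tt hσ hu s (a :: l)) a, qp_ev_tt_cons hσ,
      qp_od_tt_cons hσ, ih hl' (qp_bm_ev hσ hu a)]
    have h1 : qp_B P (od σ a u) (fun ω => (1 - s a) • tt σ s l (od σ a u) ω) =
        (1 - s a) * qp_B P (od σ a u) (tt σ s l (od σ a u)) := by
      unfold qp_B
      rw [← integral_const_mul]
      refine integral_congr_ae (Eventually.of_forall fun ω => ?_)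
      show ((starRingEnd ℂ) (od σ a u ω) * ((1 - s a) • tt σ s l (od σ a u) ω)).re =
        (1 - s a) * ((starRingEnd ℂ) (od σ a u ω) * tt σ s l (od σ a u) ω).re
      rw [Complex.real_smul, mul_left_comm, Complex.re_ofReal_mul]
    rw [h1, ih hl' (qp_bm_od hσ hu a), Finset.mul_sum]
    congr 1
    refine Finset.sum_congr rfl fun U hU => ?_
    have h2 : a ∉ U := fun h => ha (Finset.mem_powerset.1 hU h)
    rw [Finset.prod_insert h2, mul_assoc]

theorem integral_tt_sq (hσ : Flips P σ) {l : List ι} (hl : l.Nodup) {u : Ω → ℂ} (hu : BM u)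
    (s : ι → ℝ) :
    ∫ ω, tt σ s l (fun ω' => ‖u ω - u ω'‖ ^ 2) ω ∂P
      = 2 * ∑ U ∈ l.toFinset.powerset, (1 - ∏ b ∈ U, (1 - s b)) * nn P (pr σ l U u) := by
  have hR : qp_RM (fun ω => ‖u ω‖ ^ 2) := by
    obtain ⟨h1, C, hC⟩ := hu
    refine ⟨h1.norm.pow_const 2, C ^ 2, fun ω => ?_⟩
    rw [abs_of_nonneg (by positivity)]
    exact pow_le_pow_left₀ (norm_nonneg _) (hC ω) 2
  obtain ⟨h1, C, hC⟩ := qp_rm_tt hσ hR s l
  have e1 : ∫ ω, tt σ s l (fun ω' => ‖u ω - u ω'‖ ^ 2) ω ∂P =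
      nn P u - 2 * qp_B P u (tt σ s l u) + nn P u := by
    have e2 : ∀ ω, tt σ s l (fun ω' => ‖u ω - u ω'‖ ^ 2) ω =
        (‖u ω‖ ^ 2 - 2 * ((starRingEnd ℂ) (u ω) * tt σ s l u ω).re) +
          tt σ s l (fun ω' => ‖u ω'‖ ^ 2) ω := fun ω => qp_tt_expand s (u ω) u l ω
    have i1 : Integrable (fun ω => ‖u ω‖ ^ 2) P := qp_int_sq hu
    have i2 : Integrable (fun ω => 2 * ((starRingEnd ℂ) (u ω) * tt σ s l u ω).re) P :=
      (qp_int_re hu (qp_bm_tt hσ hu s l)).const_mul 2
    have i3 : Integrable (fun ω => ‖u ω‖ ^ 2 - 2 * ((starRingEnd ℂ) (u ω) * tt σ s l u ω).re) P :=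
      i1.sub i2
    have i4 : Integrable (fun ω => tt σ s l (fun ω' => ‖u ω'‖ ^ 2) ω) P := qp_int h1 hC
    rw [integral_congr_ae (Eventually.of_forall e2), integral_add i3 i4, integral_sub i1 i2,
      integral_const_mul, qp_integral_tt hσ hR]
    rfl
  rw [e1, qp_B_tt hσ hl s hu, ← sum_nn_pr hσ hl hu]
  simp only [sub_mul, one_mul, Finset.sum_sub_distrib]
  ring

end Pool.Agent.Lib.MP_562b47_mp.QP
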