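import Mathlib
import Pool.Agent.Lib.MP_562b47_mp.QP.Walsh

/-!
QuantumPolya (MP_562b47_mp), module Noise: inequalities for the noise operators.
-/

open MeasureTheory Set Filter Topology Complex
open scoped Real ENNReal NNReal InnerProductSpace

namespace Pool.Agent.Lib.MP_562b47_mp.QP

variable {Ω ι : Type*} {σ : ι → Ω → Ω}

section algebra

variable {V : Type*} [AddCommGroup V] [Module ℝ V]

private theorem qp_tt_cons (s : ι → ℝ) (a : ι) (l : List ι) (h : Ω → V) (ω : Ω) :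
    tt σ s (a :: l) h ω = (1 - s a / 2) • tt σ s l h ω + (s a / 2) • tt σ s l h (σ a ω) := rfl

theorem tt_add (s : ι → ℝ) (l : List ι) (h h' : Ω → V) (ω : Ω) :
    tt σ s l (fun ω => h ω + h' ω) ω = tt σ s l h ω + tt σ s l h' ω := by
  induction l generalizing ω with
  | nil => rfl
  | cons a l ih =>
    rw [qp_tt_cons, qp_tt_cons, qp_tt_cons, ih, ih, smul_add, smul_add]
    abel

theorem tt_smul (s : ι → ℝ) (l : List ι) (r : ℝ) (h : Ω → V) (ω : Ω) :
    tt σ s l (fun ω => r • h ω) ω = r • tt σ s l h ω := by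
  induction l generalizing ω with
  | nil => rfl
  | cons a l ih =>
    rw [qp_tt_cons, qp_tt_cons, ih, ih, smul_add, smul_comm _ r, smul_comm _ r]

theorem tt_const (s : ι → ℝ) (l : List ι) (v : V) (ω : Ω) : tt σ s l (fun _ => v) ω = v := by
  induction l generalizing ω with
  | nil => rfl
  | cons a l ih =>
    rw [qp_tt_cons, ih, ih, ← add_smul, sub_add_cancel, one_smul]

theorem tt_comp (hcomm : ∀ a b ω, σ a (σ b ω) = σ b (σ a ω)) (s : ι → ℝ) (l : List ι) (a : ι)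
    (h : Ω → V) (ω : Ω) : tt σ s l (fun ω => h (σ a ω)) ω = tt σ s l h (σ a ω) := by
  induction l generalizing ω with
  | nil => rfl
  | cons b l ih =>
    rw [qp_tt_cons, qp_tt_cons, ih, ih, hcomm a b]

end algebra

theorem tt_mono_on {O : Set Ω} {s : ι → ℝ} (h0 : ∀ b, 0 ≤ s b) (h1 : ∀ b, s b ≤ 1) {l : List ι}
    (hO : ∀ b ∈ l, s b ≠ 0 → ∀ ω ∈ O, σ b ω ∈ O) {h h' : Ω → ℝ} (hh : ∀ ω ∈ O, h ω ≤ h' ω)
    {ω : Ω} (hω : ω ∈ O) : tt σ s l h ω ≤ tt σ s l h' ω := by
  induction l generalizing ω with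
  | nil => exact hh ω hω
  | cons a l ih =>
    rw [qp_tt_cons, qp_tt_cons, smul_eq_mul, smul_eq_mul, smul_eq_mul, smul_eq_mul]
    have hO' : ∀ b ∈ l, s b ≠ 0 → ∀ ω ∈ O, σ b ω ∈ O := fun b hb =>
      hO b (List.mem_cons_of_mem _ hb)
    have e1 := ih hO' hω
    have ha := h1 a
    have e2 : (1 - s a / 2) * tt σ s l h ω ≤ (1 - s a / 2) * tt σ s l h' ω :=
      mul_le_mul_of_nonneg_left e1 (by linarith)
    by_cases hs : s a = 0
    · rw [hs] at e2 ⊢
      simpa using e2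
    · have hω' : σ a ω ∈ O := hO a List.mem_cons_self hs ω hω
      have e3 := ih hO' hω'
      have h0a := h0 a
      have e4 : (s a / 2) * tt σ s l h (σ a ω) ≤ (s a / 2) * tt σ s l h' (σ a ω) :=
        mul_le_mul_of_nonneg_left e3 (by linarith)
      linarith

theorem tt_nonneg {s : ι → ℝ} (h0 : ∀ b, 0 ≤ s b) (h1 : ∀ b, s b ≤ 1) (l : List ι) {h : Ω → ℝ}
    (hh : ∀ ω, 0 ≤ h ω) (ω : Ω) : 0 ≤ tt σ s l h ω := by
  have := tt_mono_on (σ := σ) (O := Set.univ) h0 h1 (l := l) (fun _ _ _ _ _ => Set.mem_univ _)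
    (h := fun _ => (0 : ℝ)) (h' := h) (fun ω _ => hh ω) (Set.mem_univ ω)
  rwa [tt_const] at this

private theorem qp_tt_congr {s s' : ι → ℝ} {l : List ι} (hs : ∀ b ∈ l, s b = s' b) (h : Ω → ℝ)
    (ω : Ω) : tt σ s l h ω = tt σ s' l h ω := by
  induction l generalizing ω with
  | nil => rfl
  | cons a l ih =>
    have ih' := ih (fun b hb => hs b (List.mem_cons_of_mem _ hb))
    rw [qp_tt_cons, qp_tt_cons, ih', ih', hs a List.mem_cons_self]

theorem tt_update_le [DecidableEq ι] {s : ι → ℝ} (h0 : ∀ b, 0 ≤ s b) (h1 : ∀ b, s b ≤ 1)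
    {l : List ι} (hl : l.Nodup) {a : ι} (ha : a ∈ l) {h : Ω → ℝ} (hh : ∀ ω, 0 ≤ h ω) (ω : Ω) :
    tt σ (Function.update s a 0) l h ω ≤ 2 * tt σ s l h ω := by
  induction l generalizing ω with
  | nil => exact absurd ha (by simp)
  | cons b l ih =>
    rw [List.nodup_cons] at hl
    rw [qp_tt_cons, qp_tt_cons, smul_eq_mul, smul_eq_mul, smul_eq_mul, smul_eq_mul]
    have hb0 := h0 b
    have hb1 := h1 b
    by_cases hab : b = a
    · subst hab
      have e1 : tt σ (Function.update s b 0) l h ω = tt σ s l h ω :=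
        qp_tt_congr (fun c hc => Function.update_of_ne (by
          rintro rfl
          exact hl.1 hc) _ _) h ω
      rw [Function.update_self, e1]
      have e2 := tt_nonneg (σ := σ) h0 h1 l hh ω
      have e3 := tt_nonneg (σ := σ) h0 h1 l hh (σ b ω)
      have e4 : 0 ≤ (1 - s b) * tt σ s l h ω := mul_nonneg (by linarith) e2
      have e5 : 0 ≤ s b * tt σ s l h (σ b ω) := mul_nonneg hb0 e3
      nlinarith
    · have hal : a ∈ l := by
        rcases List.mem_cons.mp ha with h2 | h2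
        · exact absurd h2.symm hab
        · exact h2
      rw [Function.update_of_ne hab]
      have e1 := ih hl.2 hal ω
      have e2 := ih hl.2 hal (σ b ω)
      have e3 := mul_le_mul_of_nonneg_left e1 (show 0 ≤ 1 - s b / 2 by linarith)
      have e4 := mul_le_mul_of_nonneg_left e2 (show 0 ≤ s b / 2 by linarith)
      linarith

private theorem qp_norm_sub {s : ι → ℝ} (h0 : ∀ b, 0 ≤ s b) (h1 : ∀ b, s b ≤ 1) (l : List ι)
    (h : Ω → ℂ) (v : ℂ) (ω : Ω) :
    ‖v - tt σ s l h ω‖ ≤ tt σ s l (fun ω' => ‖v - h ω'‖) ω := by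
  induction l generalizing ω with
  | nil => exact le_refl _
  | cons b l ih =>
    have hb0 := h0 b
    have hb1 := h1 b
    rw [qp_tt_cons, qp_tt_cons, smul_eq_mul, smul_eq_mul]
    have e0 : v - ((1 - s b / 2) • tt σ s l h ω + (s b / 2) • tt σ s l h (σ b ω)) =
        (1 - s b / 2) • (v - tt σ s l h ω) + (s b / 2) • (v - tt σ s l h (σ b ω)) := by
      have e1 : v = (1 - s b / 2) • v + (s b / 2) • v := by
        rw [← add_smul, sub_add_cancel, one_smul]
      rw [smul_sub, smul_sub]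
      nth_rewrite 1 [e1]
      abel
    rw [e0]
    refine (norm_add_le _ _).trans ?_
    rw [norm_smul, norm_smul, Real.norm_of_nonneg (show 0 ≤ 1 - s b / 2 by linarith),
      Real.norm_of_nonneg (show 0 ≤ s b / 2 by linarith)]
    have e3 := mul_le_mul_of_nonneg_left (ih ω) (show 0 ≤ 1 - s b / 2 by linarith)
    have e4 := mul_le_mul_of_nonneg_left (ih (σ b ω)) (show 0 ≤ s b / 2 by linarith)
    linarith

theorem norm_sub_tt_le {s : ι → ℝ} (h0 : ∀ b, 0 ≤ s b) (h1 : ∀ b, s b ≤ 1) (l : List ι)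
    (h : Ω → ℂ) (ω : Ω) : ‖h ω - tt σ s l h ω‖ ≤ tt σ s l (fun ω' => ‖h ω - h ω'‖) ω :=
  qp_norm_sub h0 h1 l h (h ω) ω

variable [MeasurableSpace Ω] {P : Measure Ω} [IsProbabilityMeasure P]

private theorem qp_meas (hσ : Flips P σ) (s : ι → ℝ) (l : List ι) {k : Ω → Ω → ℝ}
    (hk : Measurable (Function.uncurry k)) {g : Ω → Ω} (hg : Measurable g) :
    Measurable fun ω => tt σ s l (k ω) (g ω) := by
  induction l generalizing g with
  | nil => exact hk.comp (measurable_id.prodMk hg)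
  | cons a l ih =>
    have e1 := ih hg
    have e2 := ih ((hσ.mp a).measurable.comp hg)
    exact (e1.const_smul (1 - s a / 2)).add (e2.const_smul (s a / 2))

/-- `tt` in the second variable, evaluated on the diagonal, is measurable and bounded -/
theorem measurable_tt2 (hσ : Flips P σ) (s : ι → ℝ) (l : List ι) {k : Ω → Ω → ℝ}
    (hk : Measurable (Function.uncurry k)) : Measurable fun ω => tt σ s l (k ω) ω :=
  qp_meas hσ s l hk measurable_id

theorem abs_tt_le {s : ι → ℝ} (h0 : ∀ b, 0 ≤ s b) (h1 : ∀ b, s b ≤ 1) (l : List ι) {h : Ω → ℝ}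
    {C : ℝ} (hC : ∀ ω, |h ω| ≤ C) (ω : Ω) : |tt σ s l h ω| ≤ C := by
  induction l generalizing ω with
  | nil => exact hC ω
  | cons b l ih =>
    have hb0 := h0 b
    have hb1 := h1 b
    rw [qp_tt_cons, smul_eq_mul, smul_eq_mul]
    refine (abs_add_le _ _).trans ?_
    rw [abs_mul, abs_mul, abs_of_nonneg (show 0 ≤ 1 - s b / 2 by linarith),
      abs_of_nonneg (show 0 ≤ s b / 2 by linarith)]
    have e3 := mul_le_mul_of_nonneg_left (ih ω) (show 0 ≤ 1 - s b / 2 by linarith)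
    have e4 := mul_le_mul_of_nonneg_left (ih (σ b ω)) (show 0 ≤ s b / 2 by linarith)
    linarith

private theorem qp_bdd (s : ι → ℝ) (l : List ι) {h : Ω → ℝ} {C : ℝ} (hC : ∀ ω, |h ω| ≤ C) :
    ∃ C', ∀ ω, |tt σ s l h ω| ≤ C' := by
  induction l with
  | nil => exact ⟨C, hC⟩
  | cons b l ih =>
    obtain ⟨D, hD⟩ := ih
    refine ⟨|1 - s b / 2| * D + |s b / 2| * D, fun ω => ?_⟩
    rw [qp_tt_cons, smul_eq_mul, smul_eq_mul]
    refine (abs_add_le _ _).trans ?_
    rw [abs_mul, abs_mul]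
    exact add_le_add (mul_le_mul_of_nonneg_left (hD _) (abs_nonneg _))
      (mul_le_mul_of_nonneg_left (hD _) (abs_nonneg _))

theorem integral_tt (hσ : Flips P σ) (s : ι → ℝ) (l : List ι) {h : Ω → ℝ} (hm : Measurable h)
    {C : ℝ} (hC : ∀ ω, |h ω| ≤ C) : ∫ ω, tt σ s l h ω ∂P = ∫ ω, h ω ∂P := by
  induction l with
  | nil => rfl
  | cons a l ih =>
    have hmeas : Measurable fun ω => tt σ s l h ω :=
      measurable_tt2 hσ s l (k := fun _ => h) (hm.comp measurable_snd)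
    obtain ⟨D, hD⟩ := qp_bdd (σ := σ) s l hC
    have hint : Integrable (fun ω => tt σ s l h ω) P :=
      Integrable.of_bound hmeas.aestronglyMeasurable D
        (Filter.Eventually.of_forall fun ω => by rw [Real.norm_eq_abs]; exact hD ω)
    have hmeas' : Measurable fun ω => tt σ s l h (σ a ω) := hmeas.comp (hσ.mp a).measurable
    have hint' : Integrable (fun ω => tt σ s l h (σ a ω)) P :=
      Integrable.of_bound hmeas'.aestronglyMeasurable D
        (Filter.Eventually.of_forall fun ω => by rw [Real.norm_eq_abs]; exact hD _)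
    have e1 : ∫ ω, tt σ s l h (σ a ω) ∂P = ∫ ω, tt σ s l h ω ∂P := by
      have e2 := integral_map (μ := P) (φ := σ a) (hσ.mp a).measurable.aemeasurable
        (f := fun ω => tt σ s l h ω) (by
          rw [(hσ.mp a).map_eq]
          exact hmeas.aestronglyMeasurable)
      rw [(hσ.mp a).map_eq] at e2
      exact e2.symm
    have e3 : ∫ ω, tt σ s (a :: l) h ω ∂P =
        ∫ ω, ((1 - s a / 2) * tt σ s l h ω + (s a / 2) * tt σ s l h (σ a ω)) ∂P := rfl
    rw [e3, integral_add (hint.const_mul _) (hint'.const_mul _), integral_const_mul,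
      integral_const_mul, e1, ih]
    ring

variable [DecidableEq ι]

private theorem qp_prod_le {s s' : ι → ℝ} (h1 : ∀ b, s' b ≤ s b) (h2 : ∀ b, s b ≤ 1)
    (U : Finset ι) : ∏ b ∈ U, (1 - s b) ≤ ∏ b ∈ U, (1 - s' b) :=
  Finset.prod_le_prod (fun b _ => by have := h2 b; linarith)
    (fun b _ => by have := h1 b; linarith)

private theorem qp_key {s s' : ι → ℝ} (h0 : ∀ b, 0 ≤ s' b)
    (h1 : ∀ b, s' b ≤ s b) (h2 : ∀ b, s b ≤ 1) (U : Finset ι) :
    ∑ a ∈ U, (s a - s' a) * ∏ b ∈ U.erase a, (1 - s b) ^ 2 ≤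
      (∏ b ∈ U, (1 - s' b)) - ∏ b ∈ U, (1 - s b) := by
  induction U using Finset.induction_on with
  | empty => simp
  | insert c U hc ih =>
    rw [Finset.sum_insert hc, Finset.prod_insert hc, Finset.prod_insert hc,
      Finset.erase_insert hc]
    have hsc0 := h0 c
    have hsc1 := h1 c
    have hsc2 := h2 c
    have e1 : ∑ a ∈ U, (s a - s' a) * ∏ b ∈ (insert c U).erase a, (1 - s b) ^ 2 =
        (1 - s c) ^ 2 * ∑ a ∈ U, (s a - s' a) * ∏ b ∈ U.erase a, (1 - s b) ^ 2 := by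
      rw [Finset.mul_sum]
      apply Finset.sum_congr rfl
      intro a ha
      have hca : c ≠ a := fun h => hc (h ▸ ha)
      rw [Finset.erase_insert_of_ne hca, Finset.prod_insert (by
        intro h
        exact hc (Finset.mem_of_mem_erase h))]
      ring
    rw [e1]
    have hS : 0 ≤ ∑ a ∈ U, (s a - s' a) * ∏ b ∈ U.erase a, (1 - s b) ^ 2 := by
      apply Finset.sum_nonneg
      intro a _
      have := h1 a
      exact mul_nonneg (by linarith) (Finset.prod_nonneg fun b _ => sq_nonneg _)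
    have e2 : (1 - s c) ^ 2 * ∑ a ∈ U, (s a - s' a) * ∏ b ∈ U.erase a, (1 - s b) ^ 2 ≤
        (1 - s c) * ((∏ b ∈ U, (1 - s' b)) - ∏ b ∈ U, (1 - s b)) := by
      have e3 : (1 - s c) ^ 2 ≤ 1 - s c := by nlinarith
      calc _ ≤ (1 - s c) * ∑ a ∈ U, (s a - s' a) * ∏ b ∈ U.erase a, (1 - s b) ^ 2 :=
            mul_le_mul_of_nonneg_right e3 hS
        _ ≤ _ := mul_le_mul_of_nonneg_left ih (by linarith)
    have e4 : ∏ b ∈ U, (1 - s b) ^ 2 ≤ ∏ b ∈ U, (1 - s' b) := by
      apply Finset.prod_le_prod (fun b _ => sq_nonneg _)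
      intro b _
      have hb0 := h0 b
      have hb1 := h1 b
      have hb2 := h2 b
      nlinarith
    have e5 := mul_le_mul_of_nonneg_left e4 (show 0 ≤ s c - s' c by linarith)
    nlinarith [e2, e5]

private theorem qp_nn_nonneg (u : Ω → ℂ) : 0 ≤ nn P u :=
  integral_nonneg fun _ => sq_nonneg _

private theorem qp_swap (L : Finset ι) (f : ι → Finset ι → ℝ) :
    ∑ a ∈ L, ∑ U ∈ L.powerset.filter (fun U => a ∈ U), f a U =
      ∑ U ∈ L.powerset, ∑ a ∈ U, f a U := by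
  apply Finset.sum_comm'
  intro a U
  rw [Finset.mem_filter, Finset.mem_powerset]
  constructor
  · rintro ⟨_, hU, haU⟩
    exact ⟨haU, hU⟩
  · rintro ⟨haU, hU⟩
    exact ⟨hU haU, hU, haU⟩

theorem RR_ge (hσ : Flips P σ) {l : List ι} (hl : l.Nodup) {u : Ω → ℂ} (hu : BM u)
    {s s' : ι → ℝ} (h0 : ∀ b, 0 ≤ s' b) (h1 : ∀ b, s' b ≤ s b) (h2 : ∀ b, s b ≤ 1) :
    ∑ a ∈ l.toFinset, (s a - s' a) * nn P (tt σ (Function.update s a 0) l (od σ a u))
      ≤ RR P σ l s' s u := by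
  have e1 : ∑ a ∈ l.toFinset, (s a - s' a) * nn P (tt σ (Function.update s a 0) l (od σ a u)) =
      ∑ a ∈ l.toFinset, ∑ U ∈ l.toFinset.powerset.filter (fun U => a ∈ U),
        ((s a - s' a) * ∏ b ∈ U.erase a, (1 - s b) ^ 2) * nn P (pr σ l U u) := by
    apply Finset.sum_congr rfl
    intro a ha
    rw [nn_tt_od hσ hl hu s (List.mem_toFinset.mp ha), Finset.mul_sum]
    apply Finset.sum_congr rfl
    intro U _
    ring
  rw [e1, qp_swap l.toFinset
    (fun a U => ((s a - s' a) * ∏ b ∈ U.erase a, (1 - s b) ^ 2) * nn P (pr σ l U u))]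
  unfold RR
  apply Finset.sum_le_sum
  intro U _
  rw [← Finset.sum_mul]
  exact mul_le_mul_of_nonneg_right (qp_key h0 h1 h2 U) (qp_nn_nonneg _)

theorem RR_nonneg {l : List ι} (u : Ω → ℂ) {s s' : ι → ℝ} (h0 : ∀ b, 0 ≤ s' b)
    (h1 : ∀ b, s' b ≤ s b) (h2 : ∀ b, s b ≤ 1) : 0 ≤ RR P σ l s' s u := by
  unfold RR
  apply Finset.sum_nonneg
  intro U _
  exact mul_nonneg (sub_nonneg.mpr (qp_prod_le h1 h2 U)) (qp_nn_nonneg _)

private theorem qp_one_sub {s : ι → ℝ} (h0 : ∀ b, 0 ≤ s b) (h2 : ∀ b, s b ≤ 1) (U : Finset ι) :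
    1 - ∏ b ∈ U, (1 - s b) ≤ ∑ b ∈ U, s b := by
  induction U using Finset.induction_on with
  | empty => simp
  | insert c U hc ih =>
    rw [Finset.prod_insert hc, Finset.sum_insert hc]
    have e1 : ∏ b ∈ U, (1 - s b) ≤ 1 :=
      Finset.prod_le_one (fun b _ => by have := h2 b; linarith)
        (fun b _ => by have := h0 b; linarith)
    have hc0 := h0 c
    nlinarith

theorem stab (hσ : Flips P σ) {l : List ι} (hl : l.Nodup) {u : Ω → ℂ} (hu : BM u)
    {s : ι → ℝ} (h0 : ∀ b, 0 ≤ s b) (h2 : ∀ b, s b ≤ 1) :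
    ∫ ω, tt σ s l (fun ω' => ‖u ω - u ω'‖ ^ 2) ω ∂P
      ≤ 2 * ∑ b ∈ l.toFinset, s b * nn P (od σ b u) := by
  rw [integral_tt_sq hσ hl hu s]
  have e1 : ∑ b ∈ l.toFinset, s b * nn P (od σ b u) =
      ∑ b ∈ l.toFinset, ∑ U ∈ l.toFinset.powerset.filter (fun U => b ∈ U),
        s b * nn P (pr σ l U u) := by
    apply Finset.sum_congr rfl
    intro b hb
    rw [← sum_nn_pr_mem hσ hl hu (List.mem_toFinset.mp hb), Finset.mul_sum]
  rw [e1, qp_swap l.toFinset (fun b U => s b * nn P (pr σ l U u))]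
  have e2 : ∑ U ∈ l.toFinset.powerset, (1 - ∏ b ∈ U, (1 - s b)) * nn P (pr σ l U u) ≤
      ∑ U ∈ l.toFinset.powerset, ∑ b ∈ U, s b * nn P (pr σ l U u) := by
    apply Finset.sum_le_sum
    intro U _
    rw [← Finset.sum_mul]
    exact mul_le_mul_of_nonneg_right (qp_one_sub h0 h2 U) (qp_nn_nonneg _)
  linarith

end Pool.Agent.Lib.MP_562b47_mp.QP
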