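import Mathlib
import Pool.Agent.Lib.MP_562b47_mp.QP.Defs
import Pool.Agent.Lib.MP_562b47_mp.EscFourier

/-!
QuantumPolya (MP_562b47_mp), module FT: a Plancherel type inequality on the half line.

For h measurable, ‖h‖ and ‖h‖² integrable on (0, ∞):
   ∫⁻ E, ‖∫_{s > 0} e^{iEs} h(s) ds‖² ≤ 4π ∫⁻_{s > 0} ‖h(s)‖².
Proof.  Let g = indicator (Ioi 0) of Re h (or Im h): real, integrable, g² integrable.  `gauss_FT`
(EscFourier.lean): ∫ exp(-b t²) ‖FT g t‖² ≤ 2π ∫ g² for all b > 0; let b = 1/(n+1) → 0: monotone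
convergence for lintegrals (ofReal of the integrand increases to ‖FT g t‖²; `lintegral_iSup` or
`lintegral_tendsto_of_tendsto_of_monotone`), so ∫⁻ ‖FT g t‖ₑ² dt ≤ ofReal (2π ∫ g²).
With FT g t = ∫ e^{-its} g(s) ds: ∫_{s>0} e^{iEs} h(s) ds = FT (Re part) (-E) + i FT (Im part) (-E),
‖a + i b‖² ≤ 2‖a‖² + 2‖b‖² and ∫ (Re h)² + ∫ (Im h)² = ∫ ‖h‖²; substitution E → -E
(`lintegral_comp_neg`/ measure preserving neg).  (Plancherel in Mathlib could be used too.)
`lap_le`: h(s) = e^{-ηs} φ s ω, ‖φ‖ ≤ 1, which is integrable.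
-/

open MeasureTheory Set Filter Topology Complex
open scoped Real ENNReal NNReal InnerProductSpace

namespace Pool.Agent.Lib.MP_562b47_mp.QP

private theorem qp_enorm_sq (x : ℂ) : ‖x‖ₑ ^ 2 = ENNReal.ofReal (‖x‖ ^ 2) := by
  rw [← ofReal_norm, ENNReal.ofReal_pow (norm_nonneg _)]

/-- Plancherel inequality for real functions. -/
private theorem qp_pl {g : ℝ → ℝ} (hg : Integrable g) (hg2 : Integrable fun s => g s ^ 2) :
    ∫⁻ t : ℝ, ‖FT g t‖ₑ ^ 2 ≤ ENNReal.ofReal (2 * π) * ENNReal.ofReal (∫ s, g s ^ 2) := by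
  have hc := continuous_FT hg
  set f : ℕ → ℝ → ℝ≥0∞ := fun n t =>
    ENNReal.ofReal (rexp (-(1 / ((n : ℝ) + 1)) * t ^ 2) * ‖FT g t‖ ^ 2) with hf
  have hfc : ∀ b : ℝ, Continuous fun t => rexp (-b * t ^ 2) * ‖FT g t‖ ^ 2 := by
    intro b
    have h1 : Continuous fun t => ‖FT g t‖ ^ 2 := (hc.norm).pow 2
    exact (by fun_prop : Continuous fun t : ℝ => rexp (-b * t ^ 2)).mul h1
  have hmeas : ∀ n, Measurable (f n) := fun n =>
    ENNReal.measurable_ofReal.comp (hfc _).measurable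
  have hint : ∀ b : ℝ, 0 < b → Integrable fun t => rexp (-b * t ^ 2) * ‖FT g t‖ ^ 2 := by
    intro b hb
    refine ((integrable_exp_neg_mul_sq hb).mul_const ((∫ s, |g s|) ^ 2)).mono'
      (hfc b).aestronglyMeasurable (ae_of_all _ fun t => ?_)
    have h1 : ‖FT g t‖ ≤ ∫ s, |g s| := by
      unfold FT
      refine (norm_integral_le_integral_norm _).trans (le_of_eq ?_)
      exact integral_congr_ae (ae_of_all _ fun s => norm_FT_integrand g t s)
    rw [norm_mul, Real.norm_eq_abs, abs_of_pos (Real.exp_pos _), norm_pow, norm_norm]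
    exact mul_le_mul_of_nonneg_left (pow_le_pow_left₀ (norm_nonneg _) h1 2) (Real.exp_pos _).le
  have hle : ∀ n, ∫⁻ t, f n t ≤ ENNReal.ofReal (2 * π) * ENNReal.ofReal (∫ s, g s ^ 2) := by
    intro n
    have hb : (0 : ℝ) < 1 / ((n : ℝ) + 1) := by positivity
    have h1 := gauss_FT hg hg2 hb
    rw [← ENNReal.ofReal_mul (by positivity)]
    calc ∫⁻ t, f n t = ENNReal.ofReal
          (∫ t, rexp (-(1 / ((n : ℝ) + 1)) * t ^ 2) * ‖FT g t‖ ^ 2) := by
          rw [ofReal_integral_eq_lintegral_ofReal (hint _ hb)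
            (ae_of_all _ fun t => by positivity)]
      _ ≤ _ := ENNReal.ofReal_le_ofReal h1
  have hlim : ∀ t, Tendsto (fun n => f n t) atTop (𝓝 (‖FT g t‖ₑ ^ 2)) := by
    intro t
    rw [qp_enorm_sq]
    refine ENNReal.tendsto_ofReal ?_
    have h1 : Tendsto (fun n : ℕ => rexp (-(1 / ((n : ℝ) + 1)) * t ^ 2)) atTop (𝓝 1) := by
      have h2 : Tendsto (fun n : ℕ => -(1 / ((n : ℝ) + 1)) * t ^ 2) atTop (𝓝 (-0 * t ^ 2)) :=
        (tendsto_one_div_add_atTop_nhds_zero_nat.neg).mul_const _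
      have h3 := (Real.continuous_exp.tendsto (-0 * t ^ 2)).comp h2
      rw [neg_zero, zero_mul, Real.exp_zero] at h3
      exact h3
    simpa using h1.mul_const (‖FT g t‖ ^ 2)
  calc ∫⁻ t : ℝ, ‖FT g t‖ₑ ^ 2 = ∫⁻ t : ℝ, liminf (fun n => f n t) atTop := by
        refine lintegral_congr fun t => ?_
        rw [(hlim t).liminf_eq]
    _ ≤ liminf (fun n => ∫⁻ t, f n t) atTop := lintegral_liminf_le hmeas
    _ ≤ liminf (fun _ : ℕ => ENNReal.ofReal (2 * π) * ENNReal.ofReal (∫ s, g s ^ 2)) atTop :=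
        liminf_le_liminf (Eventually.of_forall hle)
    _ = _ := liminf_const _

theorem FT_half {h : ℝ → ℂ} (hm : Measurable h) (h1 : IntegrableOn h (Ioi 0))
    (h2 : IntegrableOn (fun s => ‖h s‖ ^ 2) (Ioi 0)) :
    ∫⁻ E : ℝ, ‖∫ s in Ioi (0:ℝ), cexp (I * (E : ℂ) * (s : ℂ)) * h s‖ₑ ^ 2
      ≤ ENNReal.ofReal (4 * π) * ∫⁻ s in Ioi (0:ℝ), ‖h s‖ₑ ^ 2 := by
  set g1 : ℝ → ℝ := (Ioi (0:ℝ)).indicator fun s => (h s).re with hg1
  set g2 : ℝ → ℝ := (Ioi (0:ℝ)).indicator fun s => (h s).im with hg2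
  have i1 : Integrable g1 := (integrable_indicator_iff measurableSet_Ioi).2 h1.re
  have i2 : Integrable g2 := (integrable_indicator_iff measurableSet_Ioi).2 h1.im
  have e1 : (fun s => g1 s ^ 2) = (Ioi (0:ℝ)).indicator fun s => (h s).re ^ 2 := by
    funext s
    by_cases hs : s ∈ Ioi (0:ℝ)
    · rw [hg1, indicator_of_mem hs, indicator_of_mem hs]
    · rw [hg1, indicator_of_notMem hs, indicator_of_notMem hs]; simp
  have e2 : (fun s => g2 s ^ 2) = (Ioi (0:ℝ)).indicator fun s => (h s).im ^ 2 := by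
    funext s
    by_cases hs : s ∈ Ioi (0:ℝ)
    · rw [hg2, indicator_of_mem hs, indicator_of_mem hs]
    · rw [hg2, indicator_of_notMem hs, indicator_of_notMem hs]; simp
  have j1' : IntegrableOn (fun s => (h s).re ^ 2) (Ioi 0) := by
    refine Integrable.mono' h2 ?_ (ae_of_all _ fun s => ?_)
    · exact ((Complex.measurable_re.comp hm).pow_const 2).aestronglyMeasurable
    · rw [norm_pow]
      exact pow_le_pow_left₀ (norm_nonneg _) (Complex.abs_re_le_norm _) 2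
  have j2' : IntegrableOn (fun s => (h s).im ^ 2) (Ioi 0) := by
    refine Integrable.mono' h2 ?_ (ae_of_all _ fun s => ?_)
    · exact ((Complex.measurable_im.comp hm).pow_const 2).aestronglyMeasurable
    · rw [norm_pow]
      exact pow_le_pow_left₀ (norm_nonneg _) (Complex.abs_im_le_norm _) 2
  have j1 : Integrable fun s => g1 s ^ 2 := by
    rw [e1]; exact (integrable_indicator_iff measurableSet_Ioi).2 j1'
  have j2 : Integrable fun s => g2 s ^ 2 := by
    rw [e2]; exact (integrable_indicator_iff measurableSet_Ioi).2 j2'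
  -- the transform in terms of the real transforms
  have hA : ∀ E : ℝ, ∫ s in Ioi (0:ℝ), cexp (I * (E : ℂ) * (s : ℂ)) * h s =
      FT g1 (-E) + I * FT g2 (-E) := by
    intro E
    have hcast : ∀ u : ℝ → ℝ, ∀ s, cexp (-((-E) * s : ℝ) * I) *
        (((Ioi (0:ℝ)).indicator u s : ℝ) : ℂ) =
        (Ioi (0:ℝ)).indicator (fun s => cexp (I * (E : ℂ) * (s : ℂ)) * (u s : ℂ)) s := by
      intro u s
      by_cases hs : s ∈ Ioi (0:ℝ)
      · rw [indicator_of_mem hs, indicator_of_mem hs]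
        congr 2
        push_cast
        ring
      · rw [indicator_of_notMem hs, indicator_of_notMem hs]
        simp
    have hF : ∀ u : ℝ → ℝ, FT ((Ioi (0:ℝ)).indicator u) (-E) =
        ∫ s in Ioi (0:ℝ), cexp (I * (E : ℂ) * (s : ℂ)) * (u s : ℂ) := by
      intro u
      unfold FT
      simp_rw [hcast u]
      rw [integral_indicator measurableSet_Ioi]
    rw [hg1, hg2, hF, hF, ← integral_const_mul, ← integral_add]
    · refine integral_congr_ae (ae_of_all _ fun s => ?_)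
      simp only
      conv_lhs => rw [← Complex.re_add_im (h s)]
      ring
    · have := integrable_FT i1 (-E)
      rw [hg1] at this
      simp_rw [hcast] at this
      exact (integrable_indicator_iff measurableSet_Ioi).1 this
    · refine Integrable.const_mul ?_ _
      have := integrable_FT i2 (-E)
      rw [hg2] at this
      simp_rw [hcast] at this
      exact (integrable_indicator_iff measurableSet_Ioi).1 this
  have hneg : ∀ g : ℝ → ℝ, Integrable g → ∫⁻ E : ℝ, ‖FT g (-E)‖ₑ ^ 2 = ∫⁻ E : ℝ, ‖FT g E‖ₑ ^ 2 := by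
    intro g hg
    have hmm : Measurable fun E : ℝ => ‖FT g E‖ₑ ^ 2 :=
      ((continuous_FT hg).measurable.enorm).pow_const 2
    exact (Measure.measurePreserving_neg (volume : Measure ℝ)).lintegral_comp hmm
  have hpt : ∀ E : ℝ, ‖∫ s in Ioi (0:ℝ), cexp (I * (E : ℂ) * (s : ℂ)) * h s‖ₑ ^ 2 ≤
      2 * ‖FT g1 (-E)‖ₑ ^ 2 + 2 * ‖FT g2 (-E)‖ₑ ^ 2 := by
    intro E
    rw [hA E, qp_enorm_sq, qp_enorm_sq, qp_enorm_sq]
    have h2' : (2 : ℝ≥0∞) = ENNReal.ofReal 2 := by simp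
    rw [h2', ← ENNReal.ofReal_mul (by norm_num), ← ENNReal.ofReal_mul (by norm_num),
      ← ENNReal.ofReal_add (by positivity) (by positivity)]
    apply ENNReal.ofReal_le_ofReal
    have h3 : ‖FT g1 (-E) + I * FT g2 (-E)‖ ≤ ‖FT g1 (-E)‖ + ‖FT g2 (-E)‖ := by
      refine (norm_add_le _ _).trans ?_
      rw [norm_mul, Complex.norm_I, one_mul]
    have h4 := pow_le_pow_left₀ (norm_nonneg _) h3 2
    nlinarith [sq_nonneg (‖FT g1 (-E)‖ - ‖FT g2 (-E)‖)]
  have hmm : ∀ g : ℝ → ℝ, Integrable g → Measurable fun E : ℝ => ‖FT g (-E)‖ₑ ^ 2 := by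
    intro g hg
    exact ((continuous_FT hg).measurable.comp measurable_neg).enorm.pow_const 2
  have hsum : ENNReal.ofReal (∫ s, g1 s ^ 2) + ENNReal.ofReal (∫ s, g2 s ^ 2) =
      ∫⁻ s in Ioi (0:ℝ), ‖h s‖ₑ ^ 2 := by
    have j3 : Integrable (fun s => (h s).re ^ 2 + (h s).im ^ 2)
        (volume.restrict (Ioi (0:ℝ))) := j1'.add j2'
    rw [e1, e2, integral_indicator measurableSet_Ioi, integral_indicator measurableSet_Ioi,
      ← ENNReal.ofReal_add (integral_nonneg fun s => sq_nonneg _)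
        (integral_nonneg fun s => sq_nonneg _), ← integral_add j1' j2',
      ofReal_integral_eq_lintegral_ofReal (f := fun s => (h s).re ^ 2 + (h s).im ^ 2)
        j3 (ae_of_all _ fun s => add_nonneg (sq_nonneg _) (sq_nonneg _))]
    refine lintegral_congr fun s => ?_
    rw [qp_enorm_sq]
    congr 1
    rw [← Complex.normSq_eq_norm_sq, Complex.normSq_apply]
    ring
  calc ∫⁻ E : ℝ, ‖∫ s in Ioi (0:ℝ), cexp (I * (E : ℂ) * (s : ℂ)) * h s‖ₑ ^ 2
      ≤ ∫⁻ E : ℝ, (2 * ‖FT g1 (-E)‖ₑ ^ 2 + 2 * ‖FT g2 (-E)‖ₑ ^ 2) := lintegral_mono hpt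
    _ = 2 * (∫⁻ E : ℝ, ‖FT g1 E‖ₑ ^ 2) + 2 * ∫⁻ E : ℝ, ‖FT g2 E‖ₑ ^ 2 := by
        rw [lintegral_add_left ((hmm g1 i1).const_mul 2), lintegral_const_mul 2 (hmm g1 i1),
          lintegral_const_mul 2 (hmm g2 i2), hneg g1 i1, hneg g2 i2]
    _ ≤ 2 * (ENNReal.ofReal (2 * π) * ENNReal.ofReal (∫ s, g1 s ^ 2)) +
          2 * (ENNReal.ofReal (2 * π) * ENNReal.ofReal (∫ s, g2 s ^ 2)) := by
        gcongr
        · exact qp_pl i1 j1
        · exact qp_pl i2 j2
    _ = (2 * ENNReal.ofReal (2 * π)) *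
          (ENNReal.ofReal (∫ s, g1 s ^ 2) + ENNReal.ofReal (∫ s, g2 s ^ 2)) := by ring
    _ = ENNReal.ofReal (4 * π) * ∫⁻ s in Ioi (0:ℝ), ‖h s‖ₑ ^ 2 := by
        rw [hsum]
        congr 1
        have h2' : (2 : ℝ≥0∞) = ENNReal.ofReal 2 := by simp
        rw [h2', ← ENNReal.ofReal_mul (by norm_num)]
        congr 1
        ring

theorem lap_lint {Ω : Type*} [MeasurableSpace Ω] {φ : ℝ → Ω → ℂ}
    (hφ : Measurable (Function.uncurry φ)) {C : ℝ} (hφ1 : ∀ s ω, ‖φ s ω‖ ≤ C) {η : ℝ} (hη : 0 < η)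
    (ω : Ω) :
    ∫⁻ E : ℝ, ‖lap φ η E ω‖ₑ ^ 2
      ≤ ENNReal.ofReal (4 * π) * ∫⁻ s in Ioi (0:ℝ), ENNReal.ofReal (rexp (-2 * η * s)) * ‖φ s ω‖ₑ ^ 2 := by
  set h : ℝ → ℂ := fun s => ((rexp (-η * s) : ℝ) : ℂ) * φ s ω with hh
  have hφm : Measurable fun s => φ s ω := hφ.comp (measurable_id.prodMk measurable_const)
  have hm : Measurable h :=
    (Complex.measurable_ofReal.comp (by fun_prop : Measurable fun s : ℝ => rexp (-η * s))).mul hφm
  have hn : ∀ s, ‖h s‖ = rexp (-η * s) * ‖φ s ω‖ := by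
    intro s
    rw [hh]
    simp only
    rw [norm_mul, Complex.norm_real, Real.norm_eq_abs, abs_of_pos (Real.exp_pos _)]
  have hC : 0 ≤ C := (norm_nonneg _).trans (hφ1 0 ω)
  have hexp : ∀ a : ℝ, 0 < a → IntegrableOn (fun s => rexp (-a * s)) (Ioi (0:ℝ)) := by
    intro a ha
    exact exp_neg_integrableOn_Ioi 0 ha
  have h1 : IntegrableOn h (Ioi 0) := by
    refine Integrable.mono' ((hexp η hη).mul_const C) hm.aestronglyMeasurable
      (ae_of_all _ fun s => ?_)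
    rw [hn]
    exact mul_le_mul_of_nonneg_left (hφ1 s ω) (Real.exp_pos _).le
  have hsq : ∀ s, rexp (-η * s) ^ 2 = rexp (-2 * η * s) := by
    intro s
    rw [← Real.exp_nat_mul]
    congr 1
    push_cast
    ring
  have h2 : IntegrableOn (fun s => ‖h s‖ ^ 2) (Ioi 0) := by
    have h3 := (hexp (2 * η) (by positivity)).mul_const (C ^ 2)
    refine Integrable.mono' h3 (hm.norm.pow_const 2).aestronglyMeasurable
      (ae_of_all _ fun s => ?_)
    rw [norm_pow, norm_norm, hn, mul_pow, hsq]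
    have h4 : rexp (-2 * η * s) = rexp (-(2 * η) * s) := by congr 1; ring
    rw [h4]
    exact mul_le_mul_of_nonneg_left (pow_le_pow_left₀ (norm_nonneg _) (hφ1 s ω) 2)
      (Real.exp_pos _).le
  have hmain := FT_half hm h1 h2
  have e1 : ∀ E : ℝ, ∫ s in Ioi (0:ℝ), cexp (I * (E : ℂ) * (s : ℂ)) * h s = lap φ η E ω := by
    intro E
    unfold lap
    refine integral_congr_ae (ae_of_all _ fun s => ?_)
    simp only [hh]
    rw [← mul_assoc]
    congr 1
    rw [Complex.ofReal_exp, ← Complex.exp_add]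
    congr 1
    push_cast
    ring
  have e2 : ∀ s, ‖h s‖ₑ ^ 2 = ENNReal.ofReal (rexp (-2 * η * s)) * ‖φ s ω‖ₑ ^ 2 := by
    intro s
    rw [qp_enorm_sq, qp_enorm_sq, ← ENNReal.ofReal_mul (Real.exp_pos _).le, hn, mul_pow, hsq]
  simp_rw [e1, e2] at hmain
  exact hmain

end Pool.Agent.Lib.MP_562b47_mp.QP
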