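import Mathlib
import Pool.Agent.Lib.MP_562b47_mp.QP.FT
import Pool.Agent.Lib.MP_562b47_mp.QP.Walsh

/-!
QuantumPolya (MP_562b47_mp), module Budget: the telescoping budget.

F_n(E, ω) = lap φ (η n) E ω = ∫_{s>0} e^{iEs - η_n s} φ_s(ω) ds.  For U ⊆ l the operator pr σ l U is a finite
linear combination of compositions with measurable maps, so (induction on l, for all φ)
   pr σ l U (lap φ η E) ω = lap (fun s => pr σ l U (φ s)) η E ω
(ev, od commute with the integral over s: the integrands are integrable because ‖φ‖ ≤ C), and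
(s, ω) ↦ pr σ l U (φ s) ω is jointly measurable and bounded by C.  Hence (lap_lint, Tonelli for the
lintegral over ω, dkap ≤ dE/π by `kap_eq`: density π⁻¹ (1+E²)⁻¹ ≤ π⁻¹)
   ∫ nn P (pr σ l U (F_n(E,·))) dkap(E) ≤ (1/π) 4π ∫_{s>0} e^{-2ηs} nn P (pr σ l U (φ s)) ds ≤ 4 ∫_{s>0} nn P (pr σ l U (φ s)) ds.
With w_n(U) = ∏_{b∈U}(1 - s_{n+1} b) - ∏_{b∈U} (1 - s_n b) ≥ 0 (0 ≤ s_{n+1} ≤ s_n ≤ 1) and
∑_{n<N} w_n(U) = ∏(1 - s_N b) - ∏(1 - s_0 b) ≤ 1:
   ∑_n ∫ RR (s_{n+1}) (s_n) (F_n(E,·)) dkap(E) = ∑_n ∑_U w_n(U) ∫ nn (pr l U F_n) dkap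
   ≤ 4 ∑_U (∑_n w_n(U)) ∫_{s>0} nn (pr l U (φ s)) ds ≤ 4 ∫_{s>0} ∑_U nn (pr l U (φ s)) ds = 4 ∫_{s>0} nn (φ s) ds
   (sum_nn_pr) = 4 ∫∫_{s>0} ‖φ s ω‖² ds dP ≤ 4 · (1/2) = 2.
It may be easiest to do everything with lintegrals (all terms are ≥ 0) and to convert at the end;
`integrable_RR_lap` gives the integrability of the integrand for the users of `budget`
(F_n is bounded by C/η and jointly measurable in (E, ω): `measurable_lap`, via
StronglyMeasurable.integral_prod_right).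
-/

open MeasureTheory Set Filter Topology Complex
open scoped Real ENNReal NNReal InnerProductSpace

namespace Pool.Agent.Lib.MP_562b47_mp.QP

set_option linter.unusedSectionVars false

variable {Ω ι : Type*} [DecidableEq ι] [MeasurableSpace Ω] {P : Measure Ω} [IsProbabilityMeasure P]
  {σ : ι → Ω → Ω}

theorem measurable_lap {φ : ℝ → Ω → ℂ} (hφ : Measurable (Function.uncurry φ)) (η : ℝ) :
    Measurable (Function.uncurry fun E ω => lap φ η E ω) := by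
  have h1 : Measurable (fun q : (ℝ × Ω) × ℝ =>
      cexp ((I * (q.1.1 : ℂ) - (η : ℂ)) * (q.2 : ℂ)) * φ q.2 q.1.2) := by
    refine Measurable.mul (by fun_prop) ?_
    exact hφ.comp (measurable_snd.prodMk (measurable_snd.comp measurable_fst))
  have h2 : StronglyMeasurable (Function.uncurry fun (p : ℝ × Ω) (s : ℝ) =>
      cexp ((I * (p.1 : ℂ) - (η : ℂ)) * (s : ℂ)) * φ s p.2) := h1.stronglyMeasurable
  have h3 := h2.integral_prod_right (ν := volume.restrict (Ioi (0:ℝ)))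
  exact h3.measurable

private theorem qp_od_meas (hσ : Flips P σ) (a : ι) {φ : ℝ → Ω → ℂ}
    (hφ : Measurable (Function.uncurry φ)) :
    Measurable (Function.uncurry fun s => od σ a (φ s)) := by
  have h1 : Measurable (fun p : ℝ × Ω => φ p.1 (σ a p.2)) :=
    hφ.comp (measurable_fst.prodMk ((hσ.mp a).measurable.comp measurable_snd))
  exact (hφ.sub h1).div_const 2

private theorem qp_ev_meas (hσ : Flips P σ) (a : ι) {φ : ℝ → Ω → ℂ}
    (hφ : Measurable (Function.uncurry φ)) :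
    Measurable (Function.uncurry fun s => ev σ a (φ s)) := by
  have h1 : Measurable (fun p : ℝ × Ω => φ p.1 (σ a p.2)) :=
    hφ.comp (measurable_fst.prodMk ((hσ.mp a).measurable.comp measurable_snd))
  exact (hφ.add h1).div_const 2

private theorem qp_half_le {x y : ℂ} {C : ℝ} (hx : ‖x‖ ≤ C) (hy : ‖y‖ ≤ C) :
    ‖(x - y) / 2‖ ≤ C ∧ ‖(x + y) / 2‖ ≤ C := by
  have h2 : ‖(2:ℂ)‖ = 2 := by simp
  constructor
  · rw [norm_div, h2, div_le_iff₀ (by norm_num)]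
    have := norm_sub_le x y
    linarith
  · rw [norm_div, h2, div_le_iff₀ (by norm_num)]
    have := norm_add_le x y
    linarith

private theorem qp_pr_meas (hσ : Flips P σ) (l : List ι) (U : Finset ι) :
    ∀ {φ : ℝ → Ω → ℂ}, Measurable (Function.uncurry φ) →
      Measurable (Function.uncurry fun s => pr σ l U (φ s)) := by
  induction l with
  | nil => intro φ hφ; exact hφ
  | cons a l ih =>
    intro φ hφ
    by_cases h : a ∈ U
    · have h1 := ih (qp_od_meas hσ a hφ)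
      have h2 : (fun s => pr σ (a :: l) U (φ s)) = fun s => pr σ l U (od σ a (φ s)) := by
        funext s
        simp only [pr, h, if_true]
      rw [h2]
      exact h1
    · have h1 := ih (qp_ev_meas hσ a hφ)
      have h2 : (fun s => pr σ (a :: l) U (φ s)) = fun s => pr σ l U (ev σ a (φ s)) := by
        funext s
        simp only [pr, h, if_false]
      rw [h2]
      exact h1

private theorem qp_pr_le (σ : ι → Ω → Ω) (l : List ι) (U : Finset ι) {C : ℝ} :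
    ∀ {u : Ω → ℂ}, (∀ ω, ‖u ω‖ ≤ C) → ∀ ω, ‖pr σ l U u ω‖ ≤ C := by
  induction l with
  | nil => intro u hu; exact hu
  | cons a l ih =>
    intro u hu
    by_cases h : a ∈ U
    · have h1 := ih (u := od σ a u) fun ω => (qp_half_le (hu ω) (hu (σ a ω))).1
      simpa only [pr, h, if_true] using h1
    · have h1 := ih (u := ev σ a u) fun ω => (qp_half_le (hu ω) (hu (σ a ω))).2
      simpa only [pr, h, if_false] using h1

private theorem qp_norm_cexp (η E s : ℝ) :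
    ‖cexp ((I * (E : ℂ) - (η : ℂ)) * (s : ℂ))‖ = rexp (-η * s) := by
  rw [Complex.norm_exp]
  congr 1
  simp

private theorem qp_lap_int {φ : ℝ → Ω → ℂ} (hφ : Measurable (Function.uncurry φ)) {C : ℝ}
    (hφ1 : ∀ s ω, ‖φ s ω‖ ≤ C) {η : ℝ} (hη : 0 < η) (E : ℝ) (ω : Ω) :
    IntegrableOn (fun s : ℝ => cexp ((I * (E : ℂ) - (η : ℂ)) * (s : ℂ)) * φ s ω) (Ioi 0) := by
  have h1 : IntegrableOn (fun s : ℝ => C * rexp (-η * s)) (Ioi 0) :=
    (exp_neg_integrableOn_Ioi 0 hη).const_mul C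
  refine Integrable.mono' h1 ?_ (ae_of_all _ fun s => ?_)
  · refine (Measurable.mul (by fun_prop) ?_).aestronglyMeasurable
    exact hφ.comp (measurable_id.prodMk measurable_const)
  · rw [norm_mul, qp_norm_cexp, mul_comm]
    exact mul_le_mul_of_nonneg_right (hφ1 s ω) (Real.exp_pos _).le

private theorem qp_lap_le {φ : ℝ → Ω → ℂ} {C : ℝ}
    (hφ1 : ∀ s ω, ‖φ s ω‖ ≤ C) {η : ℝ} (hη : 0 < η) (E : ℝ) (ω : Ω) :
    ‖lap φ η E ω‖ ≤ ∫ s in Ioi (0:ℝ), C * rexp (-η * s) := by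
  have h1 : IntegrableOn (fun s : ℝ => C * rexp (-η * s)) (Ioi 0) :=
    (exp_neg_integrableOn_Ioi 0 hη).const_mul C
  refine norm_integral_le_of_norm_le h1 (ae_of_all _ fun s => ?_)
  rw [norm_mul, qp_norm_cexp, mul_comm]
  exact mul_le_mul_of_nonneg_right (hφ1 s ω) (Real.exp_pos _).le

private theorem qp_pr_lap (hσ : Flips P σ) (l : List ι) (U : Finset ι) {C : ℝ} {η : ℝ}
    (hη : 0 < η) (E : ℝ) :
    ∀ {φ : ℝ → Ω → ℂ}, Measurable (Function.uncurry φ) → (∀ s ω, ‖φ s ω‖ ≤ C) →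
      pr σ l U (fun ω => lap φ η E ω) = fun ω => lap (fun s => pr σ l U (φ s)) η E ω := by
  induction l with
  | nil => intro φ _ _; rfl
  | cons a l ih =>
    intro φ hφ hφ1
    by_cases h : a ∈ U
    · have h1 := ih (qp_od_meas hσ a hφ) (fun s ω => (qp_half_le (hφ1 s ω) (hφ1 s (σ a ω))).1)
      have h2 : (fun s => pr σ (a :: l) U (φ s)) = fun s => pr σ l U (od σ a (φ s)) := by
        funext s
        simp only [pr, h, if_true]
      rw [h2, ← h1]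
      simp only [pr, h, if_true]
      congr 1
      funext ω
      unfold od lap
      rw [← integral_sub (qp_lap_int hφ hφ1 hη E ω) (qp_lap_int hφ hφ1 hη E (σ a ω)),
        ← integral_div]
      refine integral_congr_ae (ae_of_all _ fun s => ?_)
      simp only
      ring
    · have h1 := ih (qp_ev_meas hσ a hφ) (fun s ω => (qp_half_le (hφ1 s ω) (hφ1 s (σ a ω))).2)
      have h2 : (fun s => pr σ (a :: l) U (φ s)) = fun s => pr σ l U (ev σ a (φ s)) := by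
        funext s
        simp only [pr, h, if_false]
      rw [h2, ← h1]
      simp only [pr, h, if_false]
      congr 1
      funext ω
      unfold ev lap
      rw [← integral_add (qp_lap_int hφ hφ1 hη E ω) (qp_lap_int hφ hφ1 hη E (σ a ω)),
        ← integral_div]
      refine integral_congr_ae (ae_of_all _ fun s => ?_)
      simp only
      ring

private theorem qp_nn_nonneg (u : Ω → ℂ) : 0 ≤ nn P u :=
  integral_nonneg fun ω => by positivity

private theorem qp_ofReal_nn {u : Ω → ℂ} (hu : Measurable u) {C : ℝ} (hC : ∀ ω, ‖u ω‖ ≤ C) :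
    ENNReal.ofReal (nn P u) = ∫⁻ ω, ‖u ω‖ₑ ^ 2 ∂P := by
  have h1 : Integrable (fun ω => ‖u ω‖ ^ 2) P := by
    refine Integrable.of_bound (C := C ^ 2) (hu.norm.pow_const 2).aestronglyMeasurable
      (ae_of_all _ fun ω => ?_)
    rw [Real.norm_of_nonneg (by positivity)]
    exact pow_le_pow_left₀ (norm_nonneg _) (hC ω) 2
  unfold nn
  rw [ofReal_integral_eq_lintegral_ofReal h1 (ae_of_all _ fun ω => by positivity)]
  refine lintegral_congr fun ω => ?_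
  rw [ENNReal.ofReal_pow (norm_nonneg _), ofReal_norm]

private theorem qp_nn_int (hσ : Flips P σ) (l : List ι) (U : Finset ι) {φ : ℝ → Ω → ℂ}
    (hφ : Measurable (Function.uncurry φ)) {C : ℝ} (hφ1 : ∀ s ω, ‖φ s ω‖ ≤ C) {η : ℝ}
    (hη : 0 < η) : Integrable (fun E => nn P (pr σ l U (fun ω => lap φ η E ω))) kap := by
  have hψ := qp_pr_meas hσ l U hφ
  have hψ1 : ∀ s ω, ‖pr σ l U (φ s) ω‖ ≤ C := fun s => qp_pr_le σ l U (hφ1 s)
  have h0 : (fun E => nn P (pr σ l U (fun ω => lap φ η E ω)))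
      = fun E => ∫ ω, ‖lap (fun s => pr σ l U (φ s)) η E ω‖ ^ 2 ∂P := by
    funext E
    rw [qp_pr_lap hσ l U hη E hφ hφ1]
    rfl
  rw [h0]
  have h1 : StronglyMeasurable (Function.uncurry fun E ω =>
      ‖lap (fun s => pr σ l U (φ s)) η E ω‖ ^ 2) :=
    ((measurable_lap hψ η).norm.pow_const 2).stronglyMeasurable
  have h2 := h1.integral_prod_right (ν := P)
  set K : ℝ := ∫ s in Ioi (0:ℝ), C * rexp (-η * s) with hK
  refine Integrable.of_bound (C := K ^ 2) h2.aestronglyMeasurable (ae_of_all _ fun E => ?_)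
  rw [Real.norm_of_nonneg (integral_nonneg fun ω => by positivity)]
  have h3 : ∀ ω, ‖lap (fun s => pr σ l U (φ s)) η E ω‖ ^ 2 ≤ K ^ 2 := fun ω =>
    pow_le_pow_left₀ (norm_nonneg _) (qp_lap_le hψ1 hη E ω) 2
  calc ∫ ω, ‖lap (fun s => pr σ l U (φ s)) η E ω‖ ^ 2 ∂P ≤ ∫ _ω, K ^ 2 ∂P :=
        integral_mono_of_nonneg (ae_of_all _ fun ω => by positivity) (integrable_const _)
          (ae_of_all _ h3)
    _ = K ^ 2 := by simp

theorem integrable_RR_lap (hσ : Flips P σ) (l : List ι) {φ : ℝ → Ω → ℂ}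
    (hφ : Measurable (Function.uncurry φ)) {C : ℝ} (hφ1 : ∀ s ω, ‖φ s ω‖ ≤ C) {η : ℝ} (hη : 0 < η)
    (s' s : ι → ℝ) : Integrable (fun E => RR P σ l s' s (fun ω => lap φ η E ω)) kap := by
  unfold RR
  exact integrable_finsetSum _ fun U _ => (qp_nn_int hσ l U hφ hφ1 hη).const_mul _

private theorem qp_kap_le {f : ℝ → ℝ≥0∞} (hf : Measurable f) :
    ∫⁻ E, f E ∂kap ≤ ENNReal.ofReal π⁻¹ * ∫⁻ E, f E := by
  rw [kap_eq, lintegral_withDensity_eq_lintegral_mul _ (by fun_prop) hf,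
    ← lintegral_const_mul _ hf]
  refine lintegral_mono fun E => ?_
  simp only [Pi.mul_apply]
  gcongr
  have h2 : (1 + E ^ 2)⁻¹ ≤ 1 := by
    rw [inv_le_one_iff₀]; right; nlinarith [sq_nonneg E]
  calc π⁻¹ * (1 + E ^ 2)⁻¹ ≤ π⁻¹ * 1 := mul_le_mul_of_nonneg_left h2 (by positivity)
    _ = π⁻¹ := mul_one _

/-- the mass of the part `U` -/
private noncomputable def qp_LU (P : Measure Ω) (σ : ι → Ω → Ω) (l : List ι) (φ : ℝ → Ω → ℂ)
    (U : Finset ι) : ℝ≥0∞ := ∫⁻ s in Ioi (0:ℝ), ∫⁻ ω, ‖pr σ l U (φ s) ω‖ₑ ^ 2 ∂P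

private theorem qp_main (hσ : Flips P σ) (l : List ι) (U : Finset ι) {φ : ℝ → Ω → ℂ}
    (hφ : Measurable (Function.uncurry φ)) {C : ℝ} (hφ1 : ∀ s ω, ‖φ s ω‖ ≤ C) {η : ℝ}
    (hη : 0 < η) :
    ENNReal.ofReal (∫ E, nn P (pr σ l U (fun ω => lap φ η E ω)) ∂kap) ≤ 4 * qp_LU P σ l φ U := by
  have hψ := qp_pr_meas hσ l U hφ
  have hψ1 : ∀ s ω, ‖pr σ l U (φ s) ω‖ ≤ C := fun s => qp_pr_le σ l U (hφ1 s)
  have hLU : qp_LU P σ l φ U = ∫⁻ s in Ioi (0:ℝ), (∫⁻ ω, ‖pr σ l U (φ s) ω‖ₑ ^ 2 ∂P) := rfl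
  rw [hLU]
  obtain ⟨ψ, hψd⟩ : ∃ ψ : ℝ → Ω → ℂ, ψ = fun s => pr σ l U (φ s) := ⟨_, rfl⟩
  have hψe : ∀ s, pr σ l U (φ s) = ψ s := fun s => by rw [hψd]
  simp only [hψe] at hψ1 ⊢
  rw [← hψd] at hψ
  have hm := measurable_lap hψ η
  have hm2 : Measurable (Function.uncurry fun E ω => ‖lap ψ η E ω‖ₑ ^ 2) := hm.enorm.pow_const 2
  rw [ofReal_integral_eq_lintegral_ofReal (qp_nn_int hσ l U hφ hφ1 hη)
    (ae_of_all _ fun E => qp_nn_nonneg _)]
  have h1 : ∀ E, ENNReal.ofReal (nn P (pr σ l U (fun ω => lap φ η E ω)))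
      = ∫⁻ ω, ‖lap ψ η E ω‖ₑ ^ 2 ∂P := by
    intro E
    have hmE : Measurable (fun ω => lap ψ η E ω) := hm.of_uncurry_left (x := E)
    have h10 : pr σ l U (fun ω => lap φ η E ω) = fun ω => lap ψ η E ω :=
      by rw [hψd]; exact qp_pr_lap hσ l U hη E hφ hφ1
    rw [h10]
    exact qp_ofReal_nn hmE (qp_lap_le hψ1 hη E)
  have h11 : ∫⁻ E, (∫⁻ ω, ‖lap ψ η E ω‖ₑ ^ 2 ∂P) ∂kap
      = ∫⁻ ω, (∫⁻ E, ‖lap ψ η E ω‖ₑ ^ 2 ∂kap) ∂P :=
    lintegral_lintegral_swap hm2.aemeasurable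
  rw [lintegral_congr h1, h11]
  have h2 : ∀ ω, ∫⁻ E, ‖lap ψ η E ω‖ₑ ^ 2 ∂kap
      ≤ 4 * ∫⁻ s in Ioi (0:ℝ), ‖ψ s ω‖ₑ ^ 2 := by
    intro ω
    have hmω : Measurable (fun E => ‖lap ψ η E ω‖ₑ ^ 2) := hm2.of_uncurry_right (y := ω)
    refine (qp_kap_le hmω).trans ?_
    calc ENNReal.ofReal π⁻¹ * ∫⁻ E, ‖lap ψ η E ω‖ₑ ^ 2
        ≤ ENNReal.ofReal π⁻¹ * (ENNReal.ofReal (4 * π) *
          ∫⁻ s in Ioi (0:ℝ), ENNReal.ofReal (rexp (-2 * η * s)) * ‖ψ s ω‖ₑ ^ 2) := by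
            gcongr
            exact lap_lint hψ hψ1 hη ω
      _ ≤ ENNReal.ofReal π⁻¹ * (ENNReal.ofReal (4 * π) *
          ∫⁻ s in Ioi (0:ℝ), ‖ψ s ω‖ₑ ^ 2) := by
            gcongr ENNReal.ofReal π⁻¹ * (ENNReal.ofReal (4 * π) * ?_)
            refine setLIntegral_mono' measurableSet_Ioi fun s hs => ?_
            have h3 : ENNReal.ofReal (rexp (-2 * η * s)) ≤ 1 := by
              rw [← ENNReal.ofReal_one]
              apply ENNReal.ofReal_le_ofReal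
              rw [Real.exp_le_one_iff]
              have : 0 < s := hs
              have : 0 < η * s := mul_pos hη this
              linarith
            calc ENNReal.ofReal (rexp (-2 * η * s)) * ‖ψ s ω‖ₑ ^ 2 ≤ 1 * ‖ψ s ω‖ₑ ^ 2 := by gcongr
              _ = _ := one_mul _
      _ = 4 * ∫⁻ s in Ioi (0:ℝ), ‖ψ s ω‖ₑ ^ 2 := by
            rw [← mul_assoc, ← ENNReal.ofReal_mul (by positivity)]
            have : π⁻¹ * (4 * π) = 4 := by field_simp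
            rw [this]
            norm_num
  refine (lintegral_mono h2).trans ?_
  have hm3 : Measurable (fun p : Ω × ℝ => ‖ψ p.2 p.1‖ₑ ^ 2) :=
    (hψ.comp (measurable_snd.prodMk measurable_fst)).enorm.pow_const 2
  rw [lintegral_const_mul' _ _ (by norm_num)]
  gcongr
  rw [lintegral_lintegral_swap (f := fun (ω : Ω) (s : ℝ) => ‖ψ s ω‖ₑ ^ 2) hm3.aemeasurable]

private theorem qp_sum_LU (hσ : Flips P σ) {l : List ι} (hl : l.Nodup) {φ : ℝ → Ω → ℂ}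
    (hφ : Measurable (Function.uncurry φ)) {C : ℝ} (hφ1 : ∀ s ω, ‖φ s ω‖ ≤ C)
    (hφ2 : ∀ ω, IntegrableOn (fun s => ‖φ s ω‖ ^ 2) (Ioi 0))
    (hφ3 : ∀ ω, ∫ s in Ioi (0:ℝ), ‖φ s ω‖ ^ 2 ≤ 1 / 2) :
    ∑ U ∈ l.toFinset.powerset, qp_LU P σ l φ U ≤ ENNReal.ofReal (1 / 2) := by
  unfold qp_LU
  have hmU : ∀ U : Finset ι, Measurable (fun s => ∫⁻ ω, ‖pr σ l U (φ s) ω‖ₑ ^ 2 ∂P) := by
    intro U
    have h1 : Measurable (Function.uncurry fun (s : ℝ) (ω : Ω) => ‖pr σ l U (φ s) ω‖ₑ ^ 2) :=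
      (qp_pr_meas hσ l U hφ).enorm.pow_const 2
    exact h1.lintegral_prod_right'
  rw [← lintegral_finsetSum _ fun U _ => hmU U]
  have hmφ : ∀ s, Measurable (φ s) := fun s => hφ.comp (measurable_const.prodMk measurable_id)
  have h1 : ∀ s, ∑ U ∈ l.toFinset.powerset, ∫⁻ ω, ‖pr σ l U (φ s) ω‖ₑ ^ 2 ∂P
      = ∫⁻ ω, ‖φ s ω‖ₑ ^ 2 ∂P := by
    intro s
    have h2 : ∀ U : Finset ι, ∫⁻ ω, ‖pr σ l U (φ s) ω‖ₑ ^ 2 ∂P
        = ENNReal.ofReal (nn P (pr σ l U (φ s))) := by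
      intro U
      exact (qp_ofReal_nn ((qp_pr_meas hσ l U hφ).comp (measurable_const.prodMk measurable_id))
        (qp_pr_le σ l U (hφ1 s))).symm
    rw [Finset.sum_congr rfl fun U _ => h2 U, ← ENNReal.ofReal_sum_of_nonneg
      (fun U _ => qp_nn_nonneg _), sum_nn_pr hσ hl ⟨hmφ s, C, hφ1 s⟩,
      qp_ofReal_nn (hmφ s) (hφ1 s)]
  rw [lintegral_congr h1]
  have hm2 : Measurable (Function.uncurry fun (s : ℝ) (ω : Ω) => ‖φ s ω‖ₑ ^ 2) :=
    hφ.enorm.pow_const 2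
  rw [lintegral_lintegral_swap hm2.aemeasurable]
  have h3 : ∀ ω, ∫⁻ s in Ioi (0:ℝ), ‖φ s ω‖ₑ ^ 2 ≤ ENNReal.ofReal (1 / 2) := by
    intro ω
    have h4 : ∫⁻ s in Ioi (0:ℝ), ‖φ s ω‖ₑ ^ 2
        = ENNReal.ofReal (∫ s in Ioi (0:ℝ), ‖φ s ω‖ ^ 2) := by
      rw [ofReal_integral_eq_lintegral_ofReal (hφ2 ω) (ae_of_all _ fun s => by positivity)]
      refine lintegral_congr fun s => ?_
      rw [ENNReal.ofReal_pow (norm_nonneg _), ofReal_norm]
    rw [h4]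
    exact ENNReal.ofReal_le_ofReal (hφ3 ω)
  calc ∫⁻ ω, (∫⁻ s in Ioi (0:ℝ), ‖φ s ω‖ₑ ^ 2) ∂P ≤ ∫⁻ _ω, ENNReal.ofReal (1 / 2) ∂P :=
        lintegral_mono h3
    _ = ENNReal.ofReal (1 / 2) := by simp

theorem budget (hσ : Flips P σ) {l : List ι} (hl : l.Nodup) {φ : ℝ → Ω → ℂ}
    (hφ : Measurable (Function.uncurry φ)) {C : ℝ} (hφ1 : ∀ s ω, ‖φ s ω‖ ≤ C)
    (hφ2 : ∀ ω, IntegrableOn (fun s => ‖φ s ω‖ ^ 2) (Ioi 0))
    (hφ3 : ∀ ω, ∫ s in Ioi (0:ℝ), ‖φ s ω‖ ^ 2 ≤ 1 / 2)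
    {η : ℕ → ℝ} (hη : ∀ n, 0 < η n) {s : ℕ → ι → ℝ} (hs0 : ∀ n b, 0 ≤ s n b)
    (hs1 : ∀ n b, s n b ≤ 1) (hmono : ∀ n b, s (n + 1) b ≤ s n b) (N : ℕ) :
    ∑ n ∈ Finset.range N, ∫ E, RR P σ l (s (n + 1)) (s n) (fun ω => lap φ (η n) E ω) ∂kap ≤ 2 := by
  set S := l.toFinset.powerset with hS
  have hsum := qp_sum_LU hσ hl hφ hφ1 hφ2 hφ3
  rw [← hS] at hsum
  have hfin : ∀ U ∈ S, qp_LU P σ l φ U ≠ ⊤ := by
    intro U hU
    have h1 : qp_LU P σ l φ U ≤ ∑ U ∈ S, qp_LU P σ l φ U :=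
      Finset.single_le_sum (f := fun U => qp_LU P σ l φ U) (fun _ _ => zero_le) hU
    exact ne_top_of_le_ne_top ENNReal.ofReal_ne_top (h1.trans hsum)
  have hmain : ∀ U ∈ S, ∀ n, ∫ E, nn P (pr σ l U (fun ω => lap φ (η n) E ω)) ∂kap
      ≤ 4 * (qp_LU P σ l φ U).toReal := by
    intro U hU n
    have h1 := qp_main hσ l U hφ hφ1 (hη n)
    have h2 : 4 * (qp_LU P σ l φ U).toReal = (4 * qp_LU P σ l φ U).toReal := by
      rw [ENNReal.toReal_mul]; norm_num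
    rw [h2]
    exact (ENNReal.ofReal_le_iff_le_toReal (ENNReal.mul_ne_top (by norm_num) (hfin U hU))).mp h1
  set w : ℕ → Finset ι → ℝ := fun n U => (∏ b ∈ U, (1 - s (n + 1) b)) - ∏ b ∈ U, (1 - s n b)
    with hw
  have hw0 : ∀ n U, 0 ≤ w n U := by
    intro n U
    rw [hw]
    simp only
    rw [sub_nonneg]
    refine Finset.prod_le_prod (fun b _ => ?_) fun b _ => ?_
    · linarith [hs1 n b]
    · linarith [hmono n b]
  have hw1 : ∀ U, ∑ n ∈ Finset.range N, w n U ≤ 1 := by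
    intro U
    rw [hw]
    simp only
    rw [Finset.sum_range_sub (fun n => ∏ b ∈ U, (1 - s n b))]
    have h1 : ∏ b ∈ U, (1 - s N b) ≤ 1 :=
      Finset.prod_le_one (fun b _ => by linarith [hs1 N b]) fun b _ => by linarith [hs0 N b]
    have h2 : 0 ≤ ∏ b ∈ U, (1 - s 0 b) :=
      Finset.prod_nonneg fun b _ => by linarith [hs1 0 b]
    linarith
  have hint : ∀ n, ∫ E, RR P σ l (s (n + 1)) (s n) (fun ω => lap φ (η n) E ω) ∂kap
      = ∑ U ∈ S, w n U * ∫ E, nn P (pr σ l U (fun ω => lap φ (η n) E ω)) ∂kap := by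
    intro n
    unfold RR
    rw [integral_finsetSum _ fun U _ => (qp_nn_int hσ l U hφ hφ1 (hη n)).const_mul _]
    refine Finset.sum_congr rfl fun U _ => ?_
    rw [integral_const_mul]
  calc ∑ n ∈ Finset.range N, ∫ E, RR P σ l (s (n + 1)) (s n) (fun ω => lap φ (η n) E ω) ∂kap
      = ∑ n ∈ Finset.range N, ∑ U ∈ S, w n U *
          ∫ E, nn P (pr σ l U (fun ω => lap φ (η n) E ω)) ∂kap :=
        Finset.sum_congr rfl fun n _ => hint n
    _ ≤ ∑ n ∈ Finset.range N, ∑ U ∈ S, w n U * (4 * (qp_LU P σ l φ U).toReal) := by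
        refine Finset.sum_le_sum fun n _ => Finset.sum_le_sum fun U hU => ?_
        exact mul_le_mul_of_nonneg_left (hmain U hU n) (hw0 n U)
    _ = ∑ U ∈ S, (∑ n ∈ Finset.range N, w n U) * (4 * (qp_LU P σ l φ U).toReal) := by
        rw [Finset.sum_comm]
        refine Finset.sum_congr rfl fun U _ => ?_
        rw [Finset.sum_mul]
    _ ≤ ∑ U ∈ S, 1 * (4 * (qp_LU P σ l φ U).toReal) := by
        refine Finset.sum_le_sum fun U _ => ?_
        exact mul_le_mul_of_nonneg_right (hw1 U) (by positivity)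
    _ = 4 * (∑ U ∈ S, qp_LU P σ l φ U).toReal := by
        rw [ENNReal.toReal_sum hfin, Finset.mul_sum]
        simp
    _ ≤ 4 * (1 / 2) := by
        have h1 : (∑ U ∈ S, qp_LU P σ l φ U).toReal ≤ 1 / 2 :=
          ENNReal.toReal_le_of_le_ofReal (by norm_num) hsum
        linarith
    _ = 2 := by norm_num

end Pool.Agent.Lib.MP_562b47_mp.QP
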