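import Mathlib
import Pool.Agent.Lib.MP_562b47_mp.QP.Defs

/-!
QuantumPolya (MP_562b47_mp), module Diss: the dissipative evolution exp(-i s (H - i |δ_o⟩⟨δ_o|)).

Let A = H ω - I • rk (e o) (rk u w = ⟪u, w⟫ u, SpecAvg.lean) and W_s = exp((-(s) I) • A), a norm
continuous semigroup, d/ds W_s = (-I) A W_s (copy the proof of `hasDerivAt_Ut`).
(1) For v = W_s u: d/ds ‖v‖² = 2 Re ⟪v, -I A v⟫ = 2 Re (-I ⟪v, H v⟫ - ⟪v, rk (e o) v⟫) = -2 |⟪e o, v⟫|²
    (⟪v, H v⟫ is real, im_inner_sa).  So ‖W_s u‖ ≤ ‖u‖ for s ≥ 0 and, integrating from 0 to S (FTC),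
    2 ∫_0^S |⟪e o, W_s e o⟫|² ds = 1 - ‖W_S e o‖² ≤ 1; monotone limit S → ∞ (e.g.
    `integrableOn_Ioi_of_intervalIntegral_norm_bounded`, `intervalIntegral_tendsto_integral_Ioi`).
    φ s ω := indicator of s ≥ 0 (or s > 0) of I * ⟪e o, W_s (e o)⟫.
(2) z = E + iη, η > 0.  v := I • ∫_{s>0} e^{izs} • W_s (e o) ds ∈ E converges (norm ≤ e^{-ηs}).  FTC on (0, ∞)
    (`integral_Ioi_of_hasDerivAt_of_tendsto`) for s ↦ e^{izs} W_s (e o), derivative I (z - A) e^{izs} W_s e o, limit 0,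
    value e o at 0: - e o = (z - A) v, i.e. A v - z v = e o, i.e. H v - z v = e o + I ⟪e o, v⟫ e o, so
    v = (1 + I ⟪e o, v⟫) Rv (H ω) z (e o)  (Rv_H_apply / Rv_mul), and with G = Gr ω z o o, q = ⟪e o, v⟫:
    q = (1 + I q) G, q (1 - I G) = G, q = G / den = gg e H ω z o o (den ≠ 0: Model.den_ne).
    ⟪e o, v⟫ = ∫_{s>0} e^{izs} I ⟪e o, W_s e o⟫ ds (innerSL commutes with the integral) = lap φ η E ω
    (e^{izs} = exp((I E - η) s)).
(3) joint measurability of (s, ω) ↦ ⟪e o, W_s e o⟫: it is jointly continuous; or: power series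
    ∑ (-I s)^n / n! ⟪e o, A(ω)^n e o⟫ (cov_hasSum_exp), each ω ↦ A(ω)^n (e o) is continuous (induction, ω ↦ A(ω) u
    is continuous for every u and ‖A(ω)‖ ≤ K + 1; see CovOp.continuous_apply for the argument) and a
    pointwise limit of measurable functions is measurable.
-/

open MeasureTheory Set Filter Topology Complex
open scoped Real ENNReal NNReal InnerProductSpace

namespace Pool.Agent.Lib.MP_562b47_mp.QP

variable {Λ : Type*} [DecidableEq Λ] [Countable Λ] {E : Type*} [NormedAddCommGroup E]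
  [InnerProductSpace ℂ E] [CompleteSpace E] {c : ℝ} {e : Λ → E} {H : (Λ → ℝ) → (E →L[ℂ] E)}

/-! ### A general semigroup -/

section gen

/-- the semigroup `exp(-i s B)` -/
private noncomputable def qp_W (B : E →L[ℂ] E) (s : ℝ) : E →L[ℂ] E :=
  NormedSpace.exp ((-(s : ℂ) * I) • B)

private theorem qp_W_zero (B : E →L[ℂ] E) : qp_W B 0 = 1 := by
  unfold qp_W
  rw [Complex.ofReal_zero, neg_zero, zero_mul, zero_smul, NormedSpace.exp_zero]

private theorem qp_hasDerivAt_W (B : E →L[ℂ] E) (t : ℝ) :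
    HasDerivAt (fun t => qp_W B t) (-I • (B * qp_W B t)) t := by
  have h1 : ∀ s : ℝ, qp_W B s = NormedSpace.exp (s • ((-I) • B)) := by
    intro s
    unfold qp_W
    congr 1
    rw [← Complex.coe_smul, smul_smul]
    congr 1
    ring
  have h2 := hasDerivAt_exp_smul_const' (𝕂 := ℝ) ((-I) • B) t
  rw [← h1 t, smul_mul_assoc] at h2
  have h3 : (fun t => qp_W B t) = fun s : ℝ => NormedSpace.exp (s • ((-I) • B)) := funext h1
  rw [h3]
  exact h2

omit [DecidableEq Λ] [Countable Λ] [CompleteSpace E] in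
private theorem qp_cont_apply {A : (Λ → ℝ) → (E →L[ℂ] E)} (hb : ∃ K, ∀ ω, ‖A ω‖ ≤ K)
    (hc : ∀ u, Continuous fun ω => A ω u) {P : Type*} [TopologicalSpace P]
    {f : P → Λ → ℝ} (hf : Continuous f) {h : P → E} (hh : Continuous h) :
    Continuous fun p => A (f p) (h p) := by
  obtain ⟨K, hK⟩ := hb
  rw [continuous_iff_continuousAt]
  intro p0
  rw [ContinuousAt, tendsto_iff_norm_sub_tendsto_zero]
  have hc2 : Continuous fun p => A (f p) (h p0) := (hc (h p0)).comp hf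
  have hlim : Tendsto (fun p => K * ‖h p - h p0‖ + ‖A (f p) (h p0) - A (f p0) (h p0)‖)
      (𝓝 p0) (𝓝 (K * ‖h p0 - h p0‖ + ‖A (f p0) (h p0) - A (f p0) (h p0)‖)) := by
    refine Tendsto.add (Tendsto.const_mul _ ?_) ?_
    · exact ((hh.tendsto p0).sub_const _).norm
    · exact ((hc2.tendsto p0).sub_const _).norm
  rw [sub_self, sub_self, norm_zero, mul_zero, add_zero] at hlim
  refine tendsto_of_tendsto_of_tendsto_of_le_of_le tendsto_const_nhds hlim
    (fun _ => norm_nonneg _) (fun p => ?_)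
  have e1 : A (f p) (h p) - A (f p0) (h p0)
      = A (f p) (h p - h p0) + (A (f p) (h p0) - A (f p0) (h p0)) := by
    rw [map_sub]; abel
  change ‖A (f p) (h p) - A (f p0) (h p0)‖ ≤ _
  rw [e1]
  refine (norm_add_le _ _).trans ?_
  have h3 : ‖A (f p) (h p - h p0)‖ ≤ K * ‖h p - h p0‖ :=
    ((A (f p)).le_opNorm _).trans (mul_le_mul_of_nonneg_right (hK _) (norm_nonneg _))
  linarith

omit [DecidableEq Λ] [Countable Λ] in
private theorem qp_cont_pow {A : (Λ → ℝ) → (E →L[ℂ] E)} (hb : ∃ K, ∀ ω, ‖A ω‖ ≤ K)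
    (hc : ∀ u, Continuous fun ω => A ω u) (n : ℕ) (u : E) :
    Continuous fun ω => (A ω ^ n) u := by
  induction n with
  | zero => exact continuous_const
  | succ n ih =>
    have h1 : (fun ω => (A ω ^ (n + 1)) u) = fun ω => A ω ((A ω ^ n) u) := by
      funext ω
      rw [pow_succ']
      rfl
    rw [h1]
    exact qp_cont_apply hb hc continuous_id ih

omit [DecidableEq Λ] [Countable Λ] in
private theorem qp_cont_Ut {A : (Λ → ℝ) → (E →L[ℂ] E)} (hb : ∃ K, ∀ ω, ‖A ω‖ ≤ K)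
    (hc : ∀ u, Continuous fun ω => A ω u) (u : E) :
    Continuous fun p : ℝ × (Λ → ℝ) => qp_W (A p.2) p.1 u := by
  obtain ⟨K, hK⟩ := hb
  have hK0 : 0 ≤ K := (norm_nonneg _).trans (hK (fun _ => 0))
  rw [continuous_iff_continuousAt]
  intro p0
  set R : ℝ := |p0.1| + 1 with hR
  set s : Set (ℝ × (Λ → ℝ)) := {p | |p.1| < R} with hs
  have hso : IsOpen s := isOpen_lt (continuous_abs.comp continuous_fst) continuous_const
  have hp0 : p0 ∈ s := by
    change |p0.1| < R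
    rw [hR]; linarith
  have hterm : ∀ p : ℝ × (Λ → ℝ), qp_W (A p.2) p.1 u
      = ∑' n : ℕ, ((n.factorial : ℂ))⁻¹ • ((-((p.1 : ℝ) : ℂ) * I) ^ n • (A p.2 ^ n) u) := by
    intro p
    have h1 := (cov_hasSum_exp ((-((p.1 : ℝ) : ℂ) * I) • A p.2) u).tsum_eq
    unfold qp_W
    rw [← h1]
    refine tsum_congr fun n => ?_
    rw [smul_pow]
    rfl
  have hcs : ContinuousOn (fun p : ℝ × (Λ → ℝ) => ∑' n : ℕ, ((n.factorial : ℂ))⁻¹ •
      ((-((p.1 : ℝ) : ℂ) * I) ^ n • (A p.2 ^ n) u)) s := by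
    refine continuousOn_tsum (u := fun n : ℕ => (R * K) ^ n / (n.factorial : ℝ) * ‖u‖) ?_ ?_ ?_
    · intro n
      refine Continuous.continuousOn ?_
      have h1 : Continuous fun p : ℝ × (Λ → ℝ) => (A p.2 ^ n) u :=
        (qp_cont_pow ⟨K, hK⟩ hc n u).comp continuous_snd
      have h2 : Continuous fun p : ℝ × (Λ → ℝ) => (-((p.1 : ℝ) : ℂ) * I) ^ n := by fun_prop
      exact (h2.smul h1).const_smul _
    · exact (Real.summable_pow_div_factorial (R * K)).mul_right ‖u‖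
    · intro n p hp
      have hp1 : |p.1| ≤ R := le_of_lt hp
      have hR0 : 0 ≤ R := (abs_nonneg _).trans hp1
      rw [norm_smul, norm_smul, norm_inv, Complex.norm_natCast, norm_pow, norm_mul, norm_neg,
        Complex.norm_real, Complex.norm_I, mul_one, Real.norm_eq_abs]
      have h3 := cov_norm_pow_apply_le (A p.2) (hK p.2) n u
      calc ((n.factorial : ℝ))⁻¹ * (|p.1| ^ n * ‖(A p.2 ^ n) u‖)
          ≤ ((n.factorial : ℝ))⁻¹ * (R ^ n * (K ^ n * ‖u‖)) := by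
            refine mul_le_mul_of_nonneg_left ?_ (by positivity)
            exact mul_le_mul (pow_le_pow_left₀ (abs_nonneg _) hp1 n) h3 (norm_nonneg _)
              (by positivity)
        _ = (R * K) ^ n / (n.factorial : ℝ) * ‖u‖ := by rw [mul_pow, div_eq_inv_mul]; ring
  have hca := hcs.continuousAt (hso.mem_nhds hp0)
  exact hca.congr (Eventually.of_forall fun p => (hterm p).symm)

omit [DecidableEq Λ] [Countable Λ] in
private theorem qp_deriv (A : (Λ → ℝ) → (E →L[ℂ] E)) (ω : Λ → ℝ) (u : E) (s : ℝ) :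
    HasDerivAt (fun s => qp_W (A ω) s u) (-I • A ω (qp_W (A ω) s u)) s :=
  ((ContinuousLinearMap.apply ℂ E u).restrictScalars
    ℝ).hasFDerivAt.comp_hasDerivAt s (qp_hasDerivAt_W (A ω) s)

end gen

/-! ### The dissipative semigroup -/

/-- the rank one operator -/
private noncomputable def qp_rk (u : E) : E →L[ℂ] E := (innerSL ℂ u).smulRight u

/-- the dissipative generator -/
private noncomputable def qp_A (H : (Λ → ℝ) → (E →L[ℂ] E)) (b : E) (ω : Λ → ℝ) : E →L[ℂ] E :=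
  H ω - I • qp_rk b

omit [DecidableEq Λ] [Countable Λ] [CompleteSpace E] in
private theorem qp_A_apply (b : E) (ω : Λ → ℝ) (v : E) :
    qp_A H b ω v = H ω v - I • ⟪b, v⟫_ℂ • b := rfl

omit [DecidableEq Λ] [Countable Λ] [CompleteSpace E] in
private theorem qp_A_bdd (hK : ∃ K, ∀ ω, ‖H ω‖ ≤ K) (b : E) : ∃ K, ∀ ω, ‖qp_A H b ω‖ ≤ K := by
  obtain ⟨K, hK⟩ := hK
  exact ⟨K + ‖I • qp_rk b‖, fun ω => (norm_sub_le _ _).trans (by linarith [hK ω])⟩

omit [DecidableEq Λ] [Countable Λ] [CompleteSpace E] in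
private theorem qp_A_cont (hc : ∀ u, Continuous fun ω => H ω u) (b : E) (u : E) :
    Continuous fun ω => qp_A H b ω u := by
  simp only [qp_A_apply]
  exact (hc u).sub continuous_const

omit [DecidableEq Λ] [Countable Λ] in
/-- the derivative of the squared norm -/
private theorem qp_deriv_sq {ω : Λ → ℝ} (hH : IsSelfAdjoint (H ω)) (b u : E) (s : ℝ) :
    HasDerivAt (fun s => ‖qp_W (qp_A H b ω) s u‖ ^ 2)
      (-2 * ‖⟪b, qp_W (qp_A H b ω) s u⟫_ℂ‖ ^ 2) s := by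
  have h1 := qp_deriv (qp_A H b) ω u s
  have h2 := h1.inner ℂ h1
  have h3 := Complex.reCLM.hasFDerivAt.comp_hasDerivAt s h2
  have h4 : (fun s => ‖qp_W (qp_A H b ω) s u‖ ^ 2) =
      (fun s => Complex.reCLM ⟪qp_W (qp_A H b ω) s u, qp_W (qp_A H b ω) s u⟫_ℂ) := by
    funext s
    have := inner_self_eq_norm_sq (𝕜 := ℂ) (qp_W (qp_A H b ω) s u)
    rw [← this]
    rfl
  rw [h4]
  refine HasDerivAt.congr_deriv h3 ?_
  set v := qp_W (qp_A H b ω) s u with hv
  rw [Complex.reCLM_apply, Complex.add_re]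
  have e1 : (⟪-I • qp_A H b ω v, v⟫_ℂ).re = (⟪v, -I • qp_A H b ω v⟫_ℂ).re := by
    rw [← inner_conj_symm, Complex.conj_re]
  rw [e1, inner_smul_right, qp_A_apply, inner_sub_right, inner_smul_right, inner_smul_right]
  have e2 : ⟪b, v⟫_ℂ * ⟪v, b⟫_ℂ = ((‖⟪b, v⟫_ℂ‖ ^ 2 : ℝ) : ℂ) := by
    rw [← inner_conj_symm v b, Complex.mul_conj, Complex.normSq_eq_norm_sq]
  rw [e2]
  have e3 := im_inner_sa hH v
  set q : ℝ := ‖⟪b, v⟫_ℂ‖ ^ 2
  have e4 : (-I * (⟪v, H ω v⟫_ℂ - I * (q : ℂ))).re = (⟪v, H ω v⟫_ℂ).im - q := by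
    have e5 : -I * (⟪v, H ω v⟫_ℂ - I * (q : ℂ)) = -(I * ⟪v, H ω v⟫_ℂ) - (q : ℂ) := by
      linear_combination (q : ℂ) * Complex.I_mul_I
    rw [e5, Complex.sub_re, Complex.neg_re, Complex.I_mul_re, Complex.ofReal_re]
    ring
  rw [e4, e3]
  ring

omit [DecidableEq Λ] [Countable Λ] in
private theorem qp_cont_s (ω : Λ → ℝ) (b u : E) :
    Continuous fun s : ℝ => qp_W (qp_A H b ω) s u :=
  continuous_iff_continuousAt.2 fun s => (qp_deriv (qp_A H b) ω u s).continuousAt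

omit [DecidableEq Λ] [Countable Λ] in
/-- the energy identity -/
private theorem qp_energy {ω : Λ → ℝ} (hH : IsSelfAdjoint (H ω)) (b u : E) (S : ℝ) :
    2 * ∫ s in (0:ℝ)..S, ‖⟪b, qp_W (qp_A H b ω) s u⟫_ℂ‖ ^ 2 =
      ‖u‖ ^ 2 - ‖qp_W (qp_A H b ω) S u‖ ^ 2 := by
  have hc : Continuous fun s : ℝ => ‖⟪b, qp_W (qp_A H b ω) s u⟫_ℂ‖ ^ 2 :=
    ((continuous_const.inner (qp_cont_s ω b u)).norm).pow 2
  have h1 := intervalIntegral.integral_eq_sub_of_hasDerivAt (a := 0) (b := S)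
    (fun s _ => qp_deriv_sq hH b u s) ((hc.const_mul (-2)).intervalIntegrable _ _)
  rw [intervalIntegral.integral_const_mul, qp_W_zero] at h1
  have h2 : ‖(1 : E →L[ℂ] E) u‖ = ‖u‖ := rfl
  rw [h2] at h1
  linarith

omit [DecidableEq Λ] [Countable Λ] in
private theorem qp_norm_le {ω : Λ → ℝ} (hH : IsSelfAdjoint (H ω)) (b u : E) {S : ℝ} (hS : 0 ≤ S) :
    ‖qp_W (qp_A H b ω) S u‖ ≤ ‖u‖ := by
  have h1 := qp_energy hH b u S
  have h2 : 0 ≤ ∫ s in (0:ℝ)..S, ‖⟪b, qp_W (qp_A H b ω) s u⟫_ℂ‖ ^ 2 :=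
    intervalIntegral.integral_nonneg hS fun s _ => by positivity
  exact (sq_le_sq₀ (norm_nonneg _) (norm_nonneg _)).1 (by linarith)

omit [DecidableEq Λ] [Countable Λ] in
/-- the square function -/
private theorem qp_int_sq {ω : Λ → ℝ} (hH : IsSelfAdjoint (H ω)) (b : E) (hb : ‖b‖ = 1) :
    IntegrableOn (fun s => ‖⟪b, qp_W (qp_A H b ω) s b⟫_ℂ‖ ^ 2) (Ioi 0) ∧
    ∫ s in Ioi (0:ℝ), ‖⟪b, qp_W (qp_A H b ω) s b⟫_ℂ‖ ^ 2 ≤ 1 / 2 := by
  have hc : Continuous fun s : ℝ => ‖⟪b, qp_W (qp_A H b ω) s b⟫_ℂ‖ ^ 2 :=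
    ((continuous_const.inner (qp_cont_s ω b b)).norm).pow 2
  have hle : ∀ S : ℝ, ∫ s in (0:ℝ)..S, ‖⟪b, qp_W (qp_A H b ω) s b⟫_ℂ‖ ^ 2 ≤ 1 / 2 := by
    intro S
    have h1 := qp_energy hH b b S
    rw [hb] at h1
    have : 0 ≤ ‖qp_W (qp_A H b ω) S b‖ ^ 2 := by positivity
    linarith
  have hint : IntegrableOn (fun s => ‖⟪b, qp_W (qp_A H b ω) s b⟫_ℂ‖ ^ 2) (Ioi 0) := by
    refine integrableOn_Ioi_of_intervalIntegral_norm_bounded (l := atTop)
      (b := fun n : ℕ => (n : ℝ)) (1 / 2) 0 (fun n => hc.integrableOn_Ioc)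
      tendsto_natCast_atTop_atTop (Eventually.of_forall fun n => ?_)
    simp_rw [Real.norm_of_nonneg (sq_nonneg _)]
    exact hle n
  exact ⟨hint, le_of_tendsto' (intervalIntegral_tendsto_integral_Ioi 0 hint
    (tendsto_natCast_atTop_atTop (R := ℝ))) fun n => hle n⟩

omit [DecidableEq Λ] [Countable Λ] in
/-- the Laplace transform -/
private theorem qp_laplace {ω : Λ → ℝ} (hH : IsSelfAdjoint (H ω)) (b : E) (hb : ‖b‖ = 1)
    (x η : ℝ) (hη : 0 < η) :
    ∃ v : E, ⟪b, v⟫_ℂ = ∫ s in Ioi (0:ℝ), cexp ((I * (x : ℂ) - (η : ℂ)) * (s : ℂ)) *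
        (I * ⟪b, qp_W (qp_A H b ω) s b⟫_ℂ) ∧
      qp_A H b ω v - (⟨x, η⟩ : ℂ) • v = b := by
  set w : ℂ := I * (x : ℂ) - (η : ℂ) with hw
  let F : ℝ → E := fun s => cexp (w * (s : ℂ)) • qp_W (qp_A H b ω) s b
  have hFn : ∀ s : ℝ, 0 ≤ s → ‖F s‖ ≤ Real.exp (-η * s) := by
    intro s hs
    show ‖cexp (w * (s : ℂ)) • qp_W (qp_A H b ω) s b‖ ≤ _
    rw [norm_smul, Complex.norm_exp]
    have h1 : (w * (s : ℂ)).re = -η * s := by
      simp [hw]
    rw [h1]
    have h2 := qp_norm_le hH b b hs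
    rw [hb] at h2
    calc Real.exp (-η * s) * ‖qp_W (qp_A H b ω) s b‖ ≤ Real.exp (-η * s) * 1 :=
          mul_le_mul_of_nonneg_left h2 (Real.exp_pos _).le
      _ = _ := mul_one _
  have hFc : Continuous F := by
    have h1 : Continuous fun s : ℝ => cexp (w * (s : ℂ)) := by fun_prop
    exact h1.smul (qp_cont_s ω b b)
  have hFi : IntegrableOn F (Ioi 0) := by
    refine Integrable.mono' (exp_neg_integrableOn_Ioi 0 hη) hFc.aestronglyMeasurable ?_
    rw [ae_restrict_iff' measurableSet_Ioi]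
    exact ae_of_all _ fun s hs => hFn s (le_of_lt hs)
  let L : E →L[ℂ] E := w • (1 : E →L[ℂ] E) + (-I) • qp_A H b ω
  have hFd : ∀ s : ℝ, HasDerivAt F (L (F s)) s := by
    intro s
    have h1 : HasDerivAt (fun s : ℝ => cexp (w * (s : ℂ))) (w * cexp (w * (s : ℂ))) s := by
      have h2 : HasDerivAt (fun s : ℝ => w * (s : ℂ)) w s := by
        simpa using (Complex.ofRealCLM.hasDerivAt (x := s)).const_mul w
      have := h2.cexp
      rwa [mul_comm] at this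
    have h3 := h1.smul (qp_deriv (qp_A H b) ω b s)
    refine h3.congr_deriv ?_
    show _ = w • (cexp (w * (s : ℂ)) • qp_W (qp_A H b ω) s b) +
      (-I) • qp_A H b ω (cexp (w * (s : ℂ)) • qp_W (qp_A H b ω) s b)
    rw [map_smul]
    module
  have hF'i : IntegrableOn (fun s => L (F s)) (Ioi 0) := L.integrable_comp hFi
  have hlim : Tendsto F atTop (𝓝 0) := by
    refine squeeze_zero_norm' (a := fun s => Real.exp (-η * s)) ?_ ?_
    · filter_upwards [eventually_ge_atTop 0] with s hs using hFn s hs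
    · have : Tendsto (fun s : ℝ => -η * s) atTop atBot :=
        tendsto_id.const_mul_atTop_of_neg (by linarith)
      exact Real.tendsto_exp_atBot.comp this
  have hI := integral_Ioi_of_hasDerivAt_of_tendsto' (a := 0) (m := 0) (fun s _ => hFd s) hF'i hlim
  rw [L.integral_comp_comm hFi] at hI
  have hF0 : F 0 = b := by
    show cexp (w * ((0:ℝ) : ℂ)) • qp_W (qp_A H b ω) 0 b = b
    rw [qp_W_zero, Complex.ofReal_zero, mul_zero, Complex.exp_zero, one_smul]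
    rfl
  rw [hF0, zero_sub] at hI
  refine ⟨I • ∫ s in Ioi (0:ℝ), F s, ?_, ?_⟩
  · rw [inner_smul_right, ← integral_inner hFi, ← integral_const_mul]
    refine integral_congr_ae (ae_of_all _ fun s => ?_)
    show I * ⟪b, cexp (w * (s : ℂ)) • qp_W (qp_A H b ω) s b⟫_ℂ = _
    rw [inner_smul_right]
    ring
  · set V := ∫ s in Ioi (0:ℝ), F s
    have h1 : w • V + (-I) • qp_A H b ω V = -b := hI
    have hz : w = I * (⟨x, η⟩ : ℂ) := by
      apply Complex.ext <;> simp [hw]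
    rw [map_smul]
    have h2 : I • qp_A H b ω V - (⟨x, η⟩ : ℂ) • I • V = -(w • V + (-I) • qp_A H b ω V) := by
      rw [hz]
      module
    rw [h2, h1, neg_neg]

theorem diss (M : Model c e H) (hK : ∃ K, ∀ ω, ‖H ω‖ ≤ K) (o : Λ) :
    ∃ φ : ℝ → (Λ → ℝ) → ℂ, Measurable (Function.uncurry φ) ∧ (∀ s ω, ‖φ s ω‖ ≤ 1) ∧
      (∀ ω, IntegrableOn (fun s => ‖φ s ω‖ ^ 2) (Ioi 0)) ∧
      (∀ ω, ∫ s in Ioi (0:ℝ), ‖φ s ω‖ ^ 2 ≤ 1 / 2) ∧
      ∀ ω (x η : ℝ), 0 < η → gg e H ω (⟨x, η⟩ : ℂ) o o = lap φ η x ω := by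
  have hb : ‖e o‖ = 1 := M.ortho.1 o
  let φ : ℝ → (Λ → ℝ) → ℂ := fun s ω =>
    if 0 < s then I * ⟪e o, qp_W (qp_A H (e o) ω) s (e o)⟫_ℂ else 0
  have hφ : ∀ s : ℝ, 0 < s → ∀ ω, φ s ω = I * ⟪e o, qp_W (qp_A H (e o) ω) s (e o)⟫_ℂ :=
    fun s hs ω => if_pos hs
  have hφn : ∀ s : ℝ, 0 < s → ∀ ω,
      ‖φ s ω‖ = ‖⟪e o, qp_W (qp_A H (e o) ω) s (e o)⟫_ℂ‖ := by
    intro s hs ω
    rw [hφ s hs, norm_mul, Complex.norm_I, one_mul]
  refine ⟨φ, ?_, ?_, ?_, ?_, ?_⟩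
  · have h1 : Continuous fun p : ℝ × (Λ → ℝ) =>
        I * ⟪e o, qp_W (qp_A H (e o) p.2) p.1 (e o)⟫_ℂ :=
      continuous_const.mul (continuous_const.inner
        (qp_cont_Ut (qp_A_bdd hK _) (qp_A_cont M.cont _) _))
    exact Measurable.ite (measurableSet_lt measurable_const measurable_fst) h1.measurable
      measurable_const
  · intro s ω
    by_cases hs : 0 < s
    · rw [hφn s hs]
      refine (norm_inner_le_norm _ _).trans ?_
      have := qp_norm_le (M.sa ω) (e o) (e o) hs.le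
      rw [hb] at this
      rw [hb, one_mul]
      exact this
    · have : φ s ω = 0 := if_neg hs
      rw [this, norm_zero]
      exact zero_le_one
  · intro ω
    refine (qp_int_sq (M.sa ω) (e o) hb).1.congr_fun ?_ measurableSet_Ioi
    intro s hs
    show _ = ‖φ s ω‖ ^ 2
    rw [hφn s hs]
  · intro ω
    have h1 : ∫ s in Ioi (0:ℝ), ‖φ s ω‖ ^ 2 =
        ∫ s in Ioi (0:ℝ), ‖⟪e o, qp_W (qp_A H (e o) ω) s (e o)⟫_ℂ‖ ^ 2 := by
      refine setIntegral_congr_fun measurableSet_Ioi fun s hs => ?_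
      show ‖φ s ω‖ ^ 2 = _
      rw [hφn s hs]
    rw [h1]
    exact (qp_int_sq (M.sa ω) (e o) hb).2
  · intro ω x η hη
    obtain ⟨v, hv1, hv2⟩ := qp_laplace (M.sa ω) (e o) hb x η hη
    have h1 : lap φ η x ω = ⟪e o, v⟫_ℂ := by
      rw [hv1]
      unfold lap
      refine setIntegral_congr_fun measurableSet_Ioi fun s hs => ?_
      show cexp ((I * (x : ℂ) - (η : ℂ)) * (s : ℂ)) * φ s ω = _
      rw [hφ s hs]
    rw [h1]
    set z : ℂ := ⟨x, η⟩ with hz
    have hzi : 0 < z.im := hη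
    set q := ⟪e o, v⟫_ℂ with hq
    rw [qp_A_apply, ← hq] at hv2
    have h2 : H ω v = e o + z • v + I • q • e o := by
      rw [sub_sub, sub_eq_iff_eq_add] at hv2
      rw [hv2]
      abel
    have h3 := Rv_H_apply (M.sa ω) hzi.ne' v
    rw [h2, map_add, map_add, map_smul, map_smul, map_smul] at h3
    have h4 : v = Rv (H ω) z (e o) + I • q • Rv (H ω) z (e o) := by
      have : Rv (H ω) z (e o) + z • Rv (H ω) z v + I • q • Rv (H ω) z (e o) -
        z • Rv (H ω) z v = v := by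
        rw [h3]
        abel
      rw [← this]
      abel
    have h5 : q = Gr e H ω z o o + I * (q * Gr e H ω z o o) := by
      have h6 := congrArg (fun u => ⟪e o, u⟫_ℂ) h4
      simp only [inner_add_right, inner_smul_right] at h6
      exact h6
    unfold gg
    rw [div_eq_iff (M.den_ne ω hzi o)]
    unfold den
    linear_combination (-1 : ℂ) * h5

end Pool.Agent.Lib.MP_562b47_mp.QP
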