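import Mathlib
import Pool.Agent.Lib.MP_562b47_mp.QP.Defs

/-!
QuantumPolya (MP_562b47_mp), module Flip: the digit flips.

Put x_k = (v + c) / len c k (so x_k ∈ [0, 2^(k+1)) iff v ∈ [-c, c)), m_k = ⌊x_k⌋, len c k = c/2^k.

(1) `v ∈ [-c,c)`: `flp c k v = v ± len c k` with + iff m_k is even.  If m_k is even then
x_k + 1 ∈ [m_k + 1, m_k + 2) and m_k + 2 ≤ 2^(k+1) (parity), if m_k is odd then x_k - 1 ≥ 0.  So
`flp` maps [-c,c) to itself, m_k(flp v) = m_k ± 1, the sign changes, and `flp (flp v) = v`.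
Outside of [-c,c): sgn = 0, flp v = v, everything is trivial.

(2) `sgn_flp_ne`, v ∈ [-c,c), j ≠ k.  If j < k: len c j = 2^(k-j) len c k, so x_k changes by the
EVEN integer ± 2^(k-j), the parity of the floor does not change.  If j > k: m_j changes from m_j to
m_j ± 1 = the other element of {2r, 2r+1}, r = ⌊m_j/2⌋; and m_k = ⌊x_j / 2^(j-k)⌋ = ⌊m_j / 2^(j-k)⌋
(floor of division by a natural number, `Int.floor_div_natCast` or similar / `Nat.floor_div_natCast`)
= ⌊r / 2^(j-k-1)⌋ does not change.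

(3) `flp_comm`: for j ≠ k both sides are `v + sgn j v * len j + sgn k v * len k` by (2); j = k trivial.

(4) `mp_flp`: flp is a measurable involution; it preserves `volume`: for measurable s,
flp⁻¹ s = (s ∩ [-c,c)ᶜ) ∪ ((s ∩ D1) - len) ∪ ((s ∩ D0) + len), with D0, D1 = the sets of v ∈ [-c,c)
with even, odd floor (flp maps D0 onto D1 by the translation + len, D1 onto D0 by - len); disjoint
unions, translations preserve volume.  As flp⁻¹ (Icc (-c) c) = Icc (-c) c (flp fixes c), the
restriction to Icc and the multiple `unif c` are preserved too.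

(5) `flips_sg`: `mp`: Let ω ~ PP and v ~ unif c be independent.  By `measurePreserving_upd` (Prod.lean)
`update ω x v` has law PP; `sg c (x,k) (update ω x v) = update ω x (flp c k v)` and
(ω, v) ↦ (ω, flp c k v) preserves PP × unif (`MeasurePreserving.prod`, or `map_prod_map`), so
map (sg) PP = map (sg ∘ upd) (PP × unif) = map (upd ∘ (id × flp)) (PP × unif) = PP.
`inv`, `comm`: `Function.update_idem`, `update_comm`, (1), (3).
(6) `clp_sg`: clp is the identity on Icc (-c) c.
-/

open MeasureTheory Set Filter Topology Complex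
open scoped Real ENNReal NNReal InnerProductSpace

namespace Pool.Agent.Lib.MP_562b47_mp.QP

theorem len_pos {c : ℝ} (hc : 0 < c) (k : ℕ) : 0 < len c k := by
  unfold len; positivity

theorem len_succ (c : ℝ) (k : ℕ) : len c (k + 1) = len c k / 2 := by
  unfold len; rw [pow_succ]; field_simp

/-- the position of `v` in the cells of level `k` -/
private noncomputable def qp_x (c : ℝ) (k : ℕ) (v : ℝ) : ℝ := (v + c) / len c k

private theorem qp_x_nonneg {c : ℝ} (hc : 0 < c) (k : ℕ) (v : ℝ) : 0 ≤ qp_x c k v ↔ -c ≤ v := by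
  unfold qp_x
  rw [le_div_iff₀ (len_pos hc k), zero_mul]
  constructor <;> intro h <;> linarith

private theorem qp_x_lt {c : ℝ} (hc : 0 < c) (k : ℕ) (v : ℝ) :
    qp_x c k v < 2 ^ (k + 1) ↔ v < c := by
  unfold qp_x
  rw [div_lt_iff₀ (len_pos hc k)]
  have h : (2 : ℝ) ^ (k + 1) * len c k = 2 * c := by
    unfold len
    rw [pow_succ]
    field_simp
  rw [h]
  constructor <;> intro h <;> linarith

private theorem qp_x_flp {c : ℝ} (hc : 0 < c) (k : ℕ) (v : ℝ) :
    qp_x c k (flp c k v) = qp_x c k v + sgn c k v := by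
  unfold qp_x flp
  have := (len_pos hc k).ne'
  field_simp
  ring

private theorem qp_sgn {c : ℝ} (k : ℕ) (v : ℝ) :
    sgn c k v = if v ∈ Ico (-c) c then (if Even ⌊qp_x c k v⌋ then 1 else -1) else 0 := rfl

private theorem qp_sgn_even {c : ℝ} (k : ℕ) {v : ℝ} (hv : v ∈ Ico (-c) c)
    (h : Even ⌊qp_x c k v⌋) : sgn c k v = 1 := by
  rw [qp_sgn, if_pos hv, if_pos h]

private theorem qp_sgn_odd {c : ℝ} (k : ℕ) {v : ℝ} (hv : v ∈ Ico (-c) c)
    (h : ¬ Even ⌊qp_x c k v⌋) : sgn c k v = -1 := by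
  rw [qp_sgn, if_pos hv, if_neg h]

theorem abs_sgn_le (c : ℝ) (k : ℕ) (v : ℝ) : |sgn c k v| ≤ 1 := by
  unfold sgn
  split_ifs <;> norm_num

theorem abs_sgn {c : ℝ} (k : ℕ) {v : ℝ} (hv : v ∈ Ico (-c) c) : |sgn c k v| = 1 := by
  unfold sgn
  rw [if_pos hv]
  split_ifs <;> norm_num

theorem sgn_of_notMem {c : ℝ} (k : ℕ) {v : ℝ} (hv : v ∉ Ico (-c) c) : sgn c k v = 0 := by
  unfold sgn
  rw [if_neg hv]

private theorem qp_flp_out {c : ℝ} (k : ℕ) {v : ℝ} (hv : v ∉ Ico (-c) c) : flp c k v = v := by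
  unfold flp
  rw [sgn_of_notMem k hv, zero_mul, add_zero]

private theorem qp_flp_in {c : ℝ} (hc : 0 < c) (k : ℕ) {v : ℝ} (hv : v ∈ Ico (-c) c) :
    flp c k v ∈ Ico (-c) c := by
  have h0 : 0 ≤ qp_x c k v := (qp_x_nonneg hc k v).2 hv.1
  have h1 : qp_x c k v < 2 ^ (k + 1) := (qp_x_lt hc k v).2 hv.2
  have h2 := Int.floor_le (qp_x c k v)
  have h3 := Int.lt_floor_add_one (qp_x c k v)
  have h4 : 0 ≤ ⌊qp_x c k v⌋ := Int.floor_nonneg.2 h0
  have h5 : ⌊qp_x c k v⌋ < 2 ^ (k + 1) := by
    rw [Int.floor_lt]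
    push_cast
    exact h1
  rw [mem_Ico, ← qp_x_nonneg hc k, ← qp_x_lt hc k, qp_x_flp hc]
  by_cases he : Even ⌊qp_x c k v⌋
  · rw [qp_sgn_even k hv he]
    refine ⟨by linarith, ?_⟩
    have h6 : ⌊qp_x c k v⌋ + 2 ≤ 2 ^ (k + 1) := by
      obtain ⟨r, hr⟩ := he
      rw [pow_succ] at h5 ⊢
      omega
    have h7 : ((⌊qp_x c k v⌋ : ℤ) : ℝ) + 2 ≤ 2 ^ (k + 1) := by exact_mod_cast h6
    linarith
  · rw [qp_sgn_odd k hv he]
    refine ⟨?_, by linarith⟩
    have h6 : 1 ≤ ⌊qp_x c k v⌋ := by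
      rw [Int.not_even_iff_odd] at he
      obtain ⟨r, hr⟩ := he
      omega
    have h7 : (1 : ℝ) ≤ ((⌊qp_x c k v⌋ : ℤ) : ℝ) := by exact_mod_cast h6
    linarith

theorem sgn_flp_self {c : ℝ} (hc : 0 < c) (k : ℕ) (v : ℝ) : sgn c k (flp c k v) = -sgn c k v := by
  by_cases hv : v ∈ Ico (-c) c
  · have hv' := qp_flp_in hc k hv
    by_cases he : Even ⌊qp_x c k v⌋
    · have h1 : ⌊qp_x c k (flp c k v)⌋ = ⌊qp_x c k v⌋ + 1 := by
        rw [qp_x_flp hc, qp_sgn_even k hv he, Int.floor_add_one]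
      have h2 : ¬ Even ⌊qp_x c k (flp c k v)⌋ := by
        rw [h1, Int.not_even_iff_odd]
        exact he.add_one
      rw [qp_sgn_odd k hv' h2, qp_sgn_even k hv he]
    · have h1 : ⌊qp_x c k (flp c k v)⌋ = ⌊qp_x c k v⌋ - 1 := by
        rw [qp_x_flp hc, qp_sgn_odd k hv he, ← sub_eq_add_neg, Int.floor_sub_one]
      have h2 : Even ⌊qp_x c k (flp c k v)⌋ := by
        rw [h1]
        rw [Int.not_even_iff_odd] at he
        exact he.sub_odd odd_one
      rw [qp_sgn_even k hv' h2, qp_sgn_odd k hv he, neg_neg]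
  · rw [qp_flp_out k hv, sgn_of_notMem k hv, neg_zero]

theorem flp_flp {c : ℝ} (hc : 0 < c) (k : ℕ) (v : ℝ) : flp c k (flp c k v) = v := by
  have h1 : flp c k (flp c k v) = flp c k v + sgn c k (flp c k v) * len c k := rfl
  rw [h1, sgn_flp_self hc]
  unfold flp
  ring

theorem flp_mem {c : ℝ} (hc : 0 < c) (k : ℕ) (v : ℝ) :
    flp c k v ∈ Ico (-c) c ↔ v ∈ Ico (-c) c := by
  constructor
  · intro h
    rw [← flp_flp hc k v]
    exact qp_flp_in hc k h
  · exact qp_flp_in hc k

private theorem qp_len_mul {c : ℝ} {j k : ℕ} (h : j ≤ k) : len c j = 2 ^ (k - j) * len c k := by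
  unfold len
  rw [mul_div_assoc', div_eq_div_iff (by positivity) (by positivity)]
  have : (2 : ℝ) ^ k = 2 ^ (k - j) * 2 ^ j := by
    rw [← pow_add, Nat.sub_add_cancel h]
  rw [this]
  ring

theorem sgn_flp_ne {c : ℝ} (hc : 0 < c) {j k : ℕ} (hjk : j ≠ k) (v : ℝ) :
    sgn c k (flp c j v) = sgn c k v := by
  by_cases hv : v ∈ Ico (-c) c
  swap
  · rw [qp_flp_out j hv]
  have hv' := qp_flp_in hc j hv
  have key : (Even ⌊qp_x c k (flp c j v)⌋ ↔ Even ⌊qp_x c k v⌋) := by
    rcases lt_or_gt_of_ne hjk with h | h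
    · -- `j < k`
      have h1 : ∃ r : ℤ, qp_x c k (flp c j v) = qp_x c k v + ((2 * r : ℤ) : ℝ) := by
        have h2 : qp_x c k (flp c j v) = qp_x c k v + sgn c j v * 2 ^ (k - j) := by
          unfold qp_x flp
          rw [qp_len_mul h.le]
          have := (len_pos hc k).ne'
          field_simp
          ring
        have h3 : (2 : ℝ) ^ (k - j) = 2 * 2 ^ (k - j - 1) := by
          rw [← pow_succ']
          congr 1
          omega
        by_cases he : Even ⌊qp_x c j v⌋
        · refine ⟨2 ^ (k - j - 1), ?_⟩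
          rw [h2, qp_sgn_even j hv he, h3]
          push_cast
          ring
        · refine ⟨-2 ^ (k - j - 1), ?_⟩
          rw [h2, qp_sgn_odd j hv he, h3]
          push_cast
          ring
      obtain ⟨r, hr⟩ := h1
      rw [hr, Int.floor_add_intCast, Int.even_add]
      simp
    · -- `k < j`
      have h1 : ∀ w, ⌊qp_x c k w⌋ = ⌊qp_x c j w⌋ / 2 / 2 ^ (j - k - 1) := by
        intro w
        have h2 : qp_x c k w = qp_x c j w / ((2 ^ (j - k) : ℕ) : ℝ) := by
          unfold qp_x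
          rw [qp_len_mul (c := c) h.le, div_div, mul_comm]
          push_cast
          rfl
        rw [h2, Int.floor_div_natCast, Int.ediv_ediv_of_nonneg (by norm_num)]
        congr 1
        push_cast
        rw [← pow_succ']
        congr 1
        omega
      have h3 : ⌊qp_x c j (flp c j v)⌋ / 2 = ⌊qp_x c j v⌋ / 2 := by
        by_cases he : Even ⌊qp_x c j v⌋
        · rw [qp_x_flp hc, qp_sgn_even j hv he, Int.floor_add_one]
          obtain ⟨r, hr⟩ := he
          omega
        · rw [qp_x_flp hc, qp_sgn_odd j hv he, ← sub_eq_add_neg, Int.floor_sub_one]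
          rw [Int.not_even_iff_odd] at he
          obtain ⟨r, hr⟩ := he
          omega
      rw [h1, h1, h3]
  by_cases he : Even ⌊qp_x c k v⌋
  · rw [qp_sgn_even k hv he, qp_sgn_even k hv' (key.2 he)]
  · rw [qp_sgn_odd k hv he, qp_sgn_odd k hv' (fun h => he (key.1 h))]

theorem flp_comm {c : ℝ} (hc : 0 < c) (j k : ℕ) (v : ℝ) :
    flp c j (flp c k v) = flp c k (flp c j v) := by
  by_cases h : j = k
  · rw [h]
  · have h1 : flp c j (flp c k v) = flp c k v + sgn c j (flp c k v) * len c j := rfl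
    have h2 : flp c k (flp c j v) = flp c j v + sgn c k (flp c j v) * len c k := rfl
    rw [h1, h2, sgn_flp_ne hc (Ne.symm h), sgn_flp_ne hc h]
    unfold flp
    ring

theorem measurable_sgn (c : ℝ) (k : ℕ) : Measurable (sgn c k) := by
  unfold sgn
  refine Measurable.ite measurableSet_Ico (Measurable.ite ?_ measurable_const measurable_const)
    measurable_const
  have h1 : Measurable (fun v : ℝ => ⌊(v + c) / len c k⌋) :=
    Int.measurable_floor.comp ((measurable_id.add_const c).div_const _)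
  exact h1 (MeasurableSet.of_discrete (s := {m : ℤ | Even m}))

theorem measurable_flp (c : ℝ) (k : ℕ) : Measurable (flp c k) :=
  measurable_id.add ((measurable_sgn c k).mul_const _)

private theorem qp_mp_vol {c : ℝ} (hc : 0 < c) (k : ℕ) :
    MeasurePreserving (flp c k) (volume : Measure ℝ) volume := by
  refine ⟨measurable_flp c k, ?_⟩
  ext s hs
  rw [Measure.map_apply (measurable_flp c k) hs]
  set D0 : Set ℝ := {v | sgn c k v = 1} with hD0
  set D1 : Set ℝ := {v | sgn c k v = -1} with hD1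
  set D2 : Set ℝ := {v | sgn c k v = 0} with hD2
  have m0 : MeasurableSet D0 := measurable_sgn c k (measurableSet_singleton 1)
  have m1 : MeasurableSet D1 := measurable_sgn c k (measurableSet_singleton (-1))
  have m2 : MeasurableSet D2 := measurable_sgn c k (measurableSet_singleton 0)
  have hcov : ∀ v, sgn c k v = 1 ∨ sgn c k v = -1 ∨ sgn c k v = 0 := by
    intro v
    unfold sgn
    split_ifs <;> simp
  have hsplit : ∀ t : Set ℝ, MeasurableSet t →
      volume t = volume (t ∩ D0) + volume (t ∩ D1) + volume (t ∩ D2) := by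
    intro t ht
    have e : t = (t ∩ D0 ∪ t ∩ D1) ∪ t ∩ D2 := by
      ext v
      simp only [mem_union, mem_inter_iff, hD0, hD1, hD2, mem_ofPred_eq]
      have := hcov v
      tauto
    have d1 : Disjoint (t ∩ D0) (t ∩ D1) := by
      rw [Set.disjoint_left]
      rintro v ⟨_, h1⟩ ⟨_, h2⟩
      rw [hD0, mem_ofPred_eq] at h1
      rw [hD1, mem_ofPred_eq] at h2
      rw [h1] at h2
      norm_num at h2
    have d2 : Disjoint (t ∩ D0 ∪ t ∩ D1) (t ∩ D2) := by
      rw [Set.disjoint_left]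
      rintro v h1 ⟨_, h2⟩
      rw [hD2, mem_ofPred_eq] at h2
      rcases h1 with ⟨_, h1⟩ | ⟨_, h1⟩
      · rw [hD0, mem_ofPred_eq, h2] at h1
        norm_num at h1
      · rw [hD1, mem_ofPred_eq, h2] at h1
        norm_num at h1
    conv_lhs => rw [e]
    rw [measure_union d2 (ht.inter m2), measure_union d1 (ht.inter m1)]
  have e0 : flp c k ⁻¹' s ∩ D0 = (fun v => v + len c k) ⁻¹' (s ∩ D1) := by
    ext v
    simp only [mem_inter_iff, mem_preimage, hD0, hD1, mem_ofPred_eq]
    constructor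
    · rintro ⟨h1, h2⟩
      have h3 : flp c k v = v + len c k := by unfold flp; rw [h2, one_mul]
      rw [← h3]
      exact ⟨h1, by rw [sgn_flp_self hc, h2]⟩
    · rintro ⟨h1, h2⟩
      have h3 : flp c k (v + len c k) = v := by unfold flp; rw [h2]; ring
      have h4 : flp c k v = v + len c k := by
        conv_lhs => rw [← h3]
        rw [flp_flp hc]
      refine ⟨by rw [h4]; exact h1, ?_⟩
      rw [← h3, sgn_flp_self hc, h2, neg_neg]
  have e1 : flp c k ⁻¹' s ∩ D1 = (fun v => v + -len c k) ⁻¹' (s ∩ D0) := by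
    ext v
    simp only [mem_inter_iff, mem_preimage, hD0, hD1, mem_ofPred_eq]
    constructor
    · rintro ⟨h1, h2⟩
      have h3 : flp c k v = v + -len c k := by unfold flp; rw [h2]; ring
      rw [← h3]
      exact ⟨h1, by rw [sgn_flp_self hc, h2, neg_neg]⟩
    · rintro ⟨h1, h2⟩
      have h3 : flp c k (v + -len c k) = v := by unfold flp; rw [h2]; ring
      have h4 : flp c k v = v + -len c k := by
        conv_lhs => rw [← h3]
        rw [flp_flp hc]
      refine ⟨by rw [h4]; exact h1, ?_⟩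
      rw [← h3, sgn_flp_self hc, h2]
  have e2 : flp c k ⁻¹' s ∩ D2 = s ∩ D2 := by
    ext v
    simp only [mem_inter_iff, mem_preimage, hD2, mem_ofPred_eq]
    refine and_congr_left fun h2 => ?_
    have h3 : flp c k v = v := by unfold flp; rw [h2]; ring
    rw [h3]
  rw [hsplit _ (measurable_flp c k hs), e0, e1, e2, measure_preimage_add_right,
    measure_preimage_add_right, hsplit s hs, add_comm (volume (s ∩ D1))]

theorem mp_flp {c : ℝ} (hc : 0 < c) (k : ℕ) : MeasurePreserving (flp c k) (unif c) (unif c) := by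
  unfold unif
  refine MeasurePreserving.smul_measure ?_ _
  have h1 := (qp_mp_vol hc k).restrict_preimage (s := Icc (-c) c) measurableSet_Icc
  have h2 : flp c k ⁻¹' Icc (-c) c = Icc (-c) c := by
    ext v
    rw [mem_preimage]
    by_cases hv : v ∈ Ico (-c) c
    · have h3 := qp_flp_in hc k hv
      exact ⟨fun _ => Ico_subset_Icc_self hv, fun _ => Ico_subset_Icc_self h3⟩
    · rw [qp_flp_out k hv]
  rwa [h2] at h1

variable {Λ : Type*} [DecidableEq Λ]

private theorem qp_measurable_sg (c : ℝ) (a : Λ × ℕ) :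
    Measurable (sg c a : (Λ → ℝ) → (Λ → ℝ)) := by
  refine measurable_pi_lambda _ fun y => ?_
  unfold sg
  by_cases h : y = a.1
  · subst h
    simp only [Function.update_self]
    exact (measurable_flp c a.2).comp (measurable_pi_apply _)
  · simp only [Function.update_of_ne h]
    exact measurable_pi_apply _

private theorem qp_mp_sg {c : ℝ} (hc : 0 < c) (a : Λ × ℕ) :
    MeasurePreserving (sg c a : (Λ → ℝ) → (Λ → ℝ)) (PP Λ c) (PP Λ c) := by
  have : IsProbabilityMeasure (unif c) := unif_prob hc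
  have hU : MeasurePreserving (fun p : (Λ → ℝ) × ℝ => Function.update p.1 a.1 p.2)
      ((PP Λ c).prod (unif c)) (PP Λ c) := measurePreserving_upd (Λ := Λ) (unif c) a.1
  have : IsProbabilityMeasure (PP Λ c) := by unfold PP; infer_instance
  have hV : MeasurePreserving (Prod.map id (flp c a.2) : (Λ → ℝ) × ℝ → (Λ → ℝ) × ℝ)
      ((PP Λ c).prod (unif c)) ((PP Λ c).prod (unif c)) :=
    (MeasurePreserving.id (PP Λ c)).prod (mp_flp hc a.2)
  refine ⟨qp_measurable_sg c a, ?_⟩
  have h1 : (sg c a : (Λ → ℝ) → (Λ → ℝ)) ∘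
      (fun p : (Λ → ℝ) × ℝ => Function.update p.1 a.1 p.2) =
      (fun p : (Λ → ℝ) × ℝ => Function.update p.1 a.1 p.2) ∘
        (Prod.map id (flp c a.2) : (Λ → ℝ) × ℝ → (Λ → ℝ) × ℝ) := by
    funext p
    simp only [Function.comp_apply, sg, Function.update_self, Function.update_idem, Prod.map,
      id_eq]
  have h2 := hU.comp hV
  rw [← h1] at h2
  have h3 := h2.map_eq
  rw [← Measure.map_map (qp_measurable_sg c a) hU.measurable, hU.map_eq] at h3
  exact h3

theorem flips_sg {c : ℝ} (hc : 0 < c) :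
    Flips (PP Λ c) (sg c : Λ × ℕ → (Λ → ℝ) → (Λ → ℝ)) := by
  refine ⟨qp_mp_sg hc, fun a ω => ?_, fun a b ω => ?_⟩
  · unfold sg
    rw [Function.update_self, Function.update_idem, flp_flp hc, Function.update_eq_self]
  · unfold sg
    by_cases h : a.1 = b.1
    · rw [h, Function.update_self, Function.update_idem, Function.update_self,
        Function.update_idem, flp_comm hc]
    · rw [Function.update_of_ne h, Function.update_of_ne (Ne.symm h), Function.update_comm h]

theorem abs_sn_le (c : ℝ) (a : Λ × ℕ) (ω : Λ → ℝ) : |sn c a ω| ≤ 1 := abs_sgn_le _ _ _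

theorem sn_sg_ne {c : ℝ} (hc : 0 < c) {a b : Λ × ℕ} (hab : b ≠ a) (ω : Λ → ℝ) :
    sn c a (sg c b ω) = sn c a ω := by
  unfold sn sg
  by_cases h : a.1 = b.1
  · have h2 : b.2 ≠ a.2 := fun h3 => hab (Prod.ext h.symm h3)
    rw [h, Function.update_self, sgn_flp_ne hc h2]
  · rw [Function.update_of_ne h]

theorem measurable_sn (c : ℝ) (a : Λ × ℕ) : Measurable (sn c a : (Λ → ℝ) → ℝ) :=
  (measurable_sgn c a.2).comp (measurable_pi_apply _)

/-- the change of the clamped potential -/
theorem clp_sg {c : ℝ} (hc : 0 < c) (a : Λ × ℕ) (ω : Λ → ℝ) :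
    clp c (flp c a.2 (ω a.1)) - clp c (ω a.1) = sn c a ω * len c a.2 := by
  unfold sn
  by_cases hv : ω a.1 ∈ Ico (-c) c
  · rw [clp_of_mem (Ico_subset_Icc_self (qp_flp_in hc a.2 hv)),
      clp_of_mem (Ico_subset_Icc_self hv)]
    unfold flp
    ring
  · rw [qp_flp_out a.2 hv, sgn_of_notMem a.2 hv]
    ring

end Pool.Agent.Lib.MP_562b47_mp.QP
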