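import Mathlib
import Pool.Agent.Lib.MP_562b47_mp.QP.Defs

/-!
QuantumPolya (MP_562b47_mp), module Green: identities for the dissipative Green function
Gt e H o ω z x y = ⟪δ_x, (H - i|δ_o⟩⟨δ_o| - z)⁻¹ δ_y⟫ = G_xy + i G_xo G_oy / (1 - i G_oo).

Convenient: define privately the operator R̃ u = Rv (H ω) z u + (I / den) ⟪e o, Rv (H ω) z u⟫ • Rv (H ω) z (e o),
den = den e H ω z o ≠ 0.  Then Gt o ω z x y = ⟪e x, R̃ (e y)⟫, and v = R̃ u satisfies
   (*)  H v - z v - I ⟪e o, v⟫ e o = u     [H_Rv_apply; ⟪e o, v⟫ = ⟪e o, R u⟫ / den].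
Everything can also be done with the explicit formula and Gr_upd, Gr_upd_mul, den_upd, Gr_symm.
`Gt_symm`: Gr_symm.  `Gt_o`: Gt o y o = gg o y: G_yo (1 + i G_oo/(1 - i G_oo)) = G_yo / (1 - i G_oo).
`gg_upd` (second resolvent identity for H̃ and H̃' = H̃ + Δ |δ_y⟩⟨δ_y|, Δ = clp v - clp (ω y)):
   gg ω' o x - gg ω o x = - Δ gg ω o y Gt ω' y x   (ω' = update ω y v).
   Check: G'_ox = G_ox - Δ G_oy G'_yx (Gr_upd with a = ., symmetric versions) and den' = den + iΔ G_oy G'_oy.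
`Gt_upd_mul`: Gt' y y (1 + Δ Gt y y) = Gt y y; `gg_upd_mul`: gg' o y (1 + Δ Gt y y) = gg o y.
`ward`: from (*) with u = e y, v = R̃ e_y: ⟪v, e y⟫ = ⟪v, H v⟫ - z ‖v‖² - I |⟪e o, v⟫|² (conj on the left slot:
   ⟪v, I ⟪e o,v⟫ e o⟫ = I ⟪e o, v⟫ ⟪v, e o⟫ = I |⟪e o, v⟫|²), imaginary part: Im ⟪v, e y⟫ = - η ‖v‖² - |⟪e o,v⟫|²,
   and Im ⟪v, e y⟫ = - Im ⟪e y, v⟫ = - Im Gt y y.  So Im Gt y y = η ‖v‖² + |⟪e o, v⟫|² ≥ η ∑_{x∈F} |⟪e x, v⟫|²
   (Bessel, Orthonormal.sum_inner_products_le) = η ∑ |Gt x y|², and Gt x y = Gt y x.  v ≠ 0 gives `im_Gt_pos`.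
`ward_gg`: η ∑_{x∈F} ‖gg o x‖² ≤ 1: gg o x = Gt o x (or ‖gg‖ = ‖G_ox‖/‖den‖, η ∑ ‖G_ox‖² ≤ Im G_oo, and
   Im G ≤ ‖1 - iG‖² since ‖1 - iG‖ ≥ 1 + Im G ≥ .. ).
`ward_G`: η ∑_{x∈F} ‖Gr o x‖² ≤ Im Gr o o: im_inner_Rv and Bessel (‖Gr o x‖ = ‖Gr x o‖, Gr_symm).
-/

open MeasureTheory Set Filter Topology Complex
open scoped Real ENNReal NNReal InnerProductSpace

namespace Pool.Agent.Lib.MP_562b47_mp.QP

variable {Λ : Type*} [DecidableEq Λ] {E : Type*} [NormedAddCommGroup E]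
  [InnerProductSpace ℂ E] [CompleteSpace E] {c : ℝ} {e : Λ → E} {H : (Λ → ℝ) → (E →L[ℂ] E)}

theorem Gt_symm (M : Model c e H) (o : Λ) (ω : Λ → ℝ) {z : ℂ} (hz : 0 < z.im) (x y : Λ) :
    Gt e H o ω z x y = Gt e H o ω z y x := by
  unfold Gt gg
  rw [M.Gr_symm ω hz x y, M.Gr_symm ω hz x o, M.Gr_symm ω hz o y]
  ring

theorem Gt_o (M : Model c e H) (o : Λ) (ω : Λ → ℝ) {z : ℂ} (hz : 0 < z.im) (y : Λ) :
    Gt e H o ω z y o = gg e H ω z o y := by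
  have hD := M.den_ne ω hz o
  have hDe : den e H ω z o = 1 - I * Gr e H ω z o o := rfl
  unfold Gt gg
  rw [M.Gr_symm ω hz y o]
  rw [eq_div_iff hD]
  have h1 : Gr e H ω z o o / den e H ω z o * den e H ω z o = Gr e H ω z o o :=
    div_mul_cancel₀ _ hD
  calc (Gr e H ω z o y + I * Gr e H ω z o y * (Gr e H ω z o o / den e H ω z o)) * den e H ω z o
      = Gr e H ω z o y * den e H ω z o
        + I * Gr e H ω z o y * (Gr e H ω z o o / den e H ω z o * den e H ω z o) := by ring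
    _ = Gr e H ω z o y * den e H ω z o + I * Gr e H ω z o y * Gr e H ω z o o := by rw [h1]
    _ = Gr e H ω z o y := by rw [hDe]; ring

/-- symmetric form of the rank one formula -/
private theorem qp_Gr_upd' (M : Model c e H) (ω : Λ → ℝ) {z : ℂ} (hz : 0 < z.im) (y : Λ) (v : ℝ)
    (a b : Λ) :
    Gr e H (Function.update ω y v) z a b = Gr e H ω z a b
      - ((clp c v - clp c (ω y) : ℝ) : ℂ) * Gr e H ω z a y
        * Gr e H (Function.update ω y v) z y b := by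
  rw [M.Gr_symm _ hz a b, M.Gr_upd ω hz y v b a, M.Gr_symm _ hz b a, M.Gr_symm ω hz y a,
    M.Gr_symm _ hz b y]

theorem gg_upd (M : Model c e H) (o : Λ) (ω : Λ → ℝ) {z : ℂ} (hz : 0 < z.im) (x y : Λ) (v : ℝ) :
    gg e H (Function.update ω y v) z o x - gg e H ω z o x
      = -((clp c v - clp c (ω y) : ℝ) : ℂ) * gg e H ω z o y
        * Gt e H o (Function.update ω y v) z y x := by
  have hD := M.den_ne ω hz o
  have hD' := M.den_ne (Function.update ω y v) hz o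
  have h1 := M.den_upd ω hz y v o
  have h2 := qp_Gr_upd' M ω hz y v o x
  have h3 := M.Gr_symm (Function.update ω y v) hz y o
  unfold Gt gg
  rw [h3]
  set D := den e H ω z o
  set D' := den e H (Function.update ω y v) z o
  set s : ℂ := ((clp c v - clp c (ω y) : ℝ) : ℂ)
  set A := Gr e H ω z o y
  set B := Gr e H (Function.update ω y v) z o y
  set X := Gr e H ω z o x
  set X' := Gr e H (Function.update ω y v) z o x
  set Y' := Gr e H (Function.update ω y v) z y x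
  have h4 : X = X' + s * A * Y' := by rw [h2]; ring
  field_simp
  rw [h4, h1]
  ring

theorem Gt_upd_mul (M : Model c e H) (o : Λ) (ω : Λ → ℝ) {z : ℂ} (hz : 0 < z.im) (y : Λ) (v : ℝ) :
    Gt e H o (Function.update ω y v) z y y
      * (1 + ((clp c v - clp c (ω y) : ℝ) : ℂ) * Gt e H o ω z y y) = Gt e H o ω z y y := by
  have hD := M.den_ne ω hz o
  have hD' := M.den_ne (Function.update ω y v) hz o
  have h1 := M.den_upd ω hz y v o
  have h2 := M.Gr_upd_mul ω hz y v y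
  have h3 := M.Gr_upd_mul ω hz y v o
  have h5 := M.one_add_ne ω hz y (clp c v - clp c (ω y))
  unfold Gt gg
  rw [M.Gr_symm (Function.update ω y v) hz y o, M.Gr_symm ω hz y o]
  set D := den e H ω z o
  set D' := den e H (Function.update ω y v) z o
  set s : ℂ := ((clp c v - clp c (ω y) : ℝ) : ℂ)
  set A := Gr e H ω z o y
  set B := Gr e H (Function.update ω y v) z o y
  set Y := Gr e H ω z y y
  set Y' := Gr e H (Function.update ω y v) z y y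
  set q : ℂ := 1 + s * Y with hq
  have e1 : Y' = Y / q := by rw [eq_div_iff h5]; exact h2
  have e2 : B = A / q := by rw [eq_div_iff h5]; exact h3
  obtain ⟨W, hW⟩ : ∃ W : ℂ, W = D * q + I * s * A ^ 2 := ⟨_, rfl⟩
  have e3 : D' = W / q := by
    rw [h1, e2, hW]; field_simp
  have e4 : W ≠ 0 := by
    intro h
    apply hD'
    rw [e3, h, zero_div]
  rw [e1, e2, e3]
  field_simp
  rw [hW, hq]
  ring

theorem gg_upd_mul (M : Model c e H) (o : Λ) (ω : Λ → ℝ) {z : ℂ} (hz : 0 < z.im) (y : Λ) (v : ℝ) :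
    gg e H (Function.update ω y v) z o y
      * (1 + ((clp c v - clp c (ω y) : ℝ) : ℂ) * Gt e H o ω z y y) = gg e H ω z o y := by
  have hD := M.den_ne ω hz o
  have hD' := M.den_ne (Function.update ω y v) hz o
  have h1 := M.den_upd ω hz y v o
  have h3 := M.Gr_upd_mul ω hz y v o
  have h5 := M.one_add_ne ω hz y (clp c v - clp c (ω y))
  unfold Gt gg
  rw [M.Gr_symm ω hz y o]
  set D := den e H ω z o
  set D' := den e H (Function.update ω y v) z o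
  set s : ℂ := ((clp c v - clp c (ω y) : ℝ) : ℂ)
  set A := Gr e H ω z o y
  set B := Gr e H (Function.update ω y v) z o y
  set Y := Gr e H ω z y y
  set q : ℂ := 1 + s * Y with hq
  have e2 : B = A / q := by rw [eq_div_iff h5]; exact h3
  obtain ⟨W, hW⟩ : ∃ W : ℂ, W = D * q + I * s * A ^ 2 := ⟨_, rfl⟩
  have e3 : D' = W / q := by
    rw [h1, e2, hW]; field_simp
  have e4 : W ≠ 0 := by
    intro h
    apply hD'
    rw [e3, h, zero_div]
  rw [e2, e3]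
  field_simp
  rw [hW, hq]
  ring

/-- the dissipative resolvent applied to `e y` -/
private theorem qp_vec (M : Model c e H) (o : Λ) (ω : Λ → ℝ) {z : ℂ} (hz : 0 < z.im) (y : Λ) :
    ∃ v : E, v ≠ 0 ∧ (∀ x, ⟪e x, v⟫_ℂ = Gt e H o ω z x y) ∧
      (Gt e H o ω z y y).im = z.im * ‖v‖ ^ 2 + ‖⟪e o, v⟫_ℂ‖ ^ 2 := by
  have hD := M.den_ne ω hz o
  have hDe : den e H ω z o = 1 - I * Gr e H ω z o o := rfl
  set k : ℂ := I * gg e H ω z o y with hk
  set v : E := Rv (H ω) z (e y) + k • Rv (H ω) z (e o) with hv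
  have hin : ∀ x, ⟪e x, v⟫_ℂ = Gt e H o ω z x y := by
    intro x
    rw [hv, inner_add_right, inner_smul_right]
    unfold Gt Gr
    rw [hk]; ring
  have ho : ⟪e o, v⟫_ℂ = gg e H ω z o y := by
    rw [hin, Gt_symm M o ω hz, Gt_o M o ω hz]
  have hH : H ω v = e y + z • v + (I * ⟪e o, v⟫_ℂ) • e o := by
    rw [ho, hv, map_add, map_smul, H_Rv_apply (M.sa ω) hz.ne', H_Rv_apply (M.sa ω) hz.ne', ← hk]
    simp only [smul_add, smul_smul]
    rw [mul_comm k z]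
    abel
  have h0 : v ≠ 0 := by
    intro h
    rw [h] at hH
    simp at hH
    exact M.ortho.ne_zero y hH.symm
  refine ⟨v, h0, hin, ?_⟩
  have h1 := im_inner_sa (M.sa ω) v
  rw [hH, inner_add_right, inner_add_right, inner_smul_right, inner_smul_right,
    ← inner_conj_symm v (e y), hin y, inner_self_eq_norm_sq_to_K, ← inner_conj_symm v (e o)] at h1
  have h2 : (I * ⟪e o, v⟫_ℂ * (starRingEnd ℂ) ⟪e o, v⟫_ℂ) = I * ((‖⟪e o, v⟫_ℂ‖ ^ 2 : ℝ) : ℂ) := by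
    rw [mul_assoc, Complex.mul_conj, Complex.normSq_eq_norm_sq]
  rw [h2] at h1
  have h3 : (z * ((‖v‖ : ℂ)) ^ 2).im = z.im * ‖v‖ ^ 2 := by
    rw [show ((‖v‖ : ℂ)) ^ 2 = ((‖v‖ ^ 2 : ℝ) : ℂ) by push_cast; ring, Complex.im_mul_ofReal]
  have h4 : (I * ((‖⟪e o, v⟫_ℂ‖ ^ 2 : ℝ) : ℂ)).im = ‖⟪e o, v⟫_ℂ‖ ^ 2 := by
    rw [Complex.im_mul_ofReal, Complex.I_im, one_mul]
  rw [Complex.add_im, Complex.add_im, Complex.conj_im, h4] at h1
  have h5 : (z * ((RCLike.ofReal ‖v‖ : ℂ)) ^ 2).im = z.im * ‖v‖ ^ 2 := h3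
  rw [h5] at h1
  linarith

theorem im_Gt_pos (M : Model c e H) (o : Λ) (ω : Λ → ℝ) {z : ℂ} (hz : 0 < z.im) (y : Λ) :
    0 < (Gt e H o ω z y y).im := by
  obtain ⟨v, h0, -, h1⟩ := qp_vec M o ω hz y
  rw [h1]
  have h2 : 0 < ‖v‖ := norm_pos_iff.mpr h0
  positivity

theorem ward (M : Model c e H) (o : Λ) (ω : Λ → ℝ) {z : ℂ} (hz : 0 < z.im) (y : Λ)
    (F : Finset Λ) : z.im * ∑ x ∈ F, ‖Gt e H o ω z y x‖ ^ 2 ≤ (Gt e H o ω z y y).im := by
  obtain ⟨v, -, hv, h1⟩ := qp_vec M o ω hz y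
  rw [h1]
  have h2 : ∑ x ∈ F, ‖Gt e H o ω z y x‖ ^ 2 ≤ ‖v‖ ^ 2 := by
    have h3 := M.ortho.sum_inner_products_le v (s := F)
    refine le_trans (le_of_eq (Finset.sum_congr rfl fun x _ => ?_)) h3
    rw [hv x, Gt_symm M o ω hz]
  have h4 := mul_le_mul_of_nonneg_left h2 hz.le
  have h5 : 0 ≤ ‖⟪e o, v⟫_ℂ‖ ^ 2 := by positivity
  linarith

theorem ward_gg (M : Model c e H) (o : Λ) (ω : Λ → ℝ) {z : ℂ} (hz : 0 < z.im) (F : Finset Λ) :
    z.im * ∑ x ∈ F, ‖gg e H ω z o x‖ ^ 2 ≤ 1 := by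
  have h1 := ward M o ω hz o F
  have h2 : ∑ x ∈ F, ‖Gt e H o ω z o x‖ ^ 2 = ∑ x ∈ F, ‖gg e H ω z o x‖ ^ 2 := by
    refine Finset.sum_congr rfl fun x _ => ?_
    rw [Gt_symm M o ω hz, Gt_o M o ω hz]
  rw [h2] at h1
  refine h1.trans ?_
  obtain ⟨v, -, hv, h3⟩ := qp_vec M o ω hz o
  have h4 : 0 ≤ z.im * ‖v‖ ^ 2 := by positivity
  have h5 : (Gt e H o ω z o o).im ≤ ‖Gt e H o ω z o o‖ :=
    (le_abs_self _).trans (Complex.abs_im_le_norm _)
  rw [hv o] at h3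
  have h6 : 0 ≤ ‖Gt e H o ω z o o‖ := norm_nonneg _
  by_contra h7
  push Not at h7
  nlinarith

theorem ward_G (M : Model c e H) (o : Λ) (ω : Λ → ℝ) {z : ℂ} (hz : 0 < z.im) (F : Finset Λ) :
    z.im * ∑ x ∈ F, ‖Gr e H ω z o x‖ ^ 2 ≤ (Gr e H ω z o o).im := by
  have h1 : (Gr e H ω z o o).im = z.im * ‖Rv (H ω) z (e o)‖ ^ 2 :=
    im_inner_Rv (M.sa ω) hz.ne' (e o)
  rw [h1]
  refine mul_le_mul_of_nonneg_left ?_ hz.le
  refine le_trans (le_of_eq (Finset.sum_congr rfl fun x _ => ?_))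
    (M.ortho.sum_inner_products_le (Rv (H ω) z (e o)) (s := F))
  rw [M.Gr_symm ω hz o x]
  rfl

theorem continuous_Gt (M : Model c e H) (o : Λ) {P : Type*} [TopologicalSpace P]
    {f : P → Λ → ℝ} (hf : Continuous f) {g : P → ℂ} (hg : Continuous g) (hg0 : ∀ p, 0 < (g p).im)
    (x y : Λ) : Continuous fun p => Gt e H o (f p) (g p) x y := by
  unfold Gt
  exact (M.continuous_Gr hf hg hg0 x y).add
    ((continuous_const.mul (M.continuous_Gr hf hg hg0 x o)).mul (M.continuous_gg hf hg hg0 o y))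

end Pool.Agent.Lib.MP_562b47_mp.QP
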