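import Mathlib
import Pool.Agent.Lib.MP_562b47_mp.QP.Defs

/-!
QuantumPolya (MP_562b47_mp), module One: one dimensional estimates for v ↦ 1/‖v - ζ‖².

v0 = clp c (Re ζ) = nearest point of [-c,c] to ζ, rho = ‖v0 - ζ‖.
(1) for v ∈ [-c,c]: ‖v - ζ‖² = (v - v0)² + rho² + 2 (v - v0)(v0 - Re ζ) and (v - v0)(v0 - Re ζ) ≥ 0 (cases
    Re ζ < -c, in [-c,c], > c); so ‖v - ζ‖² ≥ rho² + (v - v0)².  `rho_le`, `im_le_rho` (|Im ζ| ≤ ‖v0 - ζ‖).
(2) `unif_near`: the set is contained in {|v - Re ζ| ≤ 5 rho}, Lebesgue measure 10 rho, unif = volume/(2c).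
(3) `mass_near`: write r = |v - v0|, ρ = rho > 0.  ‖v - ζ‖ ≤ ρ + r, so {r ≤ 4ρ} ⊂ near set N, and the
    complement of N in [-c,c] is contained in {r > 4ρ}, where ‖v - ζ‖^{-2} ≤ r^{-2}.
    far := ∫_{[-c,c] \ N} ‖v-ζ‖^{-2} dv.  If 4ρ ≥ 2c it is 0 (r ≤ 2c).  Otherwise far ≤ 2 ∫_{4ρ}^{∞} dr/r² = 1/(2ρ),
    while one of the two sides of v0 in [-c,c] has length ≥ c > 2ρ, so
    near ≥ ∫_0^{2ρ} dr/(ρ+r)² = 1/ρ - 1/(3ρ) = 2/(3ρ) ≥ far.  Total = near + far ≤ 2 near.
    (`integral_unif`, Unif.lean, or `unif` = (ofReal (2c))⁻¹ • volume.restrict (Icc (-c) c).)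
-/

open MeasureTheory Set Filter Topology Complex
open scoped Real ENNReal NNReal InnerProductSpace

namespace Pool.Agent.Lib.MP_562b47_mp.QP

/-- the distance of `ζ` from `[-c, c]` -/
noncomputable def rho (c : ℝ) (ζ : ℂ) : ℝ := ‖((clp c ζ.re : ℝ) : ℂ) - ζ‖

theorem continuous_rho (c : ℝ) : Continuous (rho c) := by
  have h := continuous_clp c
  unfold rho
  fun_prop

private theorem qp_sq (v : ℝ) (ζ : ℂ) : ‖(v : ℂ) - ζ‖ ^ 2 = (v - ζ.re) ^ 2 + ζ.im ^ 2 := by
  rw [← Complex.normSq_eq_norm_sq, Complex.normSq_apply]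
  simp only [Complex.sub_re, Complex.sub_im, Complex.ofReal_re, Complex.ofReal_im]
  ring

private theorem qp_prod {c : ℝ} (hc : 0 < c) (x : ℝ) {v : ℝ} (hv : v ∈ Icc (-c) c) :
    0 ≤ (v - clp c x) * (clp c x - x) := by
  rcases le_total x (-c) with h | h
  · have h1 : clp c x = -c := by
      unfold clp
      rw [min_eq_right (by linarith), max_eq_left h]
    rw [h1]
    exact mul_nonneg (by linarith [hv.1]) (by linarith)
  · rcases le_total x c with h' | h'
    · rw [clp_of_mem ⟨h, h'⟩, sub_self, mul_zero]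
    · have h1 : clp c x = c := by
        unfold clp
        rw [min_eq_left h', max_eq_right (by linarith)]
      rw [h1]
      exact mul_nonneg_of_nonpos_of_nonpos (by linarith [hv.2]) (by linarith)

private theorem qp_low {c : ℝ} (hc : 0 < c) (ζ : ℂ) {v : ℝ} (hv : v ∈ Icc (-c) c) :
    rho c ζ ^ 2 + (v - clp c ζ.re) ^ 2 ≤ ‖(v : ℂ) - ζ‖ ^ 2 := by
  have h := qp_prod hc ζ.re hv
  unfold rho
  rw [qp_sq, qp_sq]
  nlinarith

private theorem qp_up (c : ℝ) (ζ : ℂ) (v : ℝ) :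
    ‖(v : ℂ) - ζ‖ ≤ rho c ζ + |v - clp c ζ.re| := by
  unfold rho
  have h : (v : ℂ) - ζ = (((clp c ζ.re : ℝ) : ℂ) - ζ) + ((v - clp c ζ.re : ℝ) : ℂ) := by
    push_cast; ring
  rw [h]
  refine (norm_add_le _ _).trans (le_of_eq ?_)
  rw [Complex.norm_real, Real.norm_eq_abs]

private theorem qp_rho_nonneg (c : ℝ) (ζ : ℂ) : 0 ≤ rho c ζ := norm_nonneg _

theorem rho_le {c : ℝ} (hc : 0 < c) (ζ : ℂ) {v : ℝ} (hv : v ∈ Icc (-c) c) :
    rho c ζ ≤ ‖(v : ℂ) - ζ‖ := by
  have h := qp_low hc ζ hv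
  have h1 : rho c ζ ^ 2 ≤ ‖(v : ℂ) - ζ‖ ^ 2 := by nlinarith [sq_nonneg (v - clp c ζ.re)]
  exact (abs_le_of_sq_le_sq' h1 (norm_nonneg _)).2

theorem im_le_rho (c : ℝ) (ζ : ℂ) : ζ.im ≤ rho c ζ := by
  have h := Complex.abs_im_le_norm (((clp c ζ.re : ℝ) : ℂ) - ζ)
  rw [Complex.sub_im, Complex.ofReal_im, zero_sub, abs_neg] at h
  exact (le_abs_self _).trans h

private theorem qp_meas (ζ : ℂ) (r : ℝ) : MeasurableSet {v : ℝ | ‖(v : ℂ) - ζ‖ ≤ r} :=
  (isClosed_le (by fun_prop) continuous_const).measurableSet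

theorem unif_near {c : ℝ} (hc : 0 < c) (ζ : ℂ) :
    (unif c).real {v : ℝ | ‖(v : ℂ) - ζ‖ ≤ 5 * rho c ζ} ≤ 5 * rho c ζ / c := by
  have hr := qp_rho_nonneg c ζ
  have hsub : {v : ℝ | ‖(v : ℂ) - ζ‖ ≤ 5 * rho c ζ} ⊆
      Icc (ζ.re - 5 * rho c ζ) (ζ.re + 5 * rho c ζ) := by
    intro v hv
    have h1 : |v - ζ.re| ≤ ‖(v : ℂ) - ζ‖ := by
      have := Complex.abs_re_le_norm ((v : ℂ) - ζ)
      rwa [Complex.sub_re, Complex.ofReal_re] at this
    have h2 := abs_le.mp (h1.trans hv)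
    constructor <;> linarith [h2.1, h2.2]
  have h1 : unif c {v : ℝ | ‖(v : ℂ) - ζ‖ ≤ 5 * rho c ζ} ≤
      (ENNReal.ofReal (2 * c))⁻¹ * ENNReal.ofReal (10 * rho c ζ) := by
    unfold unif
    rw [Measure.smul_apply, smul_eq_mul]
    refine mul_le_mul_right ?_ _
    refine (Measure.restrict_apply_le _ _).trans ((measure_mono hsub).trans ?_)
    rw [Real.volume_Icc]
    exact ENNReal.ofReal_le_ofReal (by linarith)
  have h2 := ENNReal.toReal_mono (by
    refine ENNReal.mul_ne_top ?_ ENNReal.ofReal_ne_top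
    rw [Ne, ENNReal.inv_eq_top]
    simpa using hc) h1
  rw [ENNReal.toReal_mul, ENNReal.toReal_inv, ENNReal.toReal_ofReal (by linarith),
    ENNReal.toReal_ofReal (by linarith)] at h2
  refine h2.trans (le_of_eq ?_)
  field_simp
  ring

private theorem qp_int {s a b : ℝ} (h : s ∉ uIcc a b) :
    IntervalIntegrable (fun v : ℝ => ((v - s) ^ 2)⁻¹) volume a b ∧
    ∫ v in a..b, ((v - s) ^ 2)⁻¹ = (a - s)⁻¹ - (b - s)⁻¹ := by
  have hne : ∀ v ∈ uIcc a b, v - s ≠ 0 := fun v hv h0 => h (by rwa [← sub_eq_zero.mp h0])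
  have hi : IntervalIntegrable (fun v : ℝ => ((v - s) ^ 2)⁻¹) volume a b := by
    apply ContinuousOn.intervalIntegrable
    refine ContinuousOn.inv₀ (by fun_prop) fun v hv => pow_ne_zero _ (hne v hv)
  refine ⟨hi, ?_⟩
  have hd : ∀ v ∈ uIcc a b, HasDerivAt (fun v : ℝ => -(v - s)⁻¹) ((v - s) ^ 2)⁻¹ v := by
    intro v hv
    have h1 := ((hasDerivAt_id v).sub_const s).inv (hne v hv)
    have h2 := h1.neg
    have e : -(-(1 : ℝ) / (id v - s) ^ 2) = ((v - s) ^ 2)⁻¹ := by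
      rw [neg_div, neg_neg, one_div]; rfl
    rw [e] at h2
    exact h2
  rw [intervalIntegral.integral_eq_sub_of_hasDerivAt hd hi]
  ring

private theorem qp_mass {c : ℝ} (hc : 0 < c) {ζ : ℂ} (hζ : 0 < rho c ζ) :
    ∫ v in Icc (-c) c, (‖(v : ℂ) - ζ‖ ^ 2)⁻¹
      ≤ 2 * ∫ v in Icc (-c) c ∩ {v : ℝ | ‖(v : ℂ) - ζ‖ ≤ 5 * rho c ζ}, (‖(v : ℂ) - ζ‖ ^ 2)⁻¹ := by
  set ρ := rho c ζ with hρ
  set v0 := clp c ζ.re with hv0
  set N := {v : ℝ | ‖(v : ℂ) - ζ‖ ≤ 5 * ρ} with hN
  set f : ℝ → ℝ := fun v => (‖(v : ℂ) - ζ‖ ^ 2)⁻¹ with hf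
  have hNm : MeasurableSet N := qp_meas ζ _
  have hf0 : ∀ v, 0 ≤ f v := fun v => by rw [hf]; positivity
  have hpos : ∀ v ∈ Icc (-c) c, 0 < ‖(v : ℂ) - ζ‖ := fun v hv => hζ.trans_le (rho_le hc ζ hv)
  have hfi : IntegrableOn f (Icc (-c) c) := by
    apply ContinuousOn.integrableOn_Icc
    refine ContinuousOn.inv₀ (by fun_prop) fun v hv => (pow_pos (hpos v hv) 2).ne'
  have hv0m : v0 ∈ Icc (-c) c := clp_mem hc _
  have hsplit := integral_inter_add_sdiff hNm hfi
  have hnn : 0 ≤ ∫ v in Icc (-c) c ∩ N, f v := integral_nonneg hf0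
  have hfar_mem : ∀ v ∈ Icc (-c) c \ N, 4 * ρ < |v - v0| := by
    intro v hv
    have h1 := qp_up c ζ v
    have h2 : ¬ ‖(v : ℂ) - ζ‖ ≤ 5 * ρ := hv.2
    push Not at h2
    rw [← hρ, ← hv0] at h1
    linarith
  by_cases hcase : 2 * c ≤ 4 * ρ
  · have h1 : Icc (-c) c \ N = ∅ := by
      rw [eq_empty_iff_forall_notMem]
      intro v hv
      have h2 := hfar_mem v hv
      have h3 : |v - v0| ≤ 2 * c := by
        rw [abs_le]
        constructor <;> linarith [hv.1.1, hv.1.2, hv0m.1, hv0m.2]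
      linarith
    rw [h1, Measure.restrict_empty, integral_zero_measure] at hsplit
    linarith
  · push Not at hcase
    have hρc : 2 * ρ < c := by linarith
    -- the far part
    have hfar : ∫ v in Icc (-c) c \ N, f v ≤ (2 * ρ)⁻¹ := by
      set R := 4 * ρ + 2 * c with hR
      have hA := qp_int (s := v0) (a := v0 + 4 * ρ) (b := v0 + R) (by
        rw [uIcc_of_le (by linarith)]
        intro h; linarith [h.1])
      have hB := qp_int (s := v0) (a := v0 - R) (b := v0 - 4 * ρ) (by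
        rw [uIcc_of_le (by linarith)]
        intro h; linarith [h.2])
      set g : ℝ → ℝ := fun v => ((v - v0) ^ 2)⁻¹ with hg
      have hg0 : ∀ v, 0 ≤ g v := fun v => by rw [hg]; positivity
      have hAi : IntegrableOn g (Ioc (v0 + 4 * ρ) (v0 + R)) :=
        (intervalIntegrable_iff_integrableOn_Ioc_of_le (by linarith)).mp hA.1
      have hBi : IntegrableOn g (Ioc (v0 - R) (v0 - 4 * ρ)) :=
        (intervalIntegrable_iff_integrableOn_Ioc_of_le (by linarith)).mp hB.1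
      have hABi : IntegrableOn g (Ioc (v0 + 4 * ρ) (v0 + R) ∪ Ioc (v0 - R) (v0 - 4 * ρ)) :=
        hAi.union hBi
      have hsub : Icc (-c) c \ N ⊆ Ioc (v0 + 4 * ρ) (v0 + R) ∪ Ioc (v0 - R) (v0 - 4 * ρ) := by
        intro v hv
        have h2 := hfar_mem v hv
        rcases lt_abs.mp h2 with h3 | h3
        · left
          exact ⟨by linarith, by linarith [hv.1.2, hv0m.1]⟩
        · right
          exact ⟨by linarith [hv.1.1, hv0m.2], by linarith⟩
      have hdisj : Disjoint (Ioc (v0 + 4 * ρ) (v0 + R)) (Ioc (v0 - R) (v0 - 4 * ρ)) := by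
        rw [Set.disjoint_left]
        intro v h3 h4
        linarith [h3.1, h4.2]
      have hm : MeasurableSet (Icc (-c) c \ N) := measurableSet_Icc.diff hNm
      calc ∫ v in Icc (-c) c \ N, f v ≤ ∫ v in Icc (-c) c \ N, g v := by
            refine setIntegral_mono_on (hfi.mono_set sdiff_subset) (hABi.mono_set hsub) hm ?_
            intro v hv
            have h2 := hfar_mem v hv
            have h3 := qp_low hc ζ hv.1
            have h4 : 0 < (v - v0) ^ 2 := by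
              have : 0 < |v - v0| := by linarith
              have := pow_pos this 2
              rwa [sq_abs] at this
            rw [hf, hg]
            dsimp only
            apply inv_anti₀ h4
            have h5 : 0 ≤ ρ ^ 2 := sq_nonneg _
            rw [← hρ, ← hv0] at h3
            linarith
        _ ≤ ∫ v in Ioc (v0 + 4 * ρ) (v0 + R) ∪ Ioc (v0 - R) (v0 - 4 * ρ), g v :=
            setIntegral_mono_set hABi (Eventually.of_forall hg0) hsub.eventuallyLE
        _ = (∫ v in Ioc (v0 + 4 * ρ) (v0 + R), g v) + ∫ v in Ioc (v0 - R) (v0 - 4 * ρ), g v :=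
            setIntegral_union hdisj measurableSet_Ioc hAi hBi
        _ ≤ (2 * ρ)⁻¹ := by
            rw [← intervalIntegral.integral_of_le (by linarith),
              ← intervalIntegral.integral_of_le (by linarith), hA.2, hB.2]
            have e1 : v0 + 4 * ρ - v0 = 4 * ρ := by ring
            have e2 : v0 + R - v0 = R := by ring
            have e3 : v0 - R - v0 = -R := by ring
            have e4 : v0 - 4 * ρ - v0 = -(4 * ρ) := by ring
            rw [e1, e2, e3, e4, inv_neg, inv_neg]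
            have h6 : 0 < R⁻¹ := inv_pos.mpr (by linarith)
            have h7 : (4 * ρ)⁻¹ + (4 * ρ)⁻¹ = (2 * ρ)⁻¹ := by field_simp; ring
            linarith
    -- the near part
    have hnear : (2 / 3) * ρ⁻¹ ≤ ∫ v in Icc (-c) c ∩ N, f v := by
      have hgen : ∀ a b s : ℝ, a ≤ b → s ∉ uIcc a b → Icc a b ⊆ Icc (-c) c →
          (∀ v ∈ Icc a b, ‖(v : ℂ) - ζ‖ ≤ |v - s| ∧ |v - s| ≤ 3 * ρ) →
          (a - s)⁻¹ - (b - s)⁻¹ ≤ ∫ v in Icc (-c) c ∩ N, f v := by
        intro a b s hab hs hsub hv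
        have hI := qp_int hs
        have hsubN : Ioc a b ⊆ Icc (-c) c ∩ N := by
          intro v hv1
          have hv2 : v ∈ Icc a b := ⟨hv1.1.le, hv1.2⟩
          refine ⟨hsub hv2, ?_⟩
          have h3 := hv v hv2
          show ‖(v : ℂ) - ζ‖ ≤ 5 * ρ
          linarith [h3.1, h3.2]
        have hgi : IntegrableOn (fun v : ℝ => ((v - s) ^ 2)⁻¹) (Ioc a b) :=
          (intervalIntegrable_iff_integrableOn_Ioc_of_le hab).mp hI.1
        rw [← hI.2, intervalIntegral.integral_of_le hab]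
        calc ∫ v in Ioc a b, ((v - s) ^ 2)⁻¹ ≤ ∫ v in Ioc a b, f v := by
              refine setIntegral_mono_on hgi
                (hfi.mono_set (hsubN.trans inter_subset_left)) measurableSet_Ioc ?_
              intro v hv1
              have hv2 : v ∈ Icc a b := ⟨hv1.1.le, hv1.2⟩
              have h3 := (hv v hv2).1
              have h4 := hpos v (hsub hv2)
              rw [hf]
              dsimp only
              apply inv_anti₀ (pow_pos h4 2)
              rw [← sq_abs (v - s)]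
              exact pow_le_pow_left₀ h4.le h3 2
          _ ≤ ∫ v in Icc (-c) c ∩ N, f v :=
              setIntegral_mono_set (hfi.mono_set inter_subset_left) (Eventually.of_forall hf0)
                hsubN.eventuallyLE
      have hup : ∀ v : ℝ, ‖(v : ℂ) - ζ‖ ≤ ρ + |v - v0| := fun v => by
        have := qp_up c ζ v
        rwa [← hρ, ← hv0] at this
      rcases le_total v0 0 with h0 | h0
      · have h1 := hgen v0 (v0 + 2 * ρ) (v0 - ρ) (by linarith) (by
          rw [uIcc_of_le (by linarith)]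
          intro h; linarith [h.1]) (Icc_subset_Icc hv0m.1 (by linarith)) (by
          intro v hv
          have h2 : |v - (v0 - ρ)| = ρ + |v - v0| := by
            rw [abs_of_nonneg (by linarith [hv.1]), abs_of_nonneg (by linarith [hv.1])]
            ring
          have h3 : |v - v0| ≤ 2 * ρ := by
            rw [abs_of_nonneg (by linarith [hv.1])]
            linarith [hv.2]
          rw [h2]
          exact ⟨hup v, by linarith⟩)
        have e1 : v0 - (v0 - ρ) = ρ := by ring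
        have e2 : v0 + 2 * ρ - (v0 - ρ) = 3 * ρ := by ring
        rw [e1, e2] at h1
        have h7 : ρ⁻¹ - (3 * ρ)⁻¹ = (2 / 3) * ρ⁻¹ := by field_simp; ring
        rw [← h7]
        exact h1
      · have h1 := hgen (v0 - 2 * ρ) v0 (v0 + ρ) (by linarith) (by
          rw [uIcc_of_le (by linarith)]
          intro h; linarith [h.2]) (Icc_subset_Icc (by linarith) hv0m.2) (by
          intro v hv
          have h2 : |v - (v0 + ρ)| = ρ + |v - v0| := by
            rw [abs_of_nonpos (by linarith [hv.2]), abs_of_nonpos (by linarith [hv.2])]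
            ring
          have h3 : |v - v0| ≤ 2 * ρ := by
            rw [abs_of_nonpos (by linarith [hv.2])]
            linarith [hv.1]
          rw [h2]
          exact ⟨hup v, by linarith⟩)
        have e1 : v0 - 2 * ρ - (v0 + ρ) = -(3 * ρ) := by ring
        have e2 : v0 - (v0 + ρ) = -ρ := by ring
        rw [e1, e2, inv_neg, inv_neg] at h1
        have h7 : ρ⁻¹ - (3 * ρ)⁻¹ = (2 / 3) * ρ⁻¹ := by field_simp; ring
        rw [← h7]
        linarith
    have h8 : (2 * ρ)⁻¹ ≤ (2 / 3) * ρ⁻¹ := by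
      rw [mul_inv]
      have : 0 < ρ⁻¹ := inv_pos.mpr hζ
      linarith
    linarith

theorem mass_near {c : ℝ} (hc : 0 < c) {ζ : ℂ} (hζ : 0 < rho c ζ) :
    ∫ v : ℝ, (‖(v : ℂ) - ζ‖ ^ 2)⁻¹ ∂(unif c)
      ≤ 2 * ∫ v in {v : ℝ | ‖(v : ℂ) - ζ‖ ≤ 5 * rho c ζ}, (‖(v : ℂ) - ζ‖ ^ 2)⁻¹ ∂(unif c) := by
  have h := qp_mass hc hζ
  unfold unif
  rw [Measure.restrict_smul, Measure.restrict_restrict (qp_meas ζ _), integral_smul_measure,
    integral_smul_measure, inter_comm, smul_eq_mul, smul_eq_mul]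
  have h1 : 0 ≤ ((ENNReal.ofReal (2 * c))⁻¹).toReal := ENNReal.toReal_nonneg
  calc ((ENNReal.ofReal (2 * c))⁻¹).toReal * ∫ v in Icc (-c) c, (‖(v : ℂ) - ζ‖ ^ 2)⁻¹
      ≤ ((ENNReal.ofReal (2 * c))⁻¹).toReal * (2 * ∫ v in Icc (-c) c ∩
          {v : ℝ | ‖(v : ℂ) - ζ‖ ≤ 5 * rho c ζ}, (‖(v : ℂ) - ζ‖ ^ 2)⁻¹) :=
        mul_le_mul_of_nonneg_left h h1
    _ = _ := by ring

end Pool.Agent.Lib.MP_562b47_mp.QP
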