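import Mathlib
import Pool.Agent.Lib.MP_562b47_mp.QP.FT
import Pool.Agent.Lib.MP_562b47_mp.Comm1

/-!
QuantumPolya (MP_562b47_mp), module Out: the mass outside of a finite set, by time averages.

Fixed ω, z = E + iη, η > 0.  Laplace transform: Rv (H ω) z (e 0) = ∫_{s>0} e^{izs} • (I • Ut H ω s (e 0)) ds
(FTC on (0,∞) for s ↦ e^{izs} Ut_s e_0, derivative I (z - H) e^{izs} Ut_s e_0 (hasDerivAt_Ut), limit 0 at ∞, ‖Ut u‖ = ‖u‖; then
(H - z) v = e 0 and Rv_H_apply/Rv_mul).  So ⟪e x, Rv e 0⟫ = lap (fun s _ => I ⟪e x, Ut_s e 0⟫) η E (continuous in s and ω: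
continuous_Ut_apply), and by FT_half / lap_lint
   ∫⁻ E, ‖Gr x 0‖ₑ² ≤ ofReal (4π) ∫⁻_{s>0} ofReal(e^{-2ηs}) ‖⟪e x, Ut_s e 0⟫‖ₑ².
Sum over x ∉ B (ENNReal tsum over the subtype or with an indicator; parseval_enorm, Comm1.lean: ∑_x ‖⟪e x, u⟫‖ₑ² = ‖u‖ₑ²):
   ∑_{x ∉ B} ‖⟪e x, Rv e 0⟫‖² = ‖Rv e 0‖² - ∑_{x∈B} ‖Gr x 0‖² = η⁻¹ (Im Gr 0 0 - η ∑_{x∈B} ‖Gr 0 x‖²) (im_inner_Rv, Gr_symm),
   ∑_{x ∉ B} ‖⟪e x, Ut_s e 0⟫‖² = outF e H B s ω  (norm_Ut_apply).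
Integrate over ω (Tonelli), and kap ≤ π⁻¹ • volume (kap_eq): the left side is ≤ η π⁻¹ 4π ∫_{s>0} e^{-2ηs} ∫ outF.
Integrability for the passage to Bochner integrals: 0 ≤ integrand ≤ 1/η, jointly continuous in (E, ω); outF ∈ [0,1]
(Model.outF_mem), jointly continuous (continuous_outF).
-/

open MeasureTheory Set Filter Topology Complex
open scoped Real ENNReal NNReal InnerProductSpace

set_option linter.unusedSectionVars false

namespace Pool.Agent.Lib.MP_562b47_mp.QP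

variable {Λ : Type*} [DecidableEq Λ] [AddCommGroup Λ] [Countable Λ] {E : Type*}
  [NormedAddCommGroup E] [InnerProductSpace ℂ E] [CompleteSpace E] {c : ℝ} {e : Λ → E}
  {H : (Λ → ℝ) → (E →L[ℂ] E)}

/-- the Laplace transform of the unitary group is the resolvent -/
theorem out_laplace (M : Model c e H) {η : ℝ} (hη : 0 < η) (ω : Λ → ℝ) (x : ℝ) (y : Λ) :
    ⟪e y, Rv (H ω) (⟨x, η⟩ : ℂ) (e 0)⟫_ℂ
      = lap (fun s ω => I * ⟪e y, Ut H ω s (e 0)⟫_ℂ) η x ω := by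
  set z : ℂ := ⟨x, η⟩ with hz
  set a : ℂ := I * (x : ℂ) - (η : ℂ) with ha
  have haz : a = I * z := by
    rw [ha, hz]
    apply Complex.ext <;> simp
  have hare : a.re = -η := by rw [ha]; simp
  set A : E →L[ℂ] E := H ω - algebraMap ℂ (E →L[ℂ] E) z with hA
  set v : ℝ → E := fun s => cexp (a * (s : ℂ)) • Ut H ω s (e 0) with hv
  have hUd : ∀ s : ℝ, HasDerivAt (fun s : ℝ => Ut H ω s (e 0)) (-I • (H ω (Ut H ω s (e 0)))) s := by
    intro s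
    have h1 := ((ContinuousLinearMap.apply ℂ E (e 0)).restrictScalars ℝ).hasFDerivAt.comp_hasDerivAt
      s (hasDerivAt_Ut H ω s)
    exact h1
  have hed : ∀ s : ℝ, HasDerivAt (fun s : ℝ => cexp (a * (s : ℂ))) (cexp (a * (s : ℂ)) * a) s := by
    intro s
    have h1 : HasDerivAt (fun s : ℝ => a * (s : ℂ)) a s := by
      simpa using (Complex.ofRealCLM.hasDerivAt (x := s)).const_mul a
    exact h1.cexp
  have hvd : ∀ s : ℝ, HasDerivAt v (-I • A (v s)) s := by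
    intro s
    have h1 := (hed s).smul (hUd s)
    refine h1.congr_deriv ?_
    have hAv : ∀ u : E, A u = H ω u - z • u := by
      intro u
      rw [hA, Algebra.algebraMap_eq_smul_one]
      rfl
    rw [hAv, hv]
    simp only [map_smul, haz]
    module
  have hvn : ∀ s : ℝ, ‖v s‖ = rexp (-η * s) := by
    intro s
    rw [hv]
    simp only
    rw [norm_smul, norm_Ut_apply (M.sa ω), M.ortho.1, mul_one, Complex.norm_exp]
    congr 1
    rw [Complex.mul_re, hare]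
    simp
  have hvc : Continuous v := continuous_iff_continuousAt.mpr fun s => (hvd s).continuousAt
  have hvi : IntegrableOn v (Ioi 0) := by
    refine (exp_neg_integrableOn_Ioi 0 hη).mono' hvc.aestronglyMeasurable
      (ae_of_all _ fun s => (hvn s).le)
  have hvt : Tendsto v atTop (𝓝 0) := by
    rw [tendsto_zero_iff_norm_tendsto_zero]
    simp_rw [hvn]
    have : Tendsto (fun s : ℝ => η * s) atTop atTop := tendsto_id.const_mul_atTop hη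
    have h2 := Real.tendsto_exp_neg_atTop_nhds_zero.comp this
    refine h2.congr fun s => ?_
    simp only [Function.comp]
    congr 1
    ring
  have hAi : IntegrableOn (fun s => A (v s)) (Ioi 0) := A.integrable_comp hvi
  have h1 : ∫ s in Ioi (0:ℝ), -I • A (v s) = 0 - v 0 :=
    integral_Ioi_of_hasDerivAt_of_tendsto' (fun s _ => hvd s) (hAi.smul (-I)) hvt
  have hv0 : v 0 = e 0 := by
    rw [hv]
    simp [Ut_zero]
  rw [integral_smul, A.integral_comp_comm hvi, hv0, zero_sub] at h1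
  set w := ∫ s in Ioi (0:ℝ), v s with hw
  have h2 : A (I • w) = e 0 := by
    rw [map_smul]
    have := congrArg Neg.neg h1
    rw [neg_neg, ← neg_smul, neg_neg] at this
    exact this
  have h3 : Rv (H ω) z (e 0) = I • w := by
    rw [← h2]
    have := congrArg (fun T : E →L[ℂ] E => T (I • w)) (Rv_mul (M.sa ω) (z := z) hη.ne')
    exact this
  rw [h3, inner_smul_right]
  have h4 : ⟪e y, w⟫_ℂ = ∫ s in Ioi (0:ℝ), ⟪e y, v s⟫_ℂ := by
    have := (innerSL ℂ (e y)).integral_comp_comm hvi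
    exact this.symm
  rw [h4, ← integral_const_mul]
  unfold lap
  refine integral_congr_ae (ae_of_all _ fun s => ?_)
  simp only [hv, inner_smul_right]
  ring

/-- the part of the norm outside of `B` -/
theorem out_parseval (M : Model c e H) (B : Finset Λ) (u : E) :
    ENNReal.ofReal (‖u‖ ^ 2 - ∑ y ∈ B, ‖⟪e y, u⟫_ℂ‖ ^ 2)
      = ∑' y : Λ, (if y ∈ B then 0 else ‖⟪e y, u⟫_ℂ‖ₑ ^ 2) := by
  have h1 := M.parseval_norm u
  have h2 : HasSum (fun y => if y ∈ B then ‖⟪e y, u⟫_ℂ‖ ^ 2 else 0)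
      (∑ y ∈ B, ‖⟪e y, u⟫_ℂ‖ ^ 2) := by
    have h3 : HasSum (fun y => if y ∈ B then ‖⟪e y, u⟫_ℂ‖ ^ 2 else 0)
        (∑ y ∈ B, (if y ∈ B then ‖⟪e y, u⟫_ℂ‖ ^ 2 else 0)) :=
      hasSum_sum_of_ne_finset_zero (fun y hy => if_neg hy)
    have h4 : ∑ y ∈ B, (if y ∈ B then ‖⟪e y, u⟫_ℂ‖ ^ 2 else 0) = ∑ y ∈ B, ‖⟪e y, u⟫_ℂ‖ ^ 2 :=
      Finset.sum_congr rfl fun y hy => if_pos hy
    rw [h4] at h3
    exact h3
  have h3 := h1.sub h2
  have h4 : ∀ y, ‖⟪e y, u⟫_ℂ‖ ^ 2 - (if y ∈ B then ‖⟪e y, u⟫_ℂ‖ ^ 2 else 0)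
      = if y ∈ B then 0 else ‖⟪e y, u⟫_ℂ‖ ^ 2 := by
    intro y
    split_ifs <;> simp
  simp_rw [h4] at h3
  rw [← h3.tsum_eq, ENNReal.ofReal_tsum_of_nonneg (fun y => by positivity) h3.summable]
  refine tsum_congr fun y => ?_
  split_ifs
  · simp
  · rw [ENNReal.ofReal_pow (norm_nonneg _), ofReal_norm]

theorem out_cont_mk (η : ℝ) : Continuous fun x : ℝ => (⟨x, η⟩ : ℂ) := by
  have : (fun x : ℝ => (⟨x, η⟩ : ℂ)) = fun x : ℝ => (x : ℂ) + (η : ℂ) * I := by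
    funext p
    apply Complex.ext <;> simp
  rw [this]
  fun_prop

/-- the inequality for a fixed potential -/
theorem out_fixed (M : Model c e H) {V : Λ → (E ≃ₗᵢ[ℂ] E)} (hH : CovOp V H) (B : Finset Λ)
    {η : ℝ} (hη : 0 < η) (ω : Λ → ℝ) :
    ∫⁻ x : ℝ, ENNReal.ofReal (‖Rv (H ω) (⟨x, η⟩ : ℂ) (e 0)‖ ^ 2
        - ∑ y ∈ B, ‖⟪e y, Rv (H ω) (⟨x, η⟩ : ℂ) (e 0)⟫_ℂ‖ ^ 2)
      ≤ ENNReal.ofReal (4 * π) * ∫⁻ s in Ioi (0:ℝ),
        ENNReal.ofReal (rexp (-2 * η * s) * outF e H B s ω) := by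
  have hRc : Continuous fun x : ℝ => Rv (H ω) (⟨x, η⟩ : ℂ) (e 0) :=
    M.continuous_Rv (f := fun _ : ℝ => ω) continuous_const (out_cont_mk η) (fun _ => hη) (e 0)
  have hUc : Continuous fun s : ℝ => Ut H ω s (e 0) :=
    continuous_Ut_apply hH (f := fun _ : ℝ => ω) continuous_const continuous_id continuous_const
  have h1 : ∀ y : Λ, ∫⁻ x : ℝ, (if y ∈ B then 0 else
        ‖⟪e y, Rv (H ω) (⟨x, η⟩ : ℂ) (e 0)⟫_ℂ‖ₑ ^ 2)
      ≤ ∫⁻ s in Ioi (0:ℝ), (ENNReal.ofReal (4 * π) * ENNReal.ofReal (rexp (-2 * η * s))) *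
        (if y ∈ B then 0 else ‖⟪e y, Ut H ω s (e 0)⟫_ℂ‖ₑ ^ 2) := by
    intro y
    by_cases hy : y ∈ B
    · simp [hy]
    · simp only [hy, if_false]
      have hφm : Measurable (Function.uncurry fun (s : ℝ) (ω : Λ → ℝ) =>
          I * ⟪e y, Ut H ω s (e 0)⟫_ℂ) := by
        have h2 : Continuous fun p : ℝ × (Λ → ℝ) => Ut H p.2 p.1 (e 0) :=
          continuous_Ut_apply hH continuous_snd continuous_fst continuous_const
        have h3 : Continuous (Function.uncurry fun (s : ℝ) (ω : Λ → ℝ) =>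
            I * ⟪e y, Ut H ω s (e 0)⟫_ℂ) := by
          simp only [Function.uncurry_def]
          exact continuous_const.mul (continuous_const.inner h2)
        exact h3.measurable
      have hφ1 : ∀ (s : ℝ) (ω : Λ → ℝ), ‖I * ⟪e y, Ut H ω s (e 0)⟫_ℂ‖ ≤ 1 := by
        intro s ω
        rw [norm_mul, Complex.norm_I, one_mul]
        refine (norm_inner_le_norm _ _).trans ?_
        rw [norm_Ut_apply (M.sa ω), M.ortho.1, M.ortho.1, one_mul]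
      have h2 := lap_lint hφm hφ1 hη ω
      have h3 : ∫⁻ x : ℝ, ‖⟪e y, Rv (H ω) (⟨x, η⟩ : ℂ) (e 0)⟫_ℂ‖ₑ ^ 2
          = ∫⁻ x : ℝ, ‖lap (fun s ω => I * ⟪e y, Ut H ω s (e 0)⟫_ℂ) η x ω‖ₑ ^ 2 := by
        refine lintegral_congr fun x => ?_
        rw [out_laplace M hη]
      rw [h3]
      refine h2.trans (le_of_eq ?_)
      rw [← lintegral_const_mul']
      · refine lintegral_congr fun s => ?_
        have hI : ‖(I : ℂ)‖ₑ = 1 := by rw [← ofReal_norm]; simp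
        rw [enorm_mul, hI, one_mul]
        exact (mul_assoc _ _ _).symm
      · exact ENNReal.ofReal_ne_top
  calc ∫⁻ x : ℝ, ENNReal.ofReal (‖Rv (H ω) (⟨x, η⟩ : ℂ) (e 0)‖ ^ 2
        - ∑ y ∈ B, ‖⟪e y, Rv (H ω) (⟨x, η⟩ : ℂ) (e 0)⟫_ℂ‖ ^ 2)
      = ∫⁻ x : ℝ, ∑' y : Λ, (if y ∈ B then 0 else
          ‖⟪e y, Rv (H ω) (⟨x, η⟩ : ℂ) (e 0)⟫_ℂ‖ₑ ^ 2) :=
        lintegral_congr fun x => out_parseval M B _
    _ = ∑' y : Λ, ∫⁻ x : ℝ, (if y ∈ B then 0 else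
          ‖⟪e y, Rv (H ω) (⟨x, η⟩ : ℂ) (e 0)⟫_ℂ‖ₑ ^ 2) := by
        refine lintegral_tsum fun y => ?_
        by_cases hy : y ∈ B
        · simp only [hy, if_true]; exact aemeasurable_const
        · simp only [hy, if_false]
          exact ((continuous_const.inner hRc).measurable.enorm.pow_const 2).aemeasurable
    _ ≤ ∑' y : Λ, ∫⁻ s in Ioi (0:ℝ), (ENNReal.ofReal (4 * π) * ENNReal.ofReal (rexp (-2 * η * s))) *
        (if y ∈ B then 0 else ‖⟪e y, Ut H ω s (e 0)⟫_ℂ‖ₑ ^ 2) := ENNReal.tsum_le_tsum h1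
    _ = ∫⁻ s in Ioi (0:ℝ), ∑' y : Λ, (ENNReal.ofReal (4 * π) * ENNReal.ofReal (rexp (-2 * η * s))) *
        (if y ∈ B then 0 else ‖⟪e y, Ut H ω s (e 0)⟫_ℂ‖ₑ ^ 2) := by
        symm
        refine lintegral_tsum fun y => ?_
        have hm : Measurable fun s : ℝ => ENNReal.ofReal (4 * π) * ENNReal.ofReal (rexp (-2 * η * s)) := by
          fun_prop
        by_cases hy : y ∈ B
        · simp only [hy, if_true, mul_zero]; exact aemeasurable_const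
        · simp only [hy, if_false]
          exact (hm.mul ((continuous_const.inner hUc).measurable.enorm.pow_const 2)).aemeasurable
    _ = ∫⁻ s in Ioi (0:ℝ), ENNReal.ofReal (4 * π) *
          ENNReal.ofReal (rexp (-2 * η * s) * outF e H B s ω) := by
        refine lintegral_congr fun s => ?_
        rw [ENNReal.tsum_mul_left, ← out_parseval M B, norm_Ut_apply (M.sa ω), M.ortho.1, one_pow,
          mul_assoc, ← ENNReal.ofReal_mul (Real.exp_pos _).le]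
        rfl
    _ = _ := lintegral_const_mul' _ _ ENNReal.ofReal_ne_top

theorem kap_lint_le {f : ℝ → ℝ≥0∞} (hf : Measurable f) :
    ∫⁻ x, f x ∂kap ≤ ENNReal.ofReal π⁻¹ * ∫⁻ x, f x := by
  rw [kap_eq, lintegral_withDensity_eq_lintegral_mul _ (by fun_prop) hf,
    ← lintegral_const_mul _ hf]
  refine lintegral_mono fun x => ?_
  simp only [Pi.mul_apply]
  gcongr
  have h2 : (1 + x ^ 2)⁻¹ ≤ 1 := by
    rw [inv_le_one_iff₀]; right; nlinarith [sq_nonneg x]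
  calc π⁻¹ * (1 + x ^ 2)⁻¹ ≤ π⁻¹ * 1 := mul_le_mul_of_nonneg_left h2 (by positivity)
    _ = π⁻¹ := mul_one _

theorem out_main (M : Model c e H) {V : Λ → (E ≃ₗᵢ[ℂ] E)} (hH : CovOp V H) (B : Finset Λ)
    {η : ℝ} (hη : 0 < η) :
    ∫ x, (∫ ω, ((Gr e H ω (⟨x, η⟩ : ℂ) 0 0).im
        - η * ∑ y ∈ B, ‖Gr e H ω (⟨x, η⟩ : ℂ) 0 y‖ ^ 2) ∂(PP Λ c)) ∂kap
      ≤ 4 * η * ∫ s in Ioi (0:ℝ), rexp (-2 * η * s) * (∫ ω, outF e H B s ω ∂(PP Λ c)) := by
  have := PP_prob Λ M.hc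
  set Fr : ℝ × (Λ → ℝ) → ℝ := fun p => (Gr e H p.2 (⟨p.1, η⟩ : ℂ) 0 0).im
        - η * ∑ y ∈ B, ‖Gr e H p.2 (⟨p.1, η⟩ : ℂ) 0 y‖ ^ 2 with hFr
  have hFr' : ∀ p : ℝ × (Λ → ℝ), Fr p = η * (‖Rv (H p.2) (⟨p.1, η⟩ : ℂ) (e 0)‖ ^ 2
        - ∑ y ∈ B, ‖⟪e y, Rv (H p.2) (⟨p.1, η⟩ : ℂ) (e 0)⟫_ℂ‖ ^ 2) := by
    intro p
    have h1 : (Gr e H p.2 (⟨p.1, η⟩ : ℂ) 0 0).im = η * ‖Rv (H p.2) (⟨p.1, η⟩ : ℂ) (e 0)‖ ^ 2 :=
      im_inner_Rv (M.sa p.2) (z := (⟨p.1, η⟩ : ℂ)) hη.ne' (e 0)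
    have h2 : ∀ y, Gr e H p.2 (⟨p.1, η⟩ : ℂ) 0 y = ⟪e y, Rv (H p.2) (⟨p.1, η⟩ : ℂ) (e 0)⟫_ℂ :=
      fun y => M.Gr_symm p.2 (z := (⟨p.1, η⟩ : ℂ)) hη 0 y
    have h3 : Fr p = (Gr e H p.2 (⟨p.1, η⟩ : ℂ) 0 0).im
        - η * ∑ y ∈ B, ‖Gr e H p.2 (⟨p.1, η⟩ : ℂ) 0 y‖ ^ 2 := rfl
    rw [h3, h1]
    simp only [h2]
    ring
  have hFr0 : ∀ p, 0 ≤ Fr p := by
    intro p
    rw [hFr']
    have := M.ortho.sum_inner_products_le (Rv (H p.2) (⟨p.1, η⟩ : ℂ) (e 0)) (s := B)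
    exact mul_nonneg hη.le (sub_nonneg.mpr this)
  have hFr1 : ∀ p, Fr p ≤ 1 / η := by
    intro p
    have h1 : 0 ≤ η * ∑ y ∈ B, ‖Gr e H p.2 (⟨p.1, η⟩ : ℂ) 0 y‖ ^ 2 := by positivity
    have h2 := Complex.abs_im_le_norm (Gr e H p.2 (⟨p.1, η⟩ : ℂ) 0 0)
    have h3 := le_abs_self (Gr e H p.2 (⟨p.1, η⟩ : ℂ) 0 0).im
    have h4 : ‖Gr e H p.2 (⟨p.1, η⟩ : ℂ) 0 0‖ ≤ 1 / η :=
      M.norm_Gr_le p.2 (z := (⟨p.1, η⟩ : ℂ)) hη 0 0
    simp only [hFr]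
    linarith
  have hGc : ∀ y, Continuous fun p : ℝ × (Λ → ℝ) => Gr e H p.2 (⟨p.1, η⟩ : ℂ) 0 y := fun y =>
    M.continuous_Gr continuous_snd ((out_cont_mk η).comp continuous_fst) (fun _ => hη) 0 y
  have hFrc : Continuous Fr := by
    refine (Complex.continuous_im.comp (hGc 0)).sub (continuous_const.mul ?_)
    exact continuous_finsetSum _ fun y _ => (hGc y).norm.pow 2
  have hFri : Integrable Fr (kap.prod (PP Λ c)) := by
    refine Integrable.of_bound (C := 1 / η) hFrc.aestronglyMeasurable (ae_of_all _ fun p => ?_)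
    rw [Real.norm_of_nonneg (hFr0 p)]
    exact hFr1 p
  have hL : ∫ x, (∫ ω, ((Gr e H ω (⟨x, η⟩ : ℂ) 0 0).im
        - η * ∑ y ∈ B, ‖Gr e H ω (⟨x, η⟩ : ℂ) 0 y‖ ^ 2) ∂(PP Λ c)) ∂kap
      = ∫ p, Fr p ∂(kap.prod (PP Λ c)) := (integral_prod _ hFri).symm
  set Q : ℝ × (Λ → ℝ) → ℝ := fun q => rexp (-2 * η * q.1) * outF e H B q.1 q.2 with hQ
  have hQ0 : ∀ q, 0 ≤ Q q := fun q => mul_nonneg (Real.exp_pos _).le (M.outF_mem B q.1 q.2).1
  have hQc : Continuous Q := by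
    have := continuous_outF (e := e) hH B
    have h2 : Continuous fun q : ℝ × (Λ → ℝ) => rexp (-2 * η * q.1) := by fun_prop
    exact h2.mul this
  have hQi : Integrable Q ((volume.restrict (Ioi (0:ℝ))).prod (PP Λ c)) := by
    have h1 : Integrable (fun s : ℝ => rexp (-(2 * η) * s)) (volume.restrict (Ioi (0:ℝ))) :=
      exp_neg_integrableOn_Ioi 0 (by positivity)
    have h2 : Integrable (fun q : ℝ × (Λ → ℝ) => rexp (-(2 * η) * q.1))
        ((volume.restrict (Ioi (0:ℝ))).prod (PP Λ c)) := h1.comp_fst _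
    refine h2.mono' hQc.aestronglyMeasurable (ae_of_all _ fun q => ?_)
    rw [Real.norm_of_nonneg (hQ0 q)]
    have h3 := M.outF_mem B q.1 q.2
    have h4 := Real.exp_pos (-2 * η * q.1)
    simp only [hQ]
    rw [show -(2 * η) * q.1 = -2 * η * q.1 by ring]
    nlinarith [h3.1, h3.2]
  have hR : ∫ s in Ioi (0:ℝ), rexp (-2 * η * s) * (∫ ω, outF e H B s ω ∂(PP Λ c))
      = ∫ q, Q q ∂((volume.restrict (Ioi (0:ℝ))).prod (PP Λ c)) := by
    rw [integral_prod _ hQi]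
    refine integral_congr_ae (ae_of_all _ fun s => ?_)
    simp only [hQ]
    rw [integral_const_mul]
  rw [hL, hR]
  have hRn : 0 ≤ ∫ q, Q q ∂((volume.restrict (Ioi (0:ℝ))).prod (PP Λ c)) := integral_nonneg hQ0
  rw [← ENNReal.ofReal_le_ofReal_iff (by positivity), ENNReal.ofReal_mul (by positivity),
    ofReal_integral_eq_lintegral_ofReal hFri (ae_of_all _ hFr0),
    ofReal_integral_eq_lintegral_ofReal hQi (ae_of_all _ hQ0),
    lintegral_prod_symm _ hFrc.measurable.ennreal_ofReal.aemeasurable,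
    lintegral_prod_symm _ hQc.measurable.ennreal_ofReal.aemeasurable,
    ← lintegral_const_mul' _ _ ENNReal.ofReal_ne_top]
  refine lintegral_mono fun ω => ?_
  have hmx : Measurable fun x : ℝ => ENNReal.ofReal (Fr (x, ω)) :=
    (hFrc.comp (continuous_id.prodMk continuous_const)).measurable.ennreal_ofReal
  calc ∫⁻ x, ENNReal.ofReal (Fr (x, ω)) ∂kap
      ≤ ENNReal.ofReal π⁻¹ * ∫⁻ x, ENNReal.ofReal (Fr (x, ω)) := kap_lint_le hmx
    _ = ENNReal.ofReal π⁻¹ * (ENNReal.ofReal η * ∫⁻ x : ℝ,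
          ENNReal.ofReal (‖Rv (H ω) (⟨x, η⟩ : ℂ) (e 0)‖ ^ 2
            - ∑ y ∈ B, ‖⟪e y, Rv (H ω) (⟨x, η⟩ : ℂ) (e 0)⟫_ℂ‖ ^ 2)) := by
        congr 1
        rw [← lintegral_const_mul' _ _ ENNReal.ofReal_ne_top]
        refine lintegral_congr fun x => ?_
        rw [hFr', ENNReal.ofReal_mul hη.le]
    _ ≤ ENNReal.ofReal π⁻¹ * (ENNReal.ofReal η * (ENNReal.ofReal (4 * π) * ∫⁻ s in Ioi (0:ℝ),
          ENNReal.ofReal (rexp (-2 * η * s) * outF e H B s ω))) := by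
        gcongr
        exact out_fixed M hH B hη ω
    _ = ENNReal.ofReal (4 * η) * ∫⁻ s in Ioi (0:ℝ), ENNReal.ofReal (Q (s, ω)) := by
        rw [← mul_assoc, ← mul_assoc, ← ENNReal.ofReal_mul (by positivity),
          ← ENNReal.ofReal_mul (by positivity)]
        congr 2
        field_simp

end Pool.Agent.Lib.MP_562b47_mp.QP
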