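import Mathlib
import Pool.Agent.Lib.MP_562b47_mp.QP.Abs
import Pool.Agent.Lib.MP_562b47_mp.QP.Up
import Pool.Agent.Lib.MP_562b47_mp.QP.Low
import Pool.Agent.Lib.MP_562b47_mp.QP.Budget
import Pool.Agent.Lib.MP_562b47_mp.QP.Diss
import Pool.Agent.Lib.MP_562b47_mp.QP.AC
import Pool.Agent.Lib.MP_562b47_mp.QP.Out

/-!
QuantumPolya (MP_562b47_mp), module Sum: the summation over the scales.
-/

open MeasureTheory Set Filter Topology Complex
open scoped Real ENNReal NNReal InnerProductSpace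

namespace Pool.Agent.Lib.MP_562b47_mp.QP

variable {Λ : Type*} [DecidableEq Λ] [AddCommGroup Λ] [Countable Λ] {E : Type*}
  [NormedAddCommGroup E] [InnerProductSpace ℂ E] [CompleteSpace E] {c : ℝ} {e : Λ → E}
  {H : (Λ → ℝ) → (E →L[ℂ] E)}

set_option linter.unusedSectionVars false

/-- integrability of partial averages of bounded continuous functions -/
theorem qps_outer (hc : 0 < c) {Φ : ℝ → (Λ → ℝ) → ℝ} (hΦ : Continuous (Function.uncurry Φ)) {C : ℝ}
    (hC : ∀ x ω, |Φ x ω| ≤ C) :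
    Integrable (fun x => ∫ ω, Φ x ω ∂(PP Λ c)) kap ∧ ∀ x, Integrable (Φ x) (PP Λ c) := by
  have := PP_prob Λ hc
  have h1 : Integrable (Function.uncurry Φ) (kap.prod (PP Λ c)) := by
    refine Integrable.of_bound (C := C) hΦ.aestronglyMeasurable (ae_of_all _ fun p => ?_)
    rw [Real.norm_eq_abs]
    exact hC _ _
  refine ⟨h1.integral_prod_left, fun x => ?_⟩
  refine Integrable.of_bound (C := C) ?_ (ae_of_all _ fun ω => ?_)
  · exact (hΦ.comp (continuous_const.prodMk continuous_id)).aestronglyMeasurable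
  · rw [Real.norm_eq_abs]
    exact hC _ _

theorem qps_line {η : ℝ} : Continuous fun p : ℝ × (Λ → ℝ) => (⟨p.1, η⟩ : ℂ) := by
  have : (fun p : ℝ × (Λ → ℝ) => (⟨p.1, η⟩ : ℂ)) = fun p => (p.1 : ℂ) + (η : ℂ) * I := by
    funext p
    apply Complex.ext <;> simp
  rw [this]
  fun_prop

theorem qps_gg (M : Model c e H) (o x : Λ) {η : ℝ} (hη : 0 < η) :
    Continuous (Function.uncurry fun (u : ℝ) (ω : Λ → ℝ) => ‖gg e H ω (⟨u, η⟩ : ℂ) o x‖ ^ 2) :=
  (M.continuous_gg continuous_snd qps_line (fun _ => hη) o x).norm.pow 2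

theorem qps_Gr (M : Model c e H) (o x : Λ) {η : ℝ} (hη : 0 < η) :
    Continuous (fun p : ℝ × (Λ → ℝ) => Gr e H p.2 (⟨p.1, η⟩ : ℂ) o x) :=
  M.continuous_Gr continuous_snd qps_line (fun _ => hη) o x

theorem qps_den (M : Model c e H) (o : Λ) {η : ℝ} (hη : 0 < η) :
    Continuous (fun p : ℝ × (Λ → ℝ) => den e H p.2 (⟨p.1, η⟩ : ℂ) o) :=
  M.continuous_den continuous_snd qps_line (fun _ => hη) o

theorem qps_gg_le (M : Model c e H) (ω : Λ → ℝ) {z : ℂ} (hz : 0 < z.im) (o x : Λ) :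
    ‖gg e H ω z o x‖ ≤ 1 / z.im := (M.norm_gg_le ω hz o x).trans (M.norm_Gr_le ω hz o x)

theorem qps_im_le (M : Model c e H) (ω : Λ → ℝ) {z : ℂ} (hz : 0 < z.im) (o : Λ) :
    0 ≤ (Gr e H ω z o o).im / ‖den e H ω z o‖ ^ 2 ∧
      (Gr e H ω z o o).im / ‖den e H ω z o‖ ^ 2 ≤ 1 / z.im := by
  have h1 := M.one_le_norm_den ω hz o
  have h2 := M.im_Gr_pos ω hz o
  have h3 : (Gr e H ω z o o).im ≤ 1 / z.im :=
    ((le_abs_self _).trans (Complex.abs_im_le_norm _)).trans (M.norm_Gr_le ω hz o o)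
  refine ⟨by positivity, (div_le_self h2.le ?_).trans h3⟩
  nlinarith

/-- the main sum -/
theorem main_sum (M : Model c e H) {V : Λ → (E ≃ₗᵢ[ℂ] E)} (hH : CovOp V H)
    (hns : ¬ ∀ᵐ ω ∂(PP Λ c), ∀ μ : Measure ℝ, IsFiniteMeasure μ → IsSpec (H ω) (e 0) μ →
      μ ⟂ₘ volume) :
    ∃ κ : ℝ, 0 < κ ∧ κ ≤ 1 ∧ ∃ (C : ℝ) (n₀ : ℕ), 0 < C ∧ ∀ (J : Finset ℕ) (B : ℕ → Finset Λ),
      (∀ n ∈ J, n₀ ≤ n) →
      (∀ n ∈ J, 4 * len c n * ∫ s in Ioi (0:ℝ), rexp (-2 * len c n * s)
        * (∫ ω, outF e H (B n) s ω ∂(PP Λ c)) ≤ κ / 2) →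
      ∑ n ∈ J, (2:ℝ) ^ n / (B n).card ≤ C := by
  have := PP_prob Λ M.hc
  have hc := M.hc
  obtain ⟨κ₀, hκ₀, η₀, hη₀, hac⟩ := ac_input M 0 hns
  obtain ⟨φ, hφm, hφ1, hφ2, hφ3, hφ4⟩ := diss M hH.bdd (0:Λ)
  set κ : ℝ := min κ₀ 1 with hκd
  have hκ : 0 < κ := lt_min hκ₀ one_pos
  have hκ1 : κ ≤ 1 := min_le_right _ _
  set ε : ℝ := (κ / 704) ^ 2 with hεd
  have hε : 0 < ε := by positivity
  have hε1 : ε ≤ 1 := by
    rw [hεd]
    have : κ / 704 ≤ 1 := by rw [div_le_one (by norm_num)]; linarith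
    exact pow_le_one₀ (by positivity) this
  have hsq : √ε = κ / 704 := by rw [hεd]; exact Real.sqrt_sq (by positivity)
  obtain ⟨n₀, hn₀⟩ : ∃ n₀ : ℕ, len c n₀ ≤ η₀ := by
    have h1 : Tendsto (fun n : ℕ => c * (1/2 : ℝ) ^ n) atTop (𝓝 (c * 0)) :=
      (tendsto_pow_atTop_nhds_zero_of_lt_one (by norm_num) (by norm_num)).const_mul c
    rw [mul_zero] at h1
    obtain ⟨n, hn⟩ := (h1.eventually (gt_mem_nhds hη₀)).exists
    refine ⟨n, ?_⟩
    unfold len
    have : c / 2 ^ n = c * (1/2 : ℝ) ^ n := by rw [div_eq_mul_inv, one_div, inv_pow]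
    rw [this]; exact hn.le
  have hanti : ∀ n, n₀ ≤ n → len c n ≤ η₀ := by
    intro n hn
    refine le_trans ?_ hn₀
    unfold len
    exact div_le_div_of_nonneg_left hc.le (by positivity) (pow_le_pow_right₀ (by norm_num) hn)
  refine ⟨κ, hκ, hκ1, 20480 / (κ ^ 2 * ε), n₀, by positivity, fun J B hJ hB => ?_⟩
  set L : Finset Λ := J.biUnion B with hL
  obtain ⟨N, hN⟩ : ∃ N : ℕ, ∀ n ∈ J, n < N := ⟨J.sup id + 1, fun n hn =>
    Nat.lt_succ_of_le (Finset.le_sup (f := id) hn)⟩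
  set K : ℕ := N + 1 with hK
  set l : List (Λ × ℕ) := (L ×ˢ Finset.range K).toList with hl
  have hlnd : l.Nodup := Finset.nodup_toList _
  have hlf : l.toFinset = L ×ˢ Finset.range K := Finset.toList_toFinset _
  have hlm : ∀ a, a ∈ l ↔ a.1 ∈ L ∧ a.2 < K := by
    intro a
    rw [hl, Finset.mem_toList, Finset.mem_product, Finset.mem_range]
  have hr0 : ∀ n (b : Λ × ℕ), 0 ≤ rate ε n b := fun n b => by
    unfold rate; positivity
  have hr1 : ∀ n (b : Λ × ℕ), rate ε n b ≤ 1 := fun n b => by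
    unfold rate
    calc ε * min ((2:ℝ) ^ b.2 / 2 ^ n) 1 ≤ ε * 1 := by
          gcongr
          exact min_le_right _ _
      _ ≤ 1 := by rw [mul_one]; exact hε1
  have hrm : ∀ n (b : Λ × ℕ), rate ε (n + 1) b ≤ rate ε n b := fun n b => by
    unfold rate
    gcongr
    · norm_num
    · omega
  have hFl : Flips (PP Λ c) (sg c : Λ × ℕ → (Λ → ℝ) → (Λ → ℝ)) := flips_sg hc
  set R : ℕ → ℝ := fun n => ∫ u, RR (PP Λ c) (sg c) l (rate ε (n + 1)) (rate ε n)
    (fun ω => gg e H ω (⟨u, len c n⟩ : ℂ) 0 0) ∂kap with hR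
  have hfun : ∀ (n : ℕ) (u : ℝ), (fun ω => gg e H ω (⟨u, len c n⟩ : ℂ) 0 0)
      = fun ω => lap φ (len c n) u ω := fun n u => by
    funext ω
    exact hφ4 ω u _ (len_pos hc n)
  have hbud : ∑ n ∈ Finset.range N, R n ≤ 2 := by
    have h1 := budget hFl hlnd hφm hφ1 hφ2 hφ3 (η := fun n => len c n) (fun n => len_pos hc n)
      (s := fun n => rate ε n) hr0 hr1 hrm N
    refine le_trans (le_of_eq ?_) h1
    refine Finset.sum_congr rfl fun n _ => ?_
    simp only [hR]
    simp_rw [hfun]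
  have hRi : ∀ n, Integrable (fun u => RR (PP Λ c) (sg c) l (rate ε (n + 1)) (rate ε n)
      (fun ω => gg e H ω (⟨u, len c n⟩ : ℂ) 0 0)) kap := by
    intro n
    simp_rw [hfun]
    exact integrable_RR_lap hFl l hφm hφ1 (len_pos hc n) _ _
  have hR0 : ∀ n, 0 ≤ R n := fun n => integral_nonneg fun u =>
    RR_nonneg _ (hr0 _) (hrm n) (hr1 _)
  -- the main estimate for one scale
  have key : ∀ n ∈ J, (2:ℝ) ^ n / (B n).card ≤ 10240 / (κ ^ 2 * ε) * R n := by
    intro n hn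
    set η : ℝ := len c n with hηd
    have hη : 0 < η := len_pos hc n
    have hzim : ∀ u : ℝ, (⟨u, η⟩ : ℂ).im = η := fun u => rfl
    have hz : ∀ u : ℝ, 0 < (⟨u, η⟩ : ℂ).im := fun u => hη
    have hnK : n < K := (hN n hn).trans (Nat.lt_succ_self _)
    have hBL : B n ⊆ L := Finset.subset_biUnion_of_mem B hn
    set m : ℝ := ((B n).card : ℝ) with hm
    have hm0 : 0 ≤ m := Nat.cast_nonneg _
    -- the integrals
    set I3 : ℝ := ∫ u, (∫ ω, η * ∑ x ∈ B n, ‖gg e H ω (⟨u, η⟩ : ℂ) 0 x‖ ^ 2 ∂(PP Λ c)) ∂kap with hI3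
    have hcg : ∀ X : Finset Λ, Continuous (Function.uncurry fun (u : ℝ) (ω : Λ → ℝ) =>
        η * ∑ x ∈ X, ‖gg e H ω (⟨u, η⟩ : ℂ) 0 x‖ ^ 2) := by
      intro X
      refine continuous_const.mul (continuous_finsetSum _ fun x _ => qps_gg M 0 x hη)
    have hbg : ∀ (X : Finset Λ) (u : ℝ) (ω : Λ → ℝ),
        |η * ∑ x ∈ X, ‖gg e H ω (⟨u, η⟩ : ℂ) 0 x‖ ^ 2| ≤ 1 := by
      intro X u ω
      rw [abs_of_nonneg (by positivity)]
      exact ward_gg M 0 ω (hz u) X
    have hi3 := fun X => qps_outer hc (hcg X) (hbg X)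
    have hc1 : Continuous (Function.uncurry fun (u : ℝ) (ω : Λ → ℝ) =>
        (Gr e H ω (⟨u, η⟩ : ℂ) 0 0).im / ‖den e H ω (⟨u, η⟩ : ℂ) 0‖ ^ 2) := by
      refine Continuous.div (Complex.continuous_im.comp (qps_Gr M 0 0 hη))
        ((qps_den M 0 hη).norm.pow 2) fun p => ?_
      have := M.one_le_norm_den p.2 (hz p.1) 0
      have h2 : 0 < ‖den e H p.2 (⟨p.1, η⟩ : ℂ) 0‖ := by linarith
      exact (pow_pos h2 2).ne'
    have hi1 := qps_outer hc hc1 (C := 1 / η) fun u ω => by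
      have := qps_im_le M ω (hz u) 0
      rw [abs_of_nonneg this.1]
      exact this.2
    have hc2 : Continuous (Function.uncurry fun (u : ℝ) (ω : Λ → ℝ) =>
        (Gr e H ω (⟨u, η⟩ : ℂ) 0 0).im - η * ∑ y ∈ B n, ‖Gr e H ω (⟨u, η⟩ : ℂ) 0 y‖ ^ 2) := by
      refine (Complex.continuous_im.comp (qps_Gr M 0 0 hη)).sub
        (continuous_const.mul (continuous_finsetSum _ fun x _ => ?_))
      exact (qps_Gr M 0 x hη).norm.pow 2
    have hw : ∀ (u : ℝ) (ω : Λ → ℝ), 0 ≤ (Gr e H ω (⟨u, η⟩ : ℂ) 0 0).im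
        - η * ∑ y ∈ B n, ‖Gr e H ω (⟨u, η⟩ : ℂ) 0 y‖ ^ 2 := fun u ω => by
      have := ward_G M 0 ω (hz u) (B n)
      rw [hzim] at this
      linarith
    have hi2 := qps_outer hc hc2 (C := 1 / η) fun u ω => by
      rw [abs_of_nonneg (hw u ω)]
      have h3 : (Gr e H ω (⟨u, η⟩ : ℂ) 0 0).im ≤ 1 / η :=
        ((le_abs_self _).trans (Complex.abs_im_le_norm _)).trans (M.norm_Gr_le ω (hz u) 0 0)
      have h4 : 0 ≤ η * ∑ y ∈ B n, ‖Gr e H ω (⟨u, η⟩ : ℂ) 0 y‖ ^ 2 := by positivity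
      linarith
    have hI3ge : κ / 2 ≤ I3 := by
      have h1 : κ ≤ ∫ u, (∫ ω, (Gr e H ω (⟨u, η⟩ : ℂ) 0 0).im / ‖den e H ω (⟨u, η⟩ : ℂ) 0‖ ^ 2
          ∂(PP Λ c)) ∂kap := (min_le_left _ _).trans (hac η hη (hanti n (hJ n hn)))
      have h2 := (out_main M hH (B n) hη).trans (hB n hn)
      have h3 : (∫ u, (∫ ω, (Gr e H ω (⟨u, η⟩ : ℂ) 0 0).im / ‖den e H ω (⟨u, η⟩ : ℂ) 0‖ ^ 2
          ∂(PP Λ c)) ∂kap) - (∫ u, (∫ ω, ((Gr e H ω (⟨u, η⟩ : ℂ) 0 0).im
            - η * ∑ y ∈ B n, ‖Gr e H ω (⟨u, η⟩ : ℂ) 0 y‖ ^ 2) ∂(PP Λ c)) ∂kap) ≤ I3 := by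
        rw [hI3, ← integral_sub hi1.1 hi2.1]
        refine integral_mono (hi1.1.sub hi2.1) (hi3 (B n)).1 fun u => ?_
        simp only
        rw [← integral_sub (hi1.2 u) (hi2.2 u)]
        refine integral_mono ((hi1.2 u).sub (hi2.2 u)) ((hi3 (B n)).2 u) fun ω => ?_
        simp only
        have hd := M.one_le_norm_den ω (hz u) 0
        set D := ‖den e H ω (⟨u, η⟩ : ℂ) 0‖ with hD
        have hD1 : 1 ≤ D ^ 2 := by nlinarith
        have hD0 : 0 < D ^ 2 := by linarith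
        have e1 : η * ∑ x ∈ B n, ‖gg e H ω (⟨u, η⟩ : ℂ) 0 x‖ ^ 2
            = (η * ∑ x ∈ B n, ‖Gr e H ω (⟨u, η⟩ : ℂ) 0 x‖ ^ 2) / D ^ 2 := by
          rw [mul_div_assoc, Finset.sum_div]
          congr 1
          refine Finset.sum_congr rfl fun x _ => ?_
          unfold gg
          rw [norm_div, div_pow]
        rw [e1]
        have h5 := hw u ω
        set A := (Gr e H ω (⟨u, η⟩ : ℂ) 0 0).im
        set S := η * ∑ x ∈ B n, ‖Gr e H ω (⟨u, η⟩ : ℂ) 0 x‖ ^ 2
        have h6 : (A - S) / D ^ 2 ≤ A - S := div_le_self h5 hD1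
        rw [sub_div] at h6
        linarith
      linarith
    -- integrate the main inequality
    have hmain : ∀ t : ℝ, 0 < t → (1 / 8) * I3 ≤ κ / 64 + t * η / 2 * R n + 10 * m / (t * ε * c) := by
      intro t ht
      have hpt : ∀ u : ℝ, (1 / 8) * (∫ ω, η * ∑ x ∈ B n, ‖gg e H ω (⟨u, η⟩ : ℂ) 0 x‖ ^ 2 ∂(PP Λ c))
          ≤ κ / 64 + t * η / 2 * RR (PP Λ c) (sg c) l (rate ε (n + 1)) (rate ε n)
            (fun ω => gg e H ω (⟨u, η⟩ : ℂ) 0 0) + 10 * m / (t * ε * c) := by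
        intro u
        set z : ℂ := ⟨u, η⟩ with hzd
        have hzi : z.im = len c n := rfl
        have hz0 : 0 < z.im := hη
        have hBM : ∀ x, BM fun ω => gg e H ω z 0 x := fun x =>
          ⟨(M.continuous_gg continuous_id continuous_const (fun _ => hz0) 0 x).measurable,
            1 / z.im, fun ω => qps_gg_le M ω hz0 0 x⟩
        have hnn : ∀ X : Finset Λ, ∑ x ∈ X, nn (PP Λ c) (fun ω => gg e H ω z 0 x)
            = ∫ ω, ∑ x ∈ X, ‖gg e H ω z 0 x‖ ^ 2 ∂(PP Λ c) := by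
          intro X
          unfold nn
          rw [integral_finsetSum]
          intro x _
          refine Integrable.of_bound (C := (1 / z.im) ^ 2)
            ((M.continuous_gg continuous_id continuous_const
              (fun _ => hz0) 0 x).norm.pow 2).aestronglyMeasurable (ae_of_all _ fun ω => ?_)
          rw [Real.norm_of_nonneg (by positivity)]
          exact pow_le_pow_left₀ (norm_nonneg _) (qps_gg_le M ω hz0 0 x) 2
        set S : ℝ := ∑ y ∈ L, nn (PP Λ c) (fun ω => gg e H ω z 0 y) with hS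
        have hSη : η * S ≤ 1 := by
          rw [hS, hnn, ← integral_const_mul]
          calc ∫ ω, η * ∑ x ∈ L, ‖gg e H ω z 0 x‖ ^ 2 ∂(PP Λ c) ≤ ∫ _ω, (1:ℝ) ∂(PP Λ c) := by
                refine integral_mono ((hi3 L).2 u) (integrable_const _) fun ω => ?_
                exact ward_gg M 0 ω hz0 L
            _ = 1 := by simp
        have hBS : ∑ x ∈ B n, nn (PP Λ c) (fun ω => gg e H ω z 0 x) ≤ S := by
          refine Finset.sum_le_sum_of_subset_of_nonneg hBL fun x _ _ => ?_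
          unfold nn
          exact integral_nonneg fun ω => by positivity
        have hlow := fun x => low_main M (0:Λ) x hzi
        choose W Nr hW1 hW2 hW3 hW4 hW5 hW6 hW7 using hlow
        have hstab : ∑ b ∈ l.toFinset, rate ε n b * ∑ x ∈ B n,
            nn (PP Λ c) (od (sg c) b (fun ω => gg e H ω z 0 x)) ≤ 5 * ε * S := by
          rw [hlf, Finset.sum_product, hS, Finset.mul_sum]
          refine Finset.sum_le_sum fun y _ => ?_
          have h1 := up_main M (0:Λ) y hzi (B n) K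
          calc ∑ k ∈ Finset.range K, rate ε n (y, k) * ∑ x ∈ B n,
                nn (PP Λ c) (od (sg c) (y, k) (fun ω => gg e H ω z 0 x))
              = ε * ∑ k ∈ Finset.range K, min ((2:ℝ) ^ k / 2 ^ n) 1 * ∑ x ∈ B n,
                nn (PP Λ c) (od (sg c) (y, k) (fun ω => gg e H ω z 0 x)) := by
                rw [Finset.mul_sum]
                refine Finset.sum_congr rfl fun k _ => ?_
                unfold rate
                ring
            _ ≤ ε * (5 * nn (PP Λ c) (fun ω => gg e H ω z 0 y)) := by gcongr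
            _ = 5 * ε * nn (PP Λ c) (fun ω => gg e H ω z 0 y) := by ring
        have hod : ∀ (a : Λ × ℕ) (ω : Λ → ℝ), od (sg c) a (fun ω => gg e H ω z 0 0) ω
            = ((sn c a ω * len c a.2 / 2 : ℝ) : ℂ) * gg e H ω z 0 a.1
              * gg e H (sg c a ω) z 0 a.1 := by
          intro a ω
          have h1 := gg_upd M (0:Λ) ω hz0 (0:Λ) a.1 (flp c a.2 (ω a.1))
          rw [clp_sg hc a ω, Gt_o M (0:Λ) _ hz0] at h1
          have h2 : gg e H (sg c a ω) z 0 0 = gg e H ω z 0 0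
              + -((sn c a ω * len c a.2 : ℝ) : ℂ) * gg e H ω z 0 a.1
                * gg e H (sg c a ω) z 0 a.1 := by
            unfold sg
            rw [← h1]; ring
          unfold od
          change (gg e H ω z 0 0 - gg e H (sg c a ω) z 0 0) / 2 = _
          rw [h2]
          push_cast
          ring
        have hab := abs_main (P := PP Λ c) (σ := sg c) hFl hBL hnK hlnd hlm hc hε hε1
          (hBM 0) (g := fun x ω => gg e H ω z 0 x) hBM (sn := sn c) (abs_sn_le c)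
          (fun a b hab ω => sn_sg_ne hc hab ω) hod hW1 hW2 hW3 hW4 hW5 hW6 hW7 hBS hstab ht
        rw [hsq] at hab
        have h3 := mul_le_mul_of_nonneg_left hab hη.le
        have h4 : ∫ ω, η * ∑ x ∈ B n, ‖gg e H ω z 0 x‖ ^ 2 ∂(PP Λ c)
            = η * ∑ x ∈ B n, nn (PP Λ c) (fun ω => gg e H ω z 0 x) := by
          rw [hnn, integral_const_mul]
        rw [h4]
        have h5 : η * (10 * ((B n).card : ℝ) / (t * ε * (c * len c n))) = 10 * m / (t * ε * c) := by
          rw [← hηd, hm]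
          field_simp
        have h6 : η * (11 * (κ / 704) * S) ≤ κ / 64 := by
          have : η * (11 * (κ / 704) * S) = κ / 64 * (η * S) := by ring
          rw [this]
          exact mul_le_of_le_one_right (by positivity) hSη
        rw [mul_add, mul_add, h5] at h3
        linarith
      have hfi : Integrable (fun u => κ / 64 + t * η / 2 * RR (PP Λ c) (sg c) l
          (rate ε (n + 1)) (rate ε n) (fun ω => gg e H ω (⟨u, η⟩ : ℂ) 0 0)
          + 10 * m / (t * ε * c)) kap :=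
        ((integrable_const _).add ((hRi n).const_mul _)).add (integrable_const _)
      calc (1 / 8) * I3 = ∫ u, (1 / 8) * (∫ ω, η * ∑ x ∈ B n,
            ‖gg e H ω (⟨u, η⟩ : ℂ) 0 x‖ ^ 2 ∂(PP Λ c)) ∂kap := by
            rw [hI3, integral_const_mul]
        _ ≤ ∫ u, (κ / 64 + t * η / 2 * RR (PP Λ c) (sg c) l
          (rate ε (n + 1)) (rate ε n) (fun ω => gg e H ω (⟨u, η⟩ : ℂ) 0 0)
          + 10 * m / (t * ε * c)) ∂kap :=
            integral_mono ((hi3 (B n)).1.const_mul _) hfi hpt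
        _ = κ / 64 + t * η / 2 * R n + 10 * m / (t * ε * c) := by
            have g1 := integral_add ((integrable_const (κ / 64)).add ((hRi n).const_mul (t * η / 2)))
              (integrable_const (μ := kap) (10 * m / (t * ε * c)))
            have g2 := integral_add (integrable_const (μ := kap) (κ / 64))
              ((hRi n).const_mul (t * η / 2))
            simp only [Pi.add_apply] at g1 g2
            rw [g1, g2, integral_const_mul]
            simp [hR, hηd]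
    -- conclusion
    rcases Nat.eq_zero_or_pos (B n).card with h0 | h0
    · have hm00 : m = 0 := by rw [hm, h0]; simp
      rw [hm00, div_zero]
      exact mul_nonneg (by positivity) (hR0 n)
    · have hmpos : 0 < m := by rw [hm]; exact_mod_cast h0
      have h1 := hmain (640 * m / (ε * c * κ)) (by positivity)
      have h2 : 10 * m / (640 * m / (ε * c * κ) * ε * c) = κ / 64 := by
        field_simp
        norm_num
      rw [h2] at h1
      have h3 : κ / 32 ≤ 640 * m / (ε * c * κ) * η / 2 * R n := by linarith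
      have h4 : (2:ℝ) ^ n / m = c / (m * η) := by
        rw [hηd]
        unfold len
        field_simp
      rw [h4, div_le_iff₀ (by positivity)]
      have h5 : 640 * m / (ε * c * κ) * η / 2 * R n = (320 * m * η / (ε * c * κ)) * R n := by ring
      rw [h5] at h3
      have h6 : c = (32 * ε * c * c * κ / (κ ^ 2 * ε * c)) * (κ / 32) := by
        field_simp
      calc c = (32 * ε * c * c * κ / (κ ^ 2 * ε * c)) * (κ / 32) := h6
        _ ≤ (32 * ε * c * c * κ / (κ ^ 2 * ε * c)) * ((320 * m * η / (ε * c * κ)) * R n) := by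
            gcongr
        _ = 10240 / (κ ^ 2 * ε) * R n * (m * η) := by
            field_simp
            ring
  calc ∑ n ∈ J, (2:ℝ) ^ n / (B n).card ≤ ∑ n ∈ J, 10240 / (κ ^ 2 * ε) * R n :=
        Finset.sum_le_sum key
    _ = 10240 / (κ ^ 2 * ε) * ∑ n ∈ J, R n := by rw [Finset.mul_sum]
    _ ≤ 10240 / (κ ^ 2 * ε) * ∑ n ∈ Finset.range N, R n := by
        gcongr
        · intro n _ _
          exact hR0 n
        · intro n hn
          exact Finset.mem_range.mpr (hN n hn)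
    _ ≤ 10240 / (κ ^ 2 * ε) * 2 := by gcongr
    _ = 20480 / (κ ^ 2 * ε) := by ring

end Pool.Agent.Lib.MP_562b47_mp.QP
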