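import Mathlib
import Pool.Agent.Lib.MP_562b47_mp.QP.Sum
import Pool.Agent.Lib.MP_562b47_mp.WindowB

/-!
QuantumPolya (MP_562b47_mp), module Fin: from the sum over the scales to integrals over the time.
-/

open MeasureTheory Set Filter Topology Complex
open scoped Real ENNReal NNReal InnerProductSpace

set_option linter.unusedSectionVars false

namespace Pool.Agent.Lib.MP_562b47_mp.QP

section model

variable {Λ : Type*} [DecidableEq Λ] [AddCommGroup Λ] [Countable Λ] {E : Type*}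
  [NormedAddCommGroup E] [InnerProductSpace ℂ E] [CompleteSpace E] {c : ℝ} {e : Λ → E}
  {H : (Λ → ℝ) → (E →L[ℂ] E)}

/-- averaged probability to be outside -/
noncomputable def qv (c : ℝ) (e : Λ → E) (H : (Λ → ℝ) → (E →L[ℂ] E)) (B : Finset Λ) (t : ℝ) : ℝ :=
  ∫ ω, outF e H B t ω ∂(PP Λ c)

theorem qpf_qv_mem (M : Model c e H) (B : Finset Λ) (t : ℝ) :
    0 ≤ qv c e H B t ∧ qv c e H B t ≤ 1 := by
  have := PP_prob Λ M.hc
  refine ⟨integral_nonneg fun ω => (M.outF_mem B t ω).1, ?_⟩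
  calc qv c e H B t ≤ ∫ _ω, (1:ℝ) ∂(PP Λ c) := by
        refine integral_mono_of_nonneg (ae_of_all _ fun ω => (M.outF_mem B t ω).1)
          (integrable_const _) (ae_of_all _ fun ω => (M.outF_mem B t ω).2)
    _ = 1 := by simp

theorem qpf_measurable (M : Model c e H) {V : Λ → (E ≃ₗᵢ[ℂ] E)} (hH : CovOp V H) (B : Finset Λ) :
    Measurable (qv c e H B) := by
  have := PP_prob Λ M.hc
  have h : StronglyMeasurable (Function.uncurry fun (t : ℝ) (ω : Λ → ℝ) => outF e H B t ω) :=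
    (continuous_outF hH B).measurable.stronglyMeasurable
  exact h.integral_prod_right.measurable

theorem qpf_lint (M : Model c e H) {V : Λ → (E ≃ₗᵢ[ℂ] E)} (hH : CovOp V H) (B : Finset Λ)
    (t : ℝ) : ∫⁻ ω, ENNReal.ofReal (outF e H B t ω) ∂(PP Λ c) = ENNReal.ofReal (qv c e H B t) := by
  have := PP_prob Λ M.hc
  unfold qv
  rw [ofReal_integral_eq_lintegral_ofReal]
  · refine Integrable.of_bound (C := 1) ?_ (ae_of_all _ fun ω => ?_)
    · exact ((continuous_outF hH B).comp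
        (continuous_const.prodMk continuous_id)).aestronglyMeasurable
    · rw [Real.norm_of_nonneg (M.outF_mem B t ω).1]
      exact (M.outF_mem B t ω).2
  · exact ae_of_all _ fun ω => (M.outF_mem B t ω).1

theorem qpf_intOn (M : Model c e H) {V : Λ → (E ≃ₗᵢ[ℂ] E)} (hH : CovOp V H) (B : Finset Λ)
    (T : ℝ) : IntegrableOn (qv c e H B) (Ioc 0 T) := by
  refine Integrable.of_bound (C := 1) (qpf_measurable M hH B).aestronglyMeasurable
    (ae_of_all _ fun t => ?_)
  rw [Real.norm_of_nonneg (qpf_qv_mem M B t).1]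
  exact (qpf_qv_mem M B t).2

theorem qpf_lint2 (M : Model c e H) {V : Λ → (E ≃ₗᵢ[ℂ] E)} (hH : CovOp V H) (B : Finset Λ)
    (T : ℝ) : ∫⁻ t in Ioc 0 T, ∫⁻ ω, ENNReal.ofReal (outF e H B t ω) ∂(PP Λ c)
      = ENNReal.ofReal (∫ t in Ioc 0 T, qv c e H B t) := by
  simp_rw [qpf_lint M hH B]
  rw [ofReal_integral_eq_lintegral_ofReal (qpf_intOn M hH B T)
    (ae_of_all _ fun t => (qpf_qv_mem M B t).1)]

/-- the truncation of the Laplace average -/
theorem qpf_laplace (M : Model c e H) {V : Λ → (E ≃ₗᵢ[ℂ] E)} (hH : CovOp V H) (B : Finset Λ)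
    {η T : ℝ} (hη : 0 < η) (hT : 0 < T) :
    4 * η * ∫ s in Ioi (0:ℝ), rexp (-2 * η * s) * qv c e H B s
      ≤ 4 * η * (∫ t in Ioc 0 T, qv c e H B t) + 2 * rexp (-2 * (η * T)) := by
  have hm := qpf_measurable M hH B
  have hexp : IntegrableOn (fun s : ℝ => rexp (-2 * η * s)) (Ioi 0) := by
    have := integrableOn_exp_mul_Ioi (a := -2 * η) (by nlinarith) 0
    exact this
  have hint : IntegrableOn (fun s : ℝ => rexp (-2 * η * s) * qv c e H B s) (Ioi 0) := by
    refine Integrable.mul_bdd (c := 1) hexp hm.aestronglyMeasurable (ae_of_all _ fun t => ?_)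
    rw [Real.norm_of_nonneg (qpf_qv_mem M B t).1]
    exact (qpf_qv_mem M B t).2
  have hsplit : Ioi (0:ℝ) = Ioc 0 T ∪ Ioi T := (Ioc_union_Ioi_eq_Ioi hT.le).symm
  have h1 : ∫ s in Ioi (0:ℝ), rexp (-2 * η * s) * qv c e H B s
      = (∫ s in Ioc 0 T, rexp (-2 * η * s) * qv c e H B s)
        + ∫ s in Ioi T, rexp (-2 * η * s) * qv c e H B s := by
    rw [hsplit, setIntegral_union (Ioc_disjoint_Ioi le_rfl) measurableSet_Ioi]
    · exact hint.mono_set Ioc_subset_Ioi_self
    · exact hint.mono_set (Ioi_subset_Ioi hT.le)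
  have h2 : ∫ s in Ioc 0 T, rexp (-2 * η * s) * qv c e H B s ≤ ∫ t in Ioc 0 T, qv c e H B t := by
    refine setIntegral_mono_on (hint.mono_set Ioc_subset_Ioi_self) (qpf_intOn M hH B T)
      measurableSet_Ioc fun s hs => ?_
    refine mul_le_of_le_one_left (qpf_qv_mem M B s).1 ?_
    rw [Real.exp_le_one_iff]
    have := hs.1
    nlinarith
  have h3 : ∫ s in Ioi T, rexp (-2 * η * s) * qv c e H B s ≤ rexp (-2 * (η * T)) / (2 * η) := by
    calc ∫ s in Ioi T, rexp (-2 * η * s) * qv c e H B s ≤ ∫ s in Ioi T, rexp (-2 * η * s) := by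
          refine setIntegral_mono_on (hint.mono_set (Ioi_subset_Ioi hT.le))
            (hexp.mono_set (Ioi_subset_Ioi hT.le)) measurableSet_Ioi fun s _ => ?_
          exact mul_le_of_le_one_right (Real.exp_pos _).le (qpf_qv_mem M B s).2
      _ = rexp (-2 * (η * T)) / (2 * η) := by
          rw [integral_exp_mul_Ioi (a := -2 * η) (by nlinarith) T]
          have : -2 * η * T = -2 * (η * T) := by ring
          rw [this]
          field_simp
  rw [h1]
  have h4 : 4 * η * (rexp (-2 * (η * T)) / (2 * η)) = 2 * rexp (-2 * (η * T)) := by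
    field_simp
    norm_num
  nlinarith [mul_le_mul_of_nonneg_left (add_le_add h2 h3) (by positivity : (0:ℝ) ≤ 4 * η)]

/-- the number of sites visited -/
noncomputable def Nst (c : ℝ) (e : Λ → E) (H : (Λ → ℝ) → (E →L[ℂ] E)) (δ T : ℝ) : ℝ≥0∞ :=
  ⨅ (B : Finset Λ) (_ : (∫⁻ t in Ioc 0 T, ∫⁻ ω, ENNReal.ofReal (outF e H B t ω) ∂(PP Λ c))
    ≤ ENNReal.ofReal (δ * T)), (B.card : ℝ≥0∞)

theorem qpf_valid (M : Model c e H) {V : Λ → (E ≃ₗᵢ[ℂ] E)} (hH : CovOp V H) {B : Finset Λ}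
    {δ T : ℝ} (hδ : 0 ≤ δ) (hT : 0 ≤ T) :
    (∫⁻ t in Ioc 0 T, ∫⁻ ω, ENNReal.ofReal (outF e H B t ω) ∂(PP Λ c)) ≤ ENNReal.ofReal (δ * T)
      ↔ ∫ t in Ioc 0 T, qv c e H B t ≤ δ * T := by
  rw [qpf_lint2 M hH, ENNReal.ofReal_le_ofReal_iff (by positivity)]

theorem qpf_attained (δ T : ℝ) (h : ∃ B : Finset Λ,
      (∫⁻ t in Ioc 0 T, ∫⁻ ω, ENNReal.ofReal (outF e H B t ω) ∂(PP Λ c)) ≤ ENNReal.ofReal (δ * T)) :
    ∃ B : Finset Λ, (∫⁻ t in Ioc 0 T, ∫⁻ ω, ENNReal.ofReal (outF e H B t ω) ∂(PP Λ c))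
      ≤ ENNReal.ofReal (δ * T) ∧ (B.card : ℝ≥0∞) = Nst c e H δ T := by
  set A : Set (Finset Λ) := {B | (∫⁻ t in Ioc 0 T, ∫⁻ ω, ENNReal.ofReal (outF e H B t ω)
    ∂(PP Λ c)) ≤ ENNReal.ofReal (δ * T)} with hA
  have hne : A.Nonempty := h
  obtain ⟨B, hB, hmin⟩ : ∃ B ∈ A, ∀ B' ∈ A, B.card ≤ B'.card := by
    refine ⟨Function.argminOn (fun B : Finset Λ => B.card) A hne,
      Function.argminOn_mem _ _ _, fun B' hB' => ?_⟩
    exact Function.argminOn_le (fun B : Finset Λ => B.card) A hB'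
  refine ⟨B, hB, le_antisymm ?_ ?_⟩
  · unfold Nst
    refine le_iInf₂ fun B' hB' => ?_
    exact_mod_cast hmin B' hB'
  · exact iInf₂_le B hB

theorem fin1 (M : Model c e H) {V : Λ → (E ≃ₗᵢ[ℂ] E)} (hH : CovOp V H)
    (hns : ¬ ∀ᵐ ω ∂(PP Λ c), ∀ μ : Measure ℝ, IsFiniteMeasure μ → IsSpec (H ω) (e 0) μ →
      μ ⟂ₘ volume) :
    ∃ δ : ℝ, 0 < δ ∧ ∫⁻ T in Ioi (1:ℝ), (Nst c e H δ T)⁻¹ < ⊤ := by
  have := PP_prob Λ M.hc
  have hc := M.hc
  obtain ⟨κ, hκ, hκ1, C, n₀, hC, hsum⟩ := main_sum M hH hns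
  obtain ⟨L, hL1, hL⟩ : ∃ L : ℝ, 1 ≤ L ∧ rexp (-2 * L) ≤ κ / 8 := by
    have h1 : Tendsto (fun L : ℝ => rexp (-(2 * L))) atTop (𝓝 0) :=
      Real.tendsto_exp_neg_atTop_nhds_zero.comp (tendsto_id.const_mul_atTop (by norm_num))
    obtain ⟨L, hL, hL1⟩ := ((h1.eventually (ge_mem_nhds (show (0:ℝ) < κ / 8 by positivity))).and
      (eventually_ge_atTop 1)).exists
    exact ⟨L, hL1, by rw [neg_mul]; exact hL⟩
  have hL0 : 0 < L := by linarith
  set δ : ℝ := κ / (16 * L) with hδd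
  have hδ : 0 < δ := by positivity
  have hδ1 : δ ≤ 1 / 16 := by
    rw [hδd, div_le_div_iff₀ (by positivity) (by norm_num)]
    nlinarith
  set Tn : ℕ → ℝ := fun n => L * 2 ^ n / c with hTn
  have hTn0 : ∀ n, 0 < Tn n := fun n => by simp only [hTn]; positivity
  have hTs : ∀ n, Tn (n + 1) = 2 * Tn n := fun n => by simp only [hTn]; rw [pow_succ]; ring
  have hlT : ∀ n, len c n * Tn n = L := fun n => by
    simp only [hTn]; unfold len; field_simp
  -- bound of the sums
  have hfs : ∀ J : Finset ℕ, (∀ n ∈ J, n₀ ≤ n) →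
      ∑ n ∈ J, ENNReal.ofReal (2 ^ n) * (Nst c e H δ (Tn n))⁻¹ ≤ ENNReal.ofReal C := by
    intro J hJ
    classical
    set J' := J.filter fun n => ∃ B : Finset Λ,
      (∫⁻ t in Ioc 0 (Tn n), ∫⁻ ω, ENNReal.ofReal (outF e H B t ω) ∂(PP Λ c))
        ≤ ENNReal.ofReal (δ * Tn n) with hJ'
    have hz : ∀ n ∈ J, n ∉ J' → ENNReal.ofReal (2 ^ n) * (Nst c e H δ (Tn n))⁻¹ = 0 := by
      intro n hn hn'
      rw [hJ', Finset.mem_filter] at hn'
      have h1 : ∀ B : Finset Λ, ¬ (∫⁻ t in Ioc 0 (Tn n), ∫⁻ ω, ENNReal.ofReal (outF e H B t ω)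
          ∂(PP Λ c)) ≤ ENNReal.ofReal (δ * Tn n) := fun B hB => hn' ⟨hn, B, hB⟩
      have h2 : Nst c e H δ (Tn n) = ⊤ := by
        unfold Nst
        rw [iInf_eq_top]
        intro B
        rw [iInf_eq_top]
        intro hB
        exact absurd hB (h1 B)
      rw [h2, ENNReal.inv_top, mul_zero]
    have hex : ∀ n, ∃ B : Finset Λ, n ∈ J' →
        (∫⁻ t in Ioc 0 (Tn n), ∫⁻ ω, ENNReal.ofReal (outF e H B t ω) ∂(PP Λ c))
          ≤ ENNReal.ofReal (δ * Tn n) ∧ (B.card : ℝ≥0∞) = Nst c e H δ (Tn n) := by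
      intro n
      by_cases hn : n ∈ J'
      · obtain ⟨B, hB⟩ := qpf_attained δ (Tn n) (Finset.mem_filter.mp hn).2
        exact ⟨B, fun _ => hB⟩
      · exact ⟨∅, fun h => absurd h hn⟩
    choose B hB using hex
    have h1 := hsum J' B (fun n hn => hJ n (Finset.mem_filter.mp hn).1) fun n hn => by
      have h2 := qpf_laplace M hH (B n) (len_pos hc n) (hTn0 n)
      have h3 := (qpf_valid M hH hδ.le (hTn0 n).le).mp (hB n hn).1
      have h4 : 4 * len c n * (∫ t in Ioc 0 (Tn n), qv c e H (B n) t) ≤ κ / 4 := by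
        calc 4 * len c n * (∫ t in Ioc 0 (Tn n), qv c e H (B n) t)
            ≤ 4 * len c n * (δ * Tn n) := by
              have := len_pos hc n
              gcongr
          _ = 4 * δ * (len c n * Tn n) := by ring
          _ = κ / 4 := by rw [hlT, hδd]; field_simp; norm_num
      rw [hlT] at h2
      have h5 : 2 * rexp (-2 * L) ≤ κ / 4 := by linarith
      calc 4 * len c n * ∫ s in Ioi (0:ℝ), rexp (-2 * len c n * s)
            * (∫ ω, outF e H (B n) s ω ∂(PP Λ c)) ≤ _ := h2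
        _ ≤ κ / 2 := by linarith
    rw [← Finset.sum_subset (Finset.filter_subset _ J : J' ⊆ J) hz]
    refine le_trans (Finset.sum_le_sum fun n hn => ?_)
      (le_trans (le_of_eq (ENNReal.ofReal_sum_of_nonneg (s := J')
        (f := fun n => (2:ℝ) ^ n / (B n).card) fun n _ => by positivity).symm)
        (ENNReal.ofReal_le_ofReal h1))
    have hcard : 0 < (B n).card := by
      rcases Nat.eq_zero_or_pos (B n).card with h0 | h0
      · exfalso
        have h2 := (qpf_valid M hH hδ.le (hTn0 n).le).mp (hB n hn).1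
        rw [Finset.card_eq_zero] at h0
        have h3 : ∀ t, qv c e H (B n) t = 1 := by
          intro t
          unfold qv outF
          rw [h0]
          simp
        simp_rw [h3] at h2
        rw [setIntegral_const, smul_eq_mul, mul_one, measureReal_def, Real.volume_Ioc, sub_zero,
          ENNReal.toReal_ofReal (hTn0 n).le] at h2
        have := hTn0 n
        nlinarith
      · exact h0
    rw [← (hB n hn).2, div_eq_mul_inv, ENNReal.ofReal_mul (by positivity),
      ENNReal.ofReal_inv_of_pos (by exact_mod_cast hcard), ENNReal.ofReal_natCast]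
  -- comparison in the time
  have hcomp : ∀ n, ∀ T ∈ Ioc (Tn n) (Tn (n + 1)), (Nst c e H (δ / 2) T)⁻¹ ≤ (Nst c e H δ (Tn n))⁻¹ := by
    intro n T hT
    rw [ENNReal.inv_le_inv]
    unfold Nst
    refine le_iInf₂ fun B hB => iInf₂_le B ?_
    have hT0 : 0 < T := (hTn0 n).trans hT.1
    rw [qpf_valid M hH (by positivity) hT0.le] at hB
    rw [qpf_valid M hH hδ.le (hTn0 n).le]
    calc ∫ t in Ioc 0 (Tn n), qv c e H B t ≤ ∫ t in Ioc 0 T, qv c e H B t := by
          refine setIntegral_mono_set (qpf_intOn M hH B T)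
            (ae_of_all _ fun t => (qpf_qv_mem M B t).1) ?_
          exact (Ioc_subset_Ioc_right hT.1.le).eventuallyLE
      _ ≤ δ / 2 * T := hB
      _ ≤ δ / 2 * Tn (n + 1) := by
          have := hT.2
          gcongr
      _ = δ * Tn n := by rw [hTs]; ring
  have hone : ∀ T : ℝ, 0 < T → (Nst c e H (δ / 2) T)⁻¹ ≤ 1 := by
    intro T hT
    rw [ENNReal.inv_le_one]
    unfold Nst
    refine le_iInf₂ fun B hB => ?_
    rcases Nat.eq_zero_or_pos B.card with h0 | h0
    · exfalso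
      rw [qpf_valid M hH (by positivity) hT.le] at hB
      rw [Finset.card_eq_zero] at h0
      have h3 : ∀ t, qv c e H B t = 1 := by
        intro t
        unfold qv outF
        rw [h0]
        simp
      simp_rw [h3] at hB
      rw [setIntegral_const, smul_eq_mul, mul_one, measureReal_def, Real.volume_Ioc, sub_zero,
        ENNReal.toReal_ofReal hT.le] at hB
      nlinarith
    · exact_mod_cast h0
  refine ⟨δ / 2, by positivity, ?_⟩
  have hcov : Ioi (1:ℝ) ⊆ Ioc 1 (max 1 (Tn n₀)) ∪ ⋃ n : ℕ, Ioc (Tn (n₀ + n)) (Tn (n₀ + n + 1)) := by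
    intro T hT
    have hT1 : 1 < T := hT
    by_cases h : T ≤ Tn n₀
    · left; exact ⟨hT1, h.trans (le_max_right _ _)⟩
    · right
      push Not at h
      have hlim : Tendsto (fun n => Tn (n₀ + n)) atTop atTop := by
        have h1 : Tendsto (fun n : ℕ => Tn n₀ * (2:ℝ) ^ n) atTop atTop :=
          (tendsto_pow_atTop_atTop_of_one_lt (by norm_num)).const_mul_atTop (hTn0 n₀)
        refine h1.congr fun n => ?_
        simp only [hTn]
        rw [pow_add]
        ring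
      obtain ⟨m, hm⟩ := (hlim.eventually (eventually_ge_atTop T)).exists
      have hex : ∃ n, T ≤ Tn (n₀ + n) := ⟨m, hm⟩
      classical
      set k := Nat.find hex with hk
      have hk1 : T ≤ Tn (n₀ + k) := Nat.find_spec hex
      have hk0 : k ≠ 0 := by
        intro h0
        rw [h0, add_zero] at hk1
        linarith
      obtain ⟨j, hj⟩ := Nat.exists_eq_succ_of_ne_zero hk0
      have hk2 : ¬ T ≤ Tn (n₀ + j) := Nat.find_min hex (by rw [← hk, hj]; exact Nat.lt_succ_self j)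
      rw [mem_iUnion]
      refine ⟨j, lt_of_not_ge hk2, ?_⟩
      rw [hj] at hk1
      exact hk1
  have hbound : ∫⁻ T in Ioi (1:ℝ), (Nst c e H (δ / 2) T)⁻¹
      ≤ ENNReal.ofReal (max 1 (Tn n₀)) + ENNReal.ofReal (L / c) * ENNReal.ofReal C := by
    refine (lintegral_mono_set hcov).trans ((lintegral_union_le _ _ _).trans (add_le_add ?_ ?_))
    · calc ∫⁻ T in Ioc 1 (max 1 (Tn n₀)), (Nst c e H (δ / 2) T)⁻¹
          ≤ ∫⁻ T in Ioc 1 (max 1 (Tn n₀)), 1 := by
            refine setLIntegral_mono' measurableSet_Ioc fun T hT => hone T ?_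
            linarith [hT.1]
        _ = ENNReal.ofReal (max 1 (Tn n₀) - 1) := by
            rw [setLIntegral_one, Real.volume_Ioc]
        _ ≤ _ := ENNReal.ofReal_le_ofReal (by linarith)
    · refine (lintegral_iUnion_le _ _).trans ?_
      have h1 : ∀ n : ℕ, ∫⁻ T in Ioc (Tn (n₀ + n)) (Tn (n₀ + n + 1)), (Nst c e H (δ / 2) T)⁻¹
          ≤ ENNReal.ofReal (L / c) * (ENNReal.ofReal (2 ^ (n₀ + n))
            * (Nst c e H δ (Tn (n₀ + n)))⁻¹) := by
        intro n
        calc ∫⁻ T in Ioc (Tn (n₀ + n)) (Tn (n₀ + n + 1)), (Nst c e H (δ / 2) T)⁻¹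
            ≤ ∫⁻ T in Ioc (Tn (n₀ + n)) (Tn (n₀ + n + 1)), (Nst c e H δ (Tn (n₀ + n)))⁻¹ :=
              setLIntegral_mono' measurableSet_Ioc fun T hT => hcomp _ T hT
          _ = (Nst c e H δ (Tn (n₀ + n)))⁻¹ * ENNReal.ofReal (Tn (n₀ + n)) := by
              rw [setLIntegral_const, Real.volume_Ioc, hTs]
              congr 2
              ring
          _ = _ := by
              have h2 : Tn (n₀ + n) = (L / c) * 2 ^ (n₀ + n) := by simp only [hTn]; ring
              rw [h2, ENNReal.ofReal_mul (by positivity)]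
              ring
      refine (ENNReal.tsum_le_tsum h1).trans ?_
      rw [ENNReal.tsum_mul_left]
      gcongr
      refine ENNReal.tsum_le_of_sum_range_le fun m => ?_
      have h3 := hfs ((Finset.range m).map (addLeftEmbedding n₀)) fun n hn => by
        rw [Finset.mem_map] at hn
        obtain ⟨k, _, rfl⟩ := hn
        simp
      rw [Finset.sum_map] at h3
      simpa using h3
  refine lt_of_le_of_lt hbound ?_
  exact ENNReal.add_lt_top.mpr ⟨ENNReal.ofReal_lt_top,
    ENNReal.mul_lt_top ENNReal.ofReal_lt_top ENNReal.ofReal_lt_top⟩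

end model

end Pool.Agent.Lib.MP_562b47_mp.QP
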