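import Mathlib
import Pool.Agent.Lib.MP_562b47_mp.QP.Fin

/-!
QuantumPolya (MP_562b47_mp), module Fin2: the mean square displacement.
-/

open MeasureTheory Set Filter Topology Complex
open scoped Real ENNReal NNReal InnerProductSpace

set_option linter.unusedSectionVars false

namespace Pool.Agent.Lib.MP_562b47_mp.QP

variable {d : ℕ}

theorem qpf_cube {c : ℝ} (hc : 0 < c) {δ T a : ℝ} (hδ : 0 < δ) (hT : 0 < T) (ha : 0 ≤ a)
    (h : ∫⁻ t in Ioc 0 T, ∫⁻ ω, sqd d c t ω ∂(PP (Fin d → ℤ) c) ≤ ENNReal.ofReal (a * T)) {R : ℕ}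
    (hR : 0 < R) (hR2 : a ≤ δ * (R:ℝ) ^ 2) :
    Nst c (ee d) (HH d c) δ T ≤ ((2 * R + 1) ^ d : ℕ) := by
  have hR0 : (0:ℝ) < (R:ℝ) ^ 2 := by positivity
  have h1 : ENNReal.ofReal ((R:ℝ) ^ 2) * (∫⁻ t in Ioc 0 T, ∫⁻ ω,
      ENNReal.ofReal (outF (ee d) (HH d c) (cube d R) t ω) ∂(PP (Fin d → ℤ) c))
      ≤ ∫⁻ t in Ioc 0 T, ∫⁻ ω, sqd d c t ω ∂(PP (Fin d → ℤ) c) := by
    rw [← lintegral_const_mul' _ _ ENNReal.ofReal_ne_top]
    refine lintegral_mono fun t => ?_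
    rw [← lintegral_const_mul' _ _ ENNReal.ofReal_ne_top]
    refine lintegral_mono fun ω => ?_
    rw [← ENNReal.ofReal_mul hR0.le]
    exact le_sqd hc R t ω
  have h2 : ENNReal.ofReal (a * T) ≤ ENNReal.ofReal ((R:ℝ) ^ 2) * ENNReal.ofReal (δ * T) := by
    rw [← ENNReal.ofReal_mul hR0.le]
    refine ENNReal.ofReal_le_ofReal ?_
    nlinarith
  have h3 : (∫⁻ t in Ioc 0 T, ∫⁻ ω,
      ENNReal.ofReal (outF (ee d) (HH d c) (cube d R) t ω) ∂(PP (Fin d → ℤ) c))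
      ≤ ENNReal.ofReal (δ * T) := by
    refine (ENNReal.mul_le_mul_iff_right (a := ENNReal.ofReal ((R:ℝ) ^ 2)) ?_
      ENNReal.ofReal_ne_top).mp (h1.trans (h.trans h2))
    exact (ENNReal.ofReal_pos.mpr hR0).ne'
  unfold Nst
  refine (iInf₂_le (cube d R) h3).trans ?_
  rw [card_cube]

/-- the probability to be outside of `S` as a sum -/
theorem qpf_tsum_out {c : ℝ} (hc : 0 < c) (S : Finset (Fin d → ℤ)) (t : ℝ)
    (ω : (Fin d → ℤ) → ℝ) :
    ∑' x : {x : Fin d → ℤ // x ∉ S}, ‖⟪ee d x, Ut (HH d c) ω t (ee d 0)⟫_ℂ‖ₑ ^ 2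
      = ENNReal.ofReal (outF (ee d) (HH d c) S t ω) := by
  set M := model (d := d) hc
  set f : (Fin d → ℤ) → ℝ≥0∞ := fun x => ‖⟪ee d x, Ut (HH d c) ω t (ee d 0)⟫_ℂ‖ₑ ^ 2 with hf
  have h1 : ∑' x, f x = 1 := by
    change ∑' x, ‖⟪ee d x, Ut (HH d c) ω t (ee d 0)⟫_ℂ‖ₑ ^ 2 = 1
    rw [← M.parseval_enorm (Ut (HH d c) ω t (ee d 0)), ← ofReal_norm,
      norm_Ut_apply (M.sa ω), M.ortho.1]
    simp
  have h2 : ∑ x ∈ S, f x + ∑' x : {x : Fin d → ℤ // x ∉ S}, f x = ∑' x, f x := by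
    have h := Summable.tsum_add_tsum_compl (f := f) (s := (S : Set (Fin d → ℤ)))
      ENNReal.summable ENNReal.summable
    rw [Finset.tsum_subtype'] at h
    exact h
  have h3 : ∑ x ∈ S, f x
      = ENNReal.ofReal (∑ x ∈ S, ‖⟪ee d x, Ut (HH d c) ω t (ee d 0)⟫_ℂ‖ ^ 2) := by
    rw [ENNReal.ofReal_sum_of_nonneg fun i _ => by positivity]
    refine Finset.sum_congr rfl fun x _ => ?_
    rw [hf, ENNReal.ofReal_pow (norm_nonneg _), ofReal_norm]
  change ∑' x : {x : Fin d → ℤ // x ∉ S}, f x = _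
  unfold outF
  rw [ENNReal.ofReal_sub _ (Finset.sum_nonneg fun x _ => by positivity), ← h3,
    ENNReal.ofReal_one, ← h1, ← h2]
  refine (ENNReal.add_sub_cancel_left ?_).symm
  rw [h3]
  exact ENNReal.ofReal_ne_top

theorem fin2 {c : ℝ} (hc : 0 < c) {δ : ℝ} (hδ : 0 < δ)
    (h : ∫⁻ T in Ioi (1:ℝ), (Nst c (ee d) (HH d c) δ T)⁻¹ < ⊤) :
    ∫⁻ T in Ioi (1:ℝ), (1 + (∫⁻ t in Ioc 0 T, ∫⁻ ω, sqd d c t ω ∂(PP (Fin d → ℤ) c))
      / ENNReal.ofReal T) ^ (-(d:ℝ) / 2) < ⊤ := by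
  rcases Nat.eq_zero_or_pos d with hd0 | hd0
  · exfalso
    subst hd0
    have h1 : ∀ T ∈ Ioi (1:ℝ), (1:ℝ≥0∞) ≤ (Nst c (ee 0) (HH 0 c) δ T)⁻¹ := by
      intro T hT
      rw [ENNReal.one_le_inv]
      have hT0 : (0:ℝ) < T := lt_trans one_pos hT
      have h2 := qpf_cube (d := 0) hc hδ hT0 le_rfl (a := 0) (by
        rw [zero_mul, ENNReal.ofReal_zero, nonpos_iff_eq_zero]
        have h3 : ∀ t (ω : (Fin 0 → ℤ) → ℝ), sqd 0 c t ω = 0 := by
          intro t ω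
          unfold sqd
          simp
        simp [h3]) (R := 1) one_pos (by positivity)
      simpa using h2
    have h2 : ∫⁻ T in Ioi (1:ℝ), (1:ℝ≥0∞) < ⊤ := lt_of_le_of_lt (setLIntegral_mono' measurableSet_Ioi h1) h
    rw [setLIntegral_one, Real.volume_Ioi] at h2
    exact lt_irrefl _ h2
  have hdR : (0:ℝ) < (d:ℝ) := by exact_mod_cast hd0
  set C1 : ℝ := 2 / √δ + 5 with hC1
  have hsδ : 0 < √δ := Real.sqrt_pos.mpr hδ
  have hC10 : 0 < C1 := by positivity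
  have hpt : ∀ T ∈ Ioi (1:ℝ), (1 + (∫⁻ t in Ioc 0 T, ∫⁻ ω, sqd d c t ω ∂(PP (Fin d → ℤ) c))
      / ENNReal.ofReal T) ^ (-(d:ℝ) / 2) ≤ ENNReal.ofReal (C1 ^ d)
        * (Nst c (ee d) (HH d c) δ T)⁻¹ := by
    intro T hT
    have hT0 : (0:ℝ) < T := lt_trans one_pos hT
    set A : ℝ≥0∞ := (∫⁻ t in Ioc 0 T, ∫⁻ ω, sqd d c t ω ∂(PP (Fin d → ℤ) c)) / ENNReal.ofReal T
      with hA
    by_cases hAt : A = ⊤
    · rw [hAt, add_top, ENNReal.top_rpow_of_neg (by linarith)]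
      exact zero_le
    · set a : ℝ := A.toReal with ha
      have ha0 : 0 ≤ a := ENNReal.toReal_nonneg
      have hAa : A = ENNReal.ofReal a := (ENNReal.ofReal_toReal hAt).symm
      have hint : ∫⁻ t in Ioc 0 T, ∫⁻ ω, sqd d c t ω ∂(PP (Fin d → ℤ) c)
          ≤ ENNReal.ofReal (a * T) := by
        rw [ENNReal.ofReal_mul ha0, ← hAa, hA,
          ENNReal.div_mul_cancel (by simpa using hT0) ENNReal.ofReal_ne_top]
      set R : ℕ := ⌈√(a / δ)⌉₊ + 1 with hR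
      have hR1 : √(a / δ) ≤ R := by
        have := Nat.le_ceil (√(a / δ))
        rw [hR]; push_cast; linarith
      have hR2 : a ≤ δ * (R:ℝ) ^ 2 := by
        have h1 : a / δ ≤ (R:ℝ) ^ 2 := by
          rw [← Real.sq_sqrt (div_nonneg ha0 hδ.le)]
          exact pow_le_pow_left₀ (Real.sqrt_nonneg _) hR1 2
        rw [div_le_iff₀ hδ] at h1
        linarith
      have hN := qpf_cube hc hδ hT0 ha0 hint (Nat.succ_pos _ : 0 < R) hR2
      have hR3 : 2 * (R:ℝ) + 1 ≤ C1 * √(1 + a) := by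
        have h1 : (⌈√(a / δ)⌉₊ : ℝ) ≤ √(a / δ) + 1 := (Nat.ceil_lt_add_one (Real.sqrt_nonneg _)).le
        have h2 : √(a / δ) ≤ √(1 + a) / √δ := by
          rw [Real.sqrt_div ha0]
          gcongr
          linarith
        have h3 : 1 ≤ √(1 + a) := by
          rw [Real.one_le_sqrt]; linarith
        have h4 : C1 * √(1 + a) = 2 * (√(1 + a) / √δ) + 5 * √(1 + a) := by
          rw [hC1]; ring
        rw [h4, hR]
        push_cast
        linarith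
      have hN2 : Nst c (ee d) (HH d c) δ T ≤ ENNReal.ofReal (C1 ^ d) * (1 + A) ^ ((d:ℝ) / 2) := by
        have h5 : (1 + A) ^ ((d:ℝ) / 2) = ENNReal.ofReal (√(1 + a) ^ d) := by
          rw [hAa, ← ENNReal.ofReal_one, ← ENNReal.ofReal_add zero_le_one ha0,
            ENNReal.ofReal_rpow_of_pos (by linarith)]
          congr 1
          rw [Real.sqrt_eq_rpow, ← Real.rpow_natCast, ← Real.rpow_mul (by linarith)]
          congr 1
          ring
        rw [h5, ← ENNReal.ofReal_mul (by positivity), ← mul_pow]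
        refine hN.trans ?_
        have h6 : (((2 * R + 1) ^ d : ℕ) : ℝ≥0∞) = ENNReal.ofReal ((2 * (R:ℝ) + 1) ^ d) := by
          rw [← ENNReal.ofReal_natCast]
          push_cast
          rfl
        rw [h6]
        exact ENNReal.ofReal_le_ofReal (pow_le_pow_left₀ (by positivity) hR3 d)
      have hX0 : ENNReal.ofReal (C1 ^ d) ≠ 0 := by
        have : 0 < C1 ^ d := by positivity
        simpa using this
      have hX1 : ENNReal.ofReal (C1 ^ d) ≠ ⊤ := ENNReal.ofReal_ne_top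
      rw [neg_div, ENNReal.rpow_neg]
      calc ((1 + A) ^ ((d:ℝ) / 2))⁻¹
          = ENNReal.ofReal (C1 ^ d) * (ENNReal.ofReal (C1 ^ d) * (1 + A) ^ ((d:ℝ) / 2))⁻¹ := by
            rw [ENNReal.mul_inv (Or.inl hX0) (Or.inl hX1), ← mul_assoc,
              ENNReal.mul_inv_cancel hX0 hX1, one_mul]
        _ ≤ _ := by
            gcongr
  refine lt_of_le_of_lt (setLIntegral_mono' measurableSet_Ioi hpt) ?_
  rw [lintegral_const_mul' _ _ ENNReal.ofReal_ne_top]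
  exact ENNReal.mul_lt_top ENNReal.ofReal_lt_top h

end Pool.Agent.Lib.MP_562b47_mp.QP
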